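import Pool.Agent.Run7.h779.LH.Core2

set_option autoImplicit false
set_option linter.unusedSectionVars false

open Finset Module

namespace Run7.h779.LH

noncomputable section

/-- words -/
abbrev Wd (n : ℕ) := Fin n → ZMod 2

/-- the words of weight less than `d` -/
def ball (n d : ℕ) : Finset (Wd n) := univ.filter fun x => hammingNorm x < d

/-- the coordinates where the character is nontrivial -/
def supp {n : ℕ} (ψ : AddChar (Wd n) ℂ) : Finset (Fin n) :=
  haveI := Classical.decEq ℂ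
  univ.filter fun j => ψ (Pi.single j 1) ≠ 1

lemma mem_supp {n : ℕ} (ψ : AddChar (Wd n) ℂ) (j : Fin n) :
    j ∈ supp ψ ↔ ψ (Pi.single j 1) ≠ 1 := by
  classical
  unfold supp
  rw [mem_filter]
  simp

lemma char_single {n : ℕ} (ψ : AddChar (Wd n) ℂ) (j : Fin n) :
    ψ (Pi.single j 1) = if j ∈ supp ψ then -1 else 1 := by
  split_ifs with h
  · rw [mem_supp] at h
    have h2 : ψ (Pi.single j 1) * ψ (Pi.single j 1) = 1 := by
      rw [← AddChar.map_add_eq_mul, ← Pi.single_add]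
      have : (1 : ZMod 2) + 1 = 0 := by decide
      rw [this, Pi.single_zero, AddChar.map_zero_eq_one]
    rcases mul_self_eq_one_iff.1 h2 with h3 | h3
    · exact absurd h3 h
    · exact h3
  · rw [mem_supp, not_not] at h
    exact h

lemma supp_injective {n : ℕ} : Function.Injective (supp (n := n)) := by
  classical
  intro ψ φ h
  ext x
  have hx : x = ∑ j, Pi.single j (x j) := (Finset.univ_sum_single x).symm
  rw [hx, char_sum, char_sum]
  refine prod_congr rfl fun j _ => ?_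
  have h01 : x j = 0 ∨ x j = 1 := by
    have : ∀ z : ZMod 2, z = 0 ∨ z = 1 := by decide
    exact this _
  rcases h01 with h0 | h0
  · rw [h0, Pi.single_zero, AddChar.map_zero_eq_one, AddChar.map_zero_eq_one]
  · rw [h0, char_single, char_single, h]

/-- generating function -/
lemma gen {n : ℕ} (ψ : AddChar (Wd n) ℂ) (z : ℂ) :
    ∑ b : Wd n, ψ b * z ^ hammingNorm b = ∏ j, (1 + (if j ∈ supp ψ then -1 else 1) * z) := by
  classical
  have h1 : ∀ b : Wd n, ψ b * z ^ hammingNorm b =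
      ∏ j, (ψ (Pi.single j (b j)) * if b j = 0 then 1 else z) := by
    intro b
    rw [prod_mul_distrib, ← char_sum, Finset.univ_sum_single]
    congr 1
    rw [Finset.prod_ite, prod_const_one, one_mul, prod_const]
    rfl
  simp_rw [h1]
  have h2 := Finset.prod_univ_sum (fun _ : Fin n => (univ : Finset (ZMod 2)))
    (fun j c => ψ (Pi.single j c) * if c = 0 then (1 : ℂ) else z)
  rw [Fintype.piFinset_univ] at h2
  rw [← h2]
  refine prod_congr rfl fun j _ => ?_
  have h3 : (univ : Finset (ZMod 2)) = {0, 1} := by decide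
  rw [h3, sum_pair (by decide)]
  rw [Pi.single_zero, AddChar.map_zero_eq_one, char_single]
  simp

lemma norm_gen_le {n : ℕ} (ψ : AddChar (Wd n) ℂ) {r : ℝ} (hr : 0 ≤ r) {ζ : ℂ} (hζ : ‖ζ‖ = 1)
    {m : ℕ} (h1 : m ≤ (supp ψ).card) (h2 : m ≤ n - (supp ψ).card) :
    ‖∑ b : Wd n, ψ b * (r * ζ) ^ hammingNorm b‖ ≤ (1 + r ^ 2) ^ m * (1 + r) ^ (n - 2 * m) := by
  classical
  rw [gen, norm_prod]
  have hs : (supp ψ).card ≤ n := by simpa using card_le_univ (supp ψ)
  have hprod : ∏ j, ‖1 + (if j ∈ supp ψ then -1 else 1) * ((r : ℂ) * ζ)‖ =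
      ‖1 - r * ζ‖ ^ (supp ψ).card * ‖1 + r * ζ‖ ^ (n - (supp ψ).card) := by
    have h3 : ∀ j : Fin n, ‖1 + (if j ∈ supp ψ then -1 else 1) * ((r : ℂ) * ζ)‖ =
        if j ∈ supp ψ then ‖1 - r * ζ‖ else ‖1 + r * ζ‖ := by
      intro j
      split_ifs
      · rw [neg_one_mul, ← sub_eq_add_neg]
      · rw [one_mul]
    simp_rw [h3]
    rw [Finset.prod_ite, prod_const, prod_const]
    congr 2
    · congr 1
      ext i
      simp
    · have : (univ.filter fun i => i ∉ supp ψ) = (supp ψ)ᶜ := by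
        ext i
        simp
      rw [this, card_compl, Fintype.card_fin]
  rw [hprod]
  have hm : ‖1 - r * ζ‖ ≤ 1 + r := by
    refine (norm_sub_le _ _).trans ?_
    rw [norm_one, norm_mul, hζ, mul_one, Complex.norm_real, Real.norm_of_nonneg hr]
  have hp : ‖1 + r * ζ‖ ≤ 1 + r := by
    refine (norm_add_le _ _).trans ?_
    rw [norm_one, norm_mul, hζ, mul_one, Complex.norm_real, Real.norm_of_nonneg hr]
  have hmp : ‖1 - r * ζ‖ * ‖1 + r * ζ‖ ≤ 1 + r ^ 2 := by
    rw [← norm_mul]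
    have : (1 - r * ζ) * (1 + r * ζ) = 1 - (r * ζ) ^ 2 := by ring
    rw [this]
    refine (norm_sub_le _ _).trans ?_
    rw [norm_one, norm_pow, norm_mul, hζ, mul_one, Complex.norm_real, Real.norm_of_nonneg hr]
  obtain ⟨s, hs1⟩ : ∃ s, (supp ψ).card = m + s := ⟨_, (Nat.add_sub_cancel' h1).symm⟩
  obtain ⟨u, hu1⟩ : ∃ u, n - (supp ψ).card = m + u := ⟨_, (Nat.add_sub_cancel' h2).symm⟩
  have hsu : n - 2 * m = s + u := by omega
  rw [hu1, hs1, hsu, pow_add, pow_add, pow_add]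
  calc ‖1 - r * ζ‖ ^ m * ‖1 - r * ζ‖ ^ s * (‖1 + r * ζ‖ ^ m * ‖1 + r * ζ‖ ^ u)
      = (‖1 - r * ζ‖ * ‖1 + r * ζ‖) ^ m * (‖1 - r * ζ‖ ^ s * ‖1 + r * ζ‖ ^ u) := by
        rw [mul_pow]; ring
    _ ≤ (1 + r ^ 2) ^ m * ((1 + r) ^ s * (1 + r) ^ u) := by gcongr

/-- the sum over a sphere -/
lemma norm_sphere_le {n : ℕ} (ψ : AddChar (Wd n) ℂ) {r : ℝ} (hr : 0 < r)
    {m : ℕ} (h1 : m ≤ (supp ψ).card) (h2 : m ≤ n - (supp ψ).card) {w : ℕ} (hw : w ≤ n) :
    ‖∑ b ∈ univ.filter (fun b : Wd n => hammingNorm b = w), ψ b‖ ≤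
      r⁻¹ ^ w * ((1 + r ^ 2) ^ m * (1 + r) ^ (n - 2 * m)) := by
  classical
  have hN : NeZero (n + 1) := ⟨by omega⟩
  have hle : ∀ b : Wd n, hammingNorm b ≤ n := by
    intro b
    have := hammingNorm_le_card_fintype (x := b)
    simpa using this
  have hcast : ∀ a b : ℕ, a ≤ n → b ≤ n → (((a : ZMod (n + 1)) - (b : ZMod (n + 1)) = 0) ↔ a = b) := by
    intro a b ha hb
    rw [sub_eq_zero, ZMod.natCast_eq_natCast_iff, Nat.ModEq, Nat.mod_eq_of_lt (by omega),
      Nat.mod_eq_of_lt (by omega)]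
  have hcn : ((n + 1 : ℕ) : ℂ) ≠ 0 := by exact_mod_cast Nat.succ_ne_zero n
  have key : (r : ℂ) ^ w * ∑ b ∈ univ.filter (fun b : Wd n => hammingNorm b = w), ψ b =
      ((n + 1 : ℕ) : ℂ)⁻¹ * ∑ χ : AddChar (ZMod (n + 1)) ℂ, χ (-(w : ZMod (n + 1))) *
        ∑ b : Wd n, ψ b * (r * χ 1) ^ hammingNorm b := by
    have h3 : ∀ χ : AddChar (ZMod (n + 1)) ℂ, χ (-(w : ZMod (n + 1))) *
        ∑ b : Wd n, ψ b * (r * χ 1) ^ hammingNorm b =
        ∑ b : Wd n, ψ b * r ^ hammingNorm b *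
          χ ((hammingNorm b : ZMod (n + 1)) - (w : ZMod (n + 1))) := by
      intro χ
      rw [Finset.mul_sum]
      refine sum_congr rfl fun b _ => ?_
      rw [sub_eq_add_neg, AddChar.map_add_eq_mul, mul_pow]
      have : χ (hammingNorm b : ZMod (n + 1)) = χ 1 ^ hammingNorm b := by
        rw [← AddChar.map_nsmul_eq_pow, nsmul_eq_mul, mul_one]
      rw [this]
      ring
    simp_rw [h3]
    rw [sum_comm]
    simp_rw [← Finset.mul_sum, AddChar.sum_apply_eq_ite]
    rw [eq_inv_mul_iff_mul_eq₀ hcn, Finset.mul_sum, Finset.mul_sum, Finset.sum_filter]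
    refine sum_congr rfl fun b _ => ?_
    by_cases hb : hammingNorm b = w
    · rw [if_pos hb, if_pos ((hcast _ _ (hle b) hw).2 hb), hb, ZMod.card]
      ring
    · rw [if_neg hb, if_neg fun h => hb ((hcast _ _ (hle b) hw).1 h), mul_zero]
  have hbound : ‖∑ χ : AddChar (ZMod (n + 1)) ℂ, χ (-(w : ZMod (n + 1))) *
        ∑ b : Wd n, ψ b * (r * χ 1) ^ hammingNorm b‖ ≤
      (n + 1 : ℕ) * ((1 + r ^ 2) ^ m * (1 + r) ^ (n - 2 * m)) := by
    refine (norm_sum_le _ _).trans ?_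
    have hc : ((n + 1 : ℕ) : ℝ) = ∑ _χ : AddChar (ZMod (n + 1)) ℂ, (1 : ℝ) := by
      rw [sum_const, nsmul_eq_mul, mul_one, card_univ, AddChar.card_eq, ZMod.card]
    rw [hc, Finset.sum_mul]
    refine sum_le_sum fun χ _ => ?_
    rw [norm_mul, AddChar.norm_apply]
    refine mul_le_mul_of_nonneg_left ?_ zero_le_one
    exact norm_gen_le ψ hr.le (AddChar.norm_apply _ _) h1 h2
  have h4 : r ^ w * ‖∑ b ∈ univ.filter (fun b : Wd n => hammingNorm b = w), ψ b‖ ≤
      (1 + r ^ 2) ^ m * (1 + r) ^ (n - 2 * m) := by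
    have h5 : r ^ w * ‖∑ b ∈ univ.filter (fun b : Wd n => hammingNorm b = w), ψ b‖ =
        ‖(r : ℂ) ^ w * ∑ b ∈ univ.filter (fun b : Wd n => hammingNorm b = w), ψ b‖ := by
      rw [norm_mul, norm_pow, Complex.norm_real, Real.norm_of_nonneg hr.le]
    rw [h5, key, norm_mul, norm_inv, Complex.norm_natCast]
    have hn : (0 : ℝ) < (n + 1 : ℕ) := by exact_mod_cast Nat.succ_pos n
    rw [inv_mul_le_iff₀ hn]
    exact hbound
  have hrw : 0 < r ^ w := by positivity
  rw [inv_pow, ← div_eq_inv_mul, le_div_iff₀ hrw, mul_comm]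
  exact h4

/-- the sum over the ball -/
lemma norm_ball_le {n d : ℕ} (ψ : AddChar (Wd n) ℂ) {r : ℝ} (hr : 0 < r) (hr1 : r ≤ 1)
    {m : ℕ} (h1 : m ≤ (supp ψ).card) (h2 : m ≤ n - (supp ψ).card) :
    ‖∑ b ∈ ball n d, ψ b‖ ≤
      (n + 1) * (r⁻¹ ^ (d - 1) * ((1 + r ^ 2) ^ m * (1 + r) ^ (n - 2 * m))) := by
  classical
  have hle : ∀ b : Wd n, hammingNorm b ≤ n := by
    intro b
    have := hammingNorm_le_card_fintype (x := b)
    simpa using this
  have hsplit : ∑ b ∈ ball n d, ψ b =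
      ∑ w ∈ (range (n + 1)).filter (· < d),
        ∑ b ∈ univ.filter (fun b : Wd n => hammingNorm b = w), ψ b := by
    rw [← Finset.sum_fiberwise_of_maps_to (g := fun b : Wd n => hammingNorm b)
      (t := (range (n + 1)).filter (· < d))]
    · refine sum_congr rfl fun w hw => ?_
      rw [mem_filter] at hw
      refine sum_congr ?_ fun _ _ => rfl
      ext b
      unfold ball
      simp only [mem_filter, mem_univ, true_and]
      constructor
      · exact fun h => h.2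
      · exact fun h => ⟨by rw [h]; exact hw.2, h⟩
    · intro b hb
      unfold ball at hb
      rw [mem_filter] at hb
      rw [mem_filter, mem_range]
      exact ⟨Nat.lt_succ_of_le (hle b), hb.2⟩
  rw [hsplit]
  refine (norm_sum_le _ _).trans ?_
  have hterm : ∀ w ∈ (range (n + 1)).filter (· < d),
      ‖∑ b ∈ univ.filter (fun b : Wd n => hammingNorm b = w), ψ b‖ ≤
      r⁻¹ ^ (d - 1) * ((1 + r ^ 2) ^ m * (1 + r) ^ (n - 2 * m)) := by
    intro w hw
    rw [mem_filter, mem_range] at hw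
    refine (norm_sphere_le ψ hr h1 h2 (w := w) (by omega)).trans ?_
    have hrinv : 1 ≤ r⁻¹ := (one_le_inv₀ hr).2 hr1
    have : r⁻¹ ^ w ≤ r⁻¹ ^ (d - 1) := pow_le_pow_right₀ hrinv (by omega)
    gcongr
  refine (sum_le_sum hterm).trans ?_
  rw [sum_const, nsmul_eq_mul]
  have hc : ((((range (n + 1)).filter (· < d)).card : ℕ) : ℝ) ≤ n + 1 := by
    have := card_filter_le (range (n + 1)) (· < d)
    rw [card_range] at this
    exact_mod_cast this
  gcongr

end

end Run7.h779.LH
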