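import Pool.Agent.Run7.h779.LH.Ball

set_option autoImplicit false
set_option linter.unusedSectionVars false

open Finset Module

namespace Run7.h779.LH

noncomputable section

/-- `∑ r ^ |b| = (1 + r) ^ n` -/
lemma sum_pow (n : ℕ) (r : ℝ) : ∑ b : Wd n, r ^ hammingNorm b = (1 + r) ^ n := by
  classical
  have h := gen (0 : AddChar (Wd n) ℂ) (r : ℂ)
  have hs : ∀ j : Fin n, j ∉ supp (0 : AddChar (Wd n) ℂ) := by
    intro j
    rw [mem_supp]
    simp
  simp only [AddChar.zero_apply, one_mul, hs, if_false, prod_const, card_univ,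
    Fintype.card_fin] at h
  have h2 : ((∑ b : Wd n, r ^ hammingNorm b : ℝ) : ℂ) = (((1 + r) ^ n : ℝ) : ℂ) := by
    push_cast
    exact h
  exact Complex.ofReal_injective h2

lemma ball_card_le {n d : ℕ} {r : ℝ} (hr : 0 < r) (hr1 : r ≤ 1) :
    ((ball n d).card : ℝ) ≤ r⁻¹ ^ (d - 1) * (1 + r) ^ n := by
  classical
  rw [← sum_pow, inv_pow, ← div_eq_inv_mul, le_div_iff₀ (by positivity)]
  calc ((ball n d).card : ℝ) * r ^ (d - 1) = ∑ _b ∈ ball n d, r ^ (d - 1) := by
        rw [sum_const, nsmul_eq_mul]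
    _ ≤ ∑ b ∈ ball n d, r ^ hammingNorm b := by
        refine sum_le_sum fun b hb => ?_
        unfold ball at hb
        rw [mem_filter] at hb
        exact pow_le_pow_of_le_one hr.le hr1 (by omega)
    _ ≤ ∑ b : Wd n, r ^ hammingNorm b :=
        sum_le_sum_of_subset_of_nonneg (subset_univ _) fun b _ _ => by positivity

/-- subsets with fewer than `m` elements -/
lemma small_sets {n m : ℕ} {r : ℝ} (hr : 0 < r) (hr1 : r ≤ 1) :
    (((univ : Finset (Finset (Fin n))).filter fun T => T.card < m).card : ℝ) ≤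
      r⁻¹ ^ (m - 1) * (1 + r) ^ n := by
  classical
  have h0 : (1 + r) ^ n = ∑ T : Finset (Fin n), r ^ T.card := by
    have := Finset.sum_pow_mul_eq_add_pow r 1 (univ : Finset (Fin n))
    simp only [one_pow, mul_one, card_univ, Fintype.card_fin, powerset_univ] at this
    rw [this, add_comm]
  rw [h0, inv_pow, ← div_eq_inv_mul, le_div_iff₀ (by positivity)]
  calc (((univ : Finset (Finset (Fin n))).filter fun T => T.card < m).card : ℝ) * r ^ (m - 1)
      = ∑ _T ∈ (univ : Finset (Finset (Fin n))).filter (fun T => T.card < m), r ^ (m - 1) := by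
        rw [sum_const, nsmul_eq_mul]
    _ ≤ ∑ T ∈ (univ : Finset (Finset (Fin n))).filter (fun T => T.card < m), r ^ T.card := by
        refine sum_le_sum fun T hT => ?_
        rw [mem_filter] at hT
        exact pow_le_pow_of_le_one hr.le hr1 (by omega)
    _ ≤ ∑ T : Finset (Fin n), r ^ T.card :=
        sum_le_sum_of_subset_of_nonneg (subset_univ _) fun b _ _ => by positivity

instance charFin (n : ℕ) : Fintype (AddChar (Wd n) ℂ) := inferInstance

/-- the characters of small or large weight -/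
def badChar (n m : ℕ) : Finset (AddChar (Wd n) ℂ) :=
  haveI := Classical.decEq (AddChar (Wd n) ℂ)
  univ.filter fun ψ => ψ ≠ 0 ∧ ((supp ψ).card < m ∨ n - (supp ψ).card < m)

lemma mem_badChar {n m : ℕ} (ψ : AddChar (Wd n) ℂ) :
    ψ ∈ badChar n m ↔ ψ ≠ 0 ∧ ((supp ψ).card < m ∨ n - (supp ψ).card < m) := by
  classical
  unfold badChar
  rw [mem_filter]
  simp

lemma badChar_card {n m : ℕ} {r : ℝ} (hr : 0 < r) (hr1 : r ≤ 1) :
    ((badChar n m).card : ℝ) ≤ 2 * (r⁻¹ ^ (m - 1) * (1 + r) ^ n) := by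
  classical
  have h1 : (badChar n m).card ≤
      ((univ : Finset (Finset (Fin n))).filter fun T => T.card < m ∨ n - T.card < m).card := by
    refine card_le_card_of_injOn supp ?_ supp_injective.injOn
    intro ψ hψ
    rw [mem_coe, mem_badChar] at hψ
    rw [mem_coe, mem_filter]
    exact ⟨mem_univ _, hψ.2⟩
  have h2 : ((univ : Finset (Finset (Fin n))).filter fun T => T.card < m ∨ n - T.card < m).card ≤
      ((univ : Finset (Finset (Fin n))).filter fun T => T.card < m).card +
      ((univ : Finset (Finset (Fin n))).filter fun T => T.card < m).card := by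
    rw [filter_or]
    refine (card_union_le _ _).trans ?_
    refine Nat.add_le_add_left ?_ _
    refine card_le_card_of_injOn compl ?_ compl_injective.injOn
    intro T hT
    rw [mem_coe, mem_filter] at hT ⊢
    rw [card_compl, Fintype.card_fin]
    exact ⟨mem_univ _, hT.2⟩
  have h3 := small_sets (n := n) (m := m) hr hr1
  have h4 : ((badChar n m).card : ℝ) ≤
      (((univ : Finset (Finset (Fin n))).filter fun T => T.card < m).card : ℝ) +
      ((univ : Finset (Finset (Fin n))).filter fun T => T.card < m).card := by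
    exact_mod_cast h1.trans h2
  linarith

/-- half of the words are in the kernel of a nontrivial character -/
lemma ker_card {n : ℕ} (ψ : AddChar (Wd n) ℂ) (hψ : ψ ≠ 0) [DecidablePred fun x => ψ x = 1] :
    2 * (univ.filter fun x : Wd n => ψ x = 1).card = 2 ^ n := by
  classical
  have h1 : ∑ x : Wd n, ψ x = 0 := by
    rw [AddChar.sum_eq_ite, if_neg hψ]
  have h2 : ∀ x : Wd n, ψ x = 1 ∨ ψ x = -1 := by
    intro x
    have : ψ x * ψ x = 1 := by
      rw [← AddChar.map_add_eq_mul]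
      have h : x + x = 0 := by
        ext j
        exact CharTwo.add_self_eq_zero _
      rw [h, AddChar.map_zero_eq_one]
    exact mul_self_eq_one_iff.1 this
  have h3 : ∑ x : Wd n, (ψ x + 1) = 2 * ((univ.filter fun x : Wd n => ψ x = 1).card : ℂ) := by
    have : ∀ x : Wd n, ψ x + 1 = if ψ x = 1 then 2 else 0 := by
      intro x
      rcases h2 x with h | h
      · rw [if_pos h, h]; norm_num
      · rw [if_neg (by rw [h]; norm_num), h]; norm_num
    simp_rw [this]
    rw [← Finset.sum_filter, sum_const, nsmul_eq_mul]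
    ring
  rw [sum_add_distrib, h1, zero_add, sum_const, card_univ, nsmul_eq_mul, mul_one,
    Fintype.card_fun, ZMod.card, Fintype.card_fin] at h3
  have h4 : ((2 * (univ.filter fun x : Wd n => ψ x = 1).card : ℕ) : ℂ) = ((2 ^ n : ℕ) : ℂ) := by
    push_cast at h3 ⊢
    exact h3.symm
  exact_mod_cast h4

lemma tuples_ker {n k : ℕ} (ψ : AddChar (Wd n) ℂ) (hψ : ψ ≠ 0)
    [DecidablePred fun G : Fin k → Wd n => ∀ l, ψ (G l) = 1] :
    2 ^ k * (univ.filter fun G : Fin k → Wd n => ∀ l, ψ (G l) = 1).card = 2 ^ (n * k) := by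
  classical
  have h1 : (univ.filter fun G : Fin k → Wd n => ∀ l, ψ (G l) = 1) =
      Fintype.piFinset fun _ : Fin k => univ.filter fun x : Wd n => ψ x = 1 := by
    ext G
    rw [Fintype.mem_piFinset]
    simp
  rw [h1, Fintype.card_piFinset, prod_const, card_univ, Fintype.card_fin, ← mul_pow,
    ker_card ψ hψ, ← pow_mul]

/-- the number of tuples whose span contains a nonzero word -/
lemma tuples_span {n k : ℕ} (v : Wd n) (hv : v ≠ 0)
    [DecidablePred fun G : Fin k → Wd n => v ∈ Submodule.span (ZMod 2) (Set.range G)] :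
    2 ^ n * (univ.filter fun G : Fin k → Wd n =>
      v ∈ Submodule.span (ZMod 2) (Set.range G)).card ≤ 2 ^ k * 2 ^ (n * k) := by
  classical
  -- for one combination
  have h1 : ∀ u : Fin k → ZMod 2, 2 ^ n * (univ.filter fun G : Fin k → Wd n =>
      ∑ l, u l • G l = v).card ≤ 2 ^ (n * k) := by
    intro u
    by_cases hu : ∀ l, u l = 0
    · have : (univ.filter fun G : Fin k → Wd n => ∑ l, u l • G l = v) = ∅ := by
        rw [Finset.filter_eq_empty_iff]
        intro G _ hG
        apply hv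
        rw [← hG]
        exact sum_eq_zero fun l _ => by rw [hu l, zero_smul]
      rw [this, card_empty, mul_zero]
      exact Nat.zero_le _
    · push Not at hu
      obtain ⟨l0, hl0⟩ := hu
      have hu1 : u l0 = 1 := by
        have : ∀ z : ZMod 2, z ≠ 0 → z = 1 := by decide
        exact this _ hl0
      have hc : (univ : Finset (Wd n)).card = 2 ^ n := by
        rw [card_univ, Fintype.card_fun, ZMod.card, Fintype.card_fin]
      have hc2 : (univ : Finset (Fin k → Wd n)).card = 2 ^ (n * k) := by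
        rw [card_univ, Fintype.card_fun, Fintype.card_fun, ZMod.card, Fintype.card_fin,
          Fintype.card_fin, ← pow_mul]
      rw [← hc, ← hc2, ← card_product]
      refine card_le_card_of_injOn (fun p => p.2 + Pi.single l0 p.1) (fun _ _ => mem_univ _) ?_
      rintro ⟨x, G⟩ hG ⟨x', G'⟩ hG' h
      rw [mem_coe, mem_product, mem_filter] at hG hG'
      dsimp only at h hG hG'
      have hs : ∀ (x : Wd n) (G : Fin k → Wd n),
          ∑ l, u l • (G + Pi.single l0 x : Fin k → Wd n) l = ∑ l, u l • G l + x := by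
        intro x G
        simp only [Pi.add_apply, smul_add, sum_add_distrib]
        congr 1
        rw [Finset.sum_eq_single l0]
        · rw [Pi.single_eq_same, hu1, one_smul]
        · intro l _ hl
          rw [Pi.single_eq_of_ne hl, smul_zero]
        · intro h; exact absurd (mem_univ _) h
      have h2 := hs x G
      have h3 := hs x' G'
      rw [h, h3, hG.2.2, hG'.2.2] at h2
      have hx : x = x' := (add_left_cancel h2).symm
      subst hx
      have hGG : G = G' := add_right_cancel h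
      rw [hGG]
  have h2 : (univ.filter fun G : Fin k → Wd n => v ∈ Submodule.span (ZMod 2) (Set.range G)) ⊆
      (univ : Finset (Fin k → ZMod 2)).biUnion fun u => univ.filter fun G : Fin k → Wd n =>
        ∑ l, u l • G l = v := by
    intro G hG
    rw [mem_filter] at hG
    obtain ⟨c, hc⟩ := (Submodule.mem_span_range_iff_exists_fun (ZMod 2)).1 hG.2
    rw [mem_biUnion]
    exact ⟨c, mem_univ _, mem_filter.2 ⟨mem_univ _, hc⟩⟩
  calc 2 ^ n * (univ.filter fun G : Fin k → Wd n =>
      v ∈ Submodule.span (ZMod 2) (Set.range G)).card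
      ≤ 2 ^ n * ∑ u : Fin k → ZMod 2, (univ.filter fun G : Fin k → Wd n =>
        ∑ l, u l • G l = v).card :=
        Nat.mul_le_mul_left _ ((card_le_card h2).trans card_biUnion_le)
    _ = ∑ u : Fin k → ZMod 2, 2 ^ n * (univ.filter fun G : Fin k → Wd n =>
        ∑ l, u l • G l = v).card := by rw [Finset.mul_sum]
    _ ≤ ∑ _u : Fin k → ZMod 2, 2 ^ (n * k) := sum_le_sum fun u _ => h1 u
    _ = 2 ^ k * 2 ^ (n * k) := by
        rw [sum_const, card_univ, Fintype.card_fun, ZMod.card, Fintype.card_fin, smul_eq_mul]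

/-- colliding pairs -/
def pairs (n d : ℕ) : Finset (Wd n × Wd n) :=
  ((ball n d) ×ˢ (ball n d)).filter fun p => p.1 ≠ p.2

/-- existence of the code `C₀` -/
theorem exists_code {n d k m : ℕ} (hd : 1 ≤ d)
    (h1 : ((badChar n m).card : ℝ) / 2 ^ k < 1 / 4)
    (h2 : ((ball n d).card : ℝ) * 2 ^ k / 2 ^ n < 1 / 4) :
    ∃ C : Submodule (ZMod 2) (Wd n), Nat.card C ≤ 2 ^ k ∧
      (∀ ψ : AddChar (Wd n) ℂ, ψ ≠ 0 → (∀ x ∈ C, ψ x = 1) →
        m ≤ (supp ψ).card ∧ m ≤ n - (supp ψ).card) ∧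
      (∀ b ∈ ball n d, b ∈ C → b = 0) ∧
      ∃ D : Finset (Wd n × Wd n), (∀ p, p ∈ D ↔ p ∈ pairs n d ∧ p.1 - p.2 ∈ C) ∧
        (D.card : ℝ) ≤ 2 * ((ball n d).card : ℝ) ^ 2 * 2 ^ k / 2 ^ n := by
  classical
  obtain ⟨b1, hb1⟩ : ∃ b1 : (Fin k → Wd n) → ℕ, b1 = fun G =>
    ((badChar n m).filter fun ψ => ∀ l, ψ (G l) = 1).card := ⟨_, rfl⟩
  obtain ⟨b2, hb2⟩ : ∃ b2 : (Fin k → Wd n) → ℕ, b2 = fun G =>
    ((pairs n d).filter fun p => p.1 - p.2 ∈ Submodule.span (ZMod 2) (Set.range G)).card :=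
    ⟨_, rfl⟩
  obtain ⟨b3, hb3⟩ : ∃ b3 : (Fin k → Wd n) → ℕ, b3 = fun G =>
    (((ball n d).erase 0).filter fun b => b ∈ Submodule.span (ZMod 2) (Set.range G)).card :=
    ⟨_, rfl⟩
  have hB : (0 : ℝ) < (ball n d).card := by
    have : (0 : Wd n) ∈ ball n d := by
      unfold ball
      rw [mem_filter]
      exact ⟨mem_univ _, by rw [hammingNorm_zero]; omega⟩
    exact_mod_cast card_pos.2 ⟨_, this⟩
  have h2n : (0 : ℝ) < 2 ^ n := by positivity
  have h2k : (0 : ℝ) < 2 ^ k := by positivity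
  -- averages
  have a1 : ((∑ G, b1 G : ℕ) : ℝ) = ((badChar n m).card : ℝ) / 2 ^ k * 2 ^ (n * k) := by
    have : 2 ^ k * ∑ G, b1 G = (badChar n m).card * 2 ^ (n * k) := by
      rw [hb1]
      simp only [card_filter]
      rw [sum_comm, Finset.mul_sum, card_eq_sum_ones, Finset.sum_mul]
      refine sum_congr rfl fun ψ hψ => ?_
      rw [← card_filter, one_mul]
      exact tuples_ker ψ ((mem_badChar ψ).1 hψ).1
    have h3 : (2 : ℝ) ^ k * ((∑ G, b1 G : ℕ) : ℝ) = (badChar n m).card * 2 ^ (n * k) := by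
      exact_mod_cast this
    rw [div_mul_eq_mul_div, eq_div_iff h2k.ne', ← h3]
    ring
  have a2 : ((∑ G, b2 G : ℕ) : ℝ) ≤ ((ball n d).card : ℝ) ^ 2 * 2 ^ k / 2 ^ n * 2 ^ (n * k) := by
    have h4 : 2 ^ n * ∑ G, b2 G ≤ (pairs n d).card * (2 ^ k * 2 ^ (n * k)) := by
      rw [hb2]
      simp only [card_filter]
      rw [sum_comm, Finset.mul_sum, card_eq_sum_ones, Finset.sum_mul]
      refine sum_le_sum fun p hp => ?_
      rw [← card_filter, one_mul]
      refine tuples_span _ ?_
      unfold pairs at hp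
      rw [mem_filter] at hp
      exact sub_ne_zero.2 hp.2
    have h5 : (pairs n d).card ≤ (ball n d).card ^ 2 := by
      unfold pairs
      refine (card_filter_le _ _).trans ?_
      rw [card_product, sq]
    have h6 : (2 : ℝ) ^ n * ((∑ G, b2 G : ℕ) : ℝ) ≤
        ((ball n d).card : ℝ) ^ 2 * (2 ^ k * 2 ^ (n * k)) := by
      exact_mod_cast h4.trans (Nat.mul_le_mul_right _ h5)
    rw [div_mul_eq_mul_div, le_div_iff₀ h2n]
    linarith
  have a3 : ((∑ G, b3 G : ℕ) : ℝ) ≤ ((ball n d).card : ℝ) * 2 ^ k / 2 ^ n * 2 ^ (n * k) := by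
    have h4 : 2 ^ n * ∑ G, b3 G ≤ ((ball n d).erase 0).card * (2 ^ k * 2 ^ (n * k)) := by
      rw [hb3]
      simp only [card_filter]
      rw [sum_comm, Finset.mul_sum, card_eq_sum_ones, Finset.sum_mul]
      refine sum_le_sum fun p hp => ?_
      rw [← card_filter, one_mul]
      exact tuples_span _ (mem_erase.1 hp).1
    have h5 : ((ball n d).erase 0).card ≤ (ball n d).card := card_le_card (erase_subset _ _)
    have h6 : (2 : ℝ) ^ n * ((∑ G, b3 G : ℕ) : ℝ) ≤
        ((ball n d).card : ℝ) * (2 ^ k * 2 ^ (n * k)) := by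
      exact_mod_cast h4.trans (Nat.mul_le_mul_right _ h5)
    rw [div_mul_eq_mul_div, le_div_iff₀ h2n]
    linarith
  obtain ⟨X, hX⟩ : ∃ X : ℝ, X = 2 * ((ball n d).card : ℝ) ^ 2 * 2 ^ k / 2 ^ n := ⟨_, rfl⟩
  have hX0 : 0 < X := by rw [hX]; positivity
  have hex : ∃ G : Fin k → Wd n, (b1 G : ℝ) + b3 G + b2 G / X < 1 := by
    by_contra hcon
    push Not at hcon
    have h7 : ∑ _G : Fin k → Wd n, (1 : ℝ) ≤ ∑ G, ((b1 G : ℝ) + b3 G + b2 G / X) :=
      sum_le_sum fun G _ => hcon G
    have h8 : ∑ _G : Fin k → Wd n, (1 : ℝ) = 2 ^ (n * k) := by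
      rw [sum_const, nsmul_eq_mul, mul_one, card_univ, Fintype.card_fun, Fintype.card_fun,
        ZMod.card, Fintype.card_fin, Fintype.card_fin, ← pow_mul]
      push_cast
      rfl
    rw [h8, sum_add_distrib, sum_add_distrib, ← Finset.sum_div] at h7
    have e1 : (∑ G, (b1 G : ℝ)) = ((∑ G, b1 G : ℕ) : ℝ) := by push_cast; rfl
    have e2 : (∑ G, (b2 G : ℝ)) = ((∑ G, b2 G : ℕ) : ℝ) := by push_cast; rfl
    have e3 : (∑ G, (b3 G : ℝ)) = ((∑ G, b3 G : ℕ) : ℝ) := by push_cast; rfl
    rw [e1, e2, e3] at h7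
    have hN : (0 : ℝ) < 2 ^ (n * k) := by positivity
    have f2 : ((∑ G, b2 G : ℕ) : ℝ) / X ≤ 1 / 2 * 2 ^ (n * k) := by
      rw [div_le_iff₀ hX0]
      refine a2.trans (le_of_eq ?_)
      rw [hX]
      ring
    have f1 : ((∑ G, b1 G : ℕ) : ℝ) < 1 / 4 * 2 ^ (n * k) := by
      rw [a1]
      exact mul_lt_mul_of_pos_right h1 hN
    have f3 : ((∑ G, b3 G : ℕ) : ℝ) < 1 / 4 * 2 ^ (n * k) :=
      a3.trans_lt (mul_lt_mul_of_pos_right h2 hN)
    linarith
  obtain ⟨G, hG⟩ := hex
  have g1 : b1 G = 0 := by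
    by_contra h
    have : (1 : ℝ) ≤ b1 G := by exact_mod_cast Nat.one_le_iff_ne_zero.2 h
    have : (0 : ℝ) ≤ b3 G := Nat.cast_nonneg _
    have : (0 : ℝ) ≤ b2 G / X := by positivity
    linarith
  have g3 : b3 G = 0 := by
    by_contra h
    have : (1 : ℝ) ≤ b3 G := by exact_mod_cast Nat.one_le_iff_ne_zero.2 h
    have : (0 : ℝ) ≤ b1 G := Nat.cast_nonneg _
    have : (0 : ℝ) ≤ b2 G / X := by positivity
    linarith
  have g2 : (b2 G : ℝ) ≤ X := by
    have : (0 : ℝ) ≤ b1 G := Nat.cast_nonneg _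
    have : (0 : ℝ) ≤ b3 G := Nat.cast_nonneg _
    have : (b2 G : ℝ) / X ≤ 1 := by linarith
    rwa [div_le_one hX0] at this
  refine ⟨Submodule.span (ZMod 2) (Set.range G), ?_, ?_, ?_, ?_⟩
  · have hs : Function.Surjective (fun u : Fin k → ZMod 2 =>
        (⟨∑ l, u l • G l, Submodule.sum_mem _ fun l _ =>
          Submodule.smul_mem _ _ (Submodule.subset_span ⟨l, rfl⟩)⟩ :
          Submodule.span (ZMod 2) (Set.range G))) := by
      rintro ⟨x, hx⟩
      obtain ⟨c, hc⟩ := (Submodule.mem_span_range_iff_exists_fun (ZMod 2)).1 hx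
      exact ⟨c, Subtype.ext hc⟩
    have := Nat.card_le_card_of_surjective _ hs
    refine this.trans (le_of_eq ?_)
    rw [Nat.card_eq_fintype_card, Fintype.card_fun, ZMod.card, Fintype.card_fin]
  · intro ψ hψ hC
    by_contra hcon
    rw [hb1] at g1
    rw [Finset.card_eq_zero, Finset.filter_eq_empty_iff] at g1
    refine g1 (x := ψ) ((mem_badChar ψ).2 ⟨hψ, ?_⟩) fun l =>
      hC _ (Submodule.subset_span ⟨l, rfl⟩)
    by_contra h
    push Not at h
    exact hcon ⟨h.1, h.2⟩
  · intro b hb hbC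
    by_contra hb0
    rw [hb3] at g3
    rw [Finset.card_eq_zero, Finset.filter_eq_empty_iff] at g3
    exact g3 (mem_erase.2 ⟨hb0, hb⟩) hbC
  · refine ⟨(pairs n d).filter fun p => p.1 - p.2 ∈ Submodule.span (ZMod 2) (Set.range G),
      fun p => by rw [mem_filter], ?_⟩
    rw [← hX]
    rw [hb2] at g2
    exact g2

end

end Run7.h779.LH
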