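import Pool.Agent.Run7.h779.LH.Core6
import Pool.Agent.Run7.h779.LH.Exist

set_option autoImplicit false
set_option linter.unusedSectionVars false

open Finset Module

namespace Run7.h779.LH

noncomputable section

/-- the sign -/
def sgn (z : ZMod 2) : ℝ := if z = 0 then 1 else -1

lemma sgn_zero : sgn 0 = 1 := by unfold sgn; simp

lemma sgn_add (a b : ZMod 2) : sgn (a + b) = sgn a * sgn b := by
  have : ∀ a b : ZMod 2, (a = 0 ∨ a = 1) ∧ (b = 0 ∨ b = 1) := by decide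
  obtain ⟨h1, h2⟩ := this a b
  have h11 : (1 : ZMod 2) + 1 = 0 := by decide
  have h10 : (1 : ZMod 2) ≠ 0 := by decide
  rcases h1 with rfl | rfl <;> rcases h2 with rfl | rfl <;> simp [sgn, h11]

/-- feasible solutions of level `ℓ` of the hierarchy for linear codes -/
structure Feas (ℓ n d : ℕ) (a : (Fin ℓ → Fin n → ZMod 2) → ℝ) : Prop where
  zero : a 0 = 1
  nonneg : ∀ X, 0 ≤ a X
  dist : ∀ X, ∀ v ∈ Submodule.span (ZMod 2) (Set.range X), v ≠ 0 → hammingNorm v < d → a X = 0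
  span : ∀ X X', Submodule.span (ZMod 2) (Set.range X) = Submodule.span (ZMod 2) (Set.range X') →
    a X = a X'
  fourier : ∀ Y : Fin ℓ → Fin n → ZMod 2, 0 ≤ ∑ X, a X * sgn (∑ i, ∑ j, Y i j * X i j)

section general

variable {W E : Type*} [AddCommGroup W] [Module (ZMod 2) W] [Finite W]
  [AddCommGroup E] [Module (ZMod 2) E] [Fintype E] [DecidableEq E]

/-- lifting along a quotient map -/
lemma descent (C : Submodule (ZMod 2) E) [Fintype (E ⧸ C)] [DecidableEq (E ⧸ C)] [Fintype C]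
    [DecidableEq C]
    (s : (E ⧸ C) →ₗ[ZMod 2] E) (hs : C.mkQ.comp s = LinearMap.id)
    (F : (W →ₗ[ZMod 2] (E ⧸ C)) → ℝ) (Ψ : AddChar (W →ₗ[ZMod 2] E) ℂ) :
    ∑ X : W →ₗ[ZMod 2] E, (F (C.mkQ.comp X) : ℂ) * Ψ X =
      (∑ Z : W →ₗ[ZMod 2] C, Ψ (C.subtype.comp Z)) *
        ∑ Y : W →ₗ[ZMod 2] (E ⧸ C), (F Y : ℂ) * Ψ (s.comp Y) := by
  classical
  rw [Finset.sum_mul_sum, ← Finset.sum_product']
  have hq : ∀ Z : W →ₗ[ZMod 2] C, C.mkQ.comp (C.subtype.comp Z) = 0 := by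
    intro Z
    ext w
    rw [LinearMap.comp_apply, LinearMap.comp_apply, Submodule.mkQ_apply]
    exact (Submodule.Quotient.mk_eq_zero C).2 (Z w).2
  have hq2 : ∀ (Z : W →ₗ[ZMod 2] C) (Y : W →ₗ[ZMod 2] (E ⧸ C)),
      C.mkQ.comp (C.subtype.comp Z + s.comp Y) = Y := by
    intro Z Y
    rw [LinearMap.comp_add, hq, zero_add, ← LinearMap.comp_assoc, hs, LinearMap.id_comp]
  symm
  rw [Finset.univ_product_univ]
  refine Fintype.sum_bijective
    (fun p : (W →ₗ[ZMod 2] C) × (W →ₗ[ZMod 2] (E ⧸ C)) => C.subtype.comp p.1 + s.comp p.2)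
    ⟨?_, ?_⟩ _ _ ?_
  · rintro ⟨Z, Y⟩ ⟨Z', Y'⟩ h
    dsimp only at h
    have h1 : Y = Y' := by
      have := congrArg (fun X => C.mkQ.comp X) h
      simpa only [hq2] using this
    subst h1
    have h2 : C.subtype.comp Z = C.subtype.comp Z' := add_right_cancel h
    have h3 : Z = Z' := by
      ext w
      exact congrArg (fun X : W →ₗ[ZMod 2] E => X w) h2
    rw [h3]
  · intro X
    have hm : ∀ w, (X - s.comp (C.mkQ.comp X)) w ∈ C := by
      intro w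
      rw [← Submodule.Quotient.mk_eq_zero C, ← Submodule.mkQ_apply, LinearMap.sub_apply, map_sub]
      have := congrArg (fun f : (E ⧸ C) →ₗ[ZMod 2] (E ⧸ C) => f (C.mkQ (X w))) hs
      simp only [LinearMap.comp_apply, LinearMap.id_apply] at this
      rw [LinearMap.comp_apply, LinearMap.comp_apply, this, sub_self]
    refine ⟨(LinearMap.codRestrict C (X - s.comp (C.mkQ.comp X)) hm, C.mkQ.comp X), ?_⟩
    dsimp only
    rw [LinearMap.subtype_comp_codRestrict]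
    exact sub_add_cancel _ _
  · rintro ⟨Z, Y⟩
    dsimp only
    rw [hq2, AddChar.map_add_eq_mul]
    ring

end general

/-- exponential sums over the image of the ball -/
lemma SS_image {n d : ℕ} (C : Submodule (ZMod 2) (Wd n)) [Fintype (Wd n ⧸ C)]
    [DecidableEq (Wd n ⧸ C)] (D : Finset (Wd n × Wd n))
    (hD : ∀ p, p ∈ D ↔ p ∈ pairs n d ∧ p.1 - p.2 ∈ C) (χ : AddChar (Wd n ⧸ C) ℂ) :
    ‖SS ((ball n d).image C.mkQ) χ‖ ≤ ‖∑ b ∈ ball n d, χ (C.mkQ b)‖ + D.card := by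
  classical
  have hrep : ∀ p ∈ (ball n d).image C.mkQ, ∃ b ∈ ball n d, C.mkQ b = p := by
    intro p hp
    obtain ⟨b, hb, h⟩ := mem_image.1 hp
    exact ⟨b, hb, h⟩
  choose! rep hrep1 hrep2 using hrep
  obtain ⟨R, hR⟩ : ∃ R, R = (ball n d).filter fun b => rep (C.mkQ b) = b := ⟨_, rfl⟩
  have h1 : SS ((ball n d).image C.mkQ) χ = ∑ b ∈ R, χ (C.mkQ b) := by
    unfold SS
    symm
    refine Finset.sum_bij (fun b _ => C.mkQ b) ?_ ?_ ?_ ?_
    · intro b hb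
      rw [hR, mem_filter] at hb
      exact mem_image_of_mem _ hb.1
    · intro b hb b' hb' h
      rw [hR, mem_filter] at hb hb'
      rw [← hb.2, ← hb'.2, h]
    · intro p hp
      refine ⟨rep p, ?_, hrep2 p hp⟩
      rw [hR, mem_filter]
      exact ⟨hrep1 p hp, by rw [hrep2 p hp]⟩
    · intro b _
      rfl
  have h2 : ∑ b ∈ ball n d, χ (C.mkQ b) = ∑ b ∈ R, χ (C.mkQ b) +
      ∑ b ∈ (ball n d).filter (fun b => ¬ rep (C.mkQ b) = b), χ (C.mkQ b) := by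
    rw [hR]
    exact (Finset.sum_filter_add_sum_filter_not _ _ _).symm
  have h3 : ((ball n d).filter (fun b => ¬ rep (C.mkQ b) = b)).card ≤ D.card := by
    refine card_le_card_of_injOn (fun b => (b, rep (C.mkQ b))) ?_ ?_
    · intro b hb
      rw [mem_coe, mem_filter] at hb
      rw [mem_coe, hD]
      have hm : C.mkQ b ∈ (ball n d).image C.mkQ := mem_image_of_mem _ hb.1
      refine ⟨?_, ?_⟩
      · unfold pairs
        rw [mem_filter, mem_product]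
        exact ⟨⟨hb.1, hrep1 _ hm⟩, fun h => hb.2 h.symm⟩
      · rw [← Submodule.Quotient.mk_eq_zero C, ← Submodule.mkQ_apply, map_sub, hrep2 _ hm, sub_self]
    · intro b _ b' _ h
      exact (Prod.mk.inj h).1
  rw [h1]
  have h4 : ∑ b ∈ R, χ (C.mkQ b) = ∑ b ∈ ball n d, χ (C.mkQ b) -
      ∑ b ∈ (ball n d).filter (fun b => ¬ rep (C.mkQ b) = b), χ (C.mkQ b) := by
    rw [h2]; ring
  rw [h4]
  refine (norm_sub_le _ _).trans ?_
  have h5 : ‖∑ b ∈ (ball n d).filter (fun b => ¬ rep (C.mkQ b) = b), χ (C.mkQ b)‖ ≤ D.card := by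
    refine (norm_sum_le _ _).trans ?_
    simp only [AddChar.norm_apply, sum_const, nsmul_eq_mul, mul_one]
    exact_mod_cast h3
  linarith

/-- the linear map of a tuple -/
def toLin {ℓ n : ℕ} : (Fin ℓ → Fin n → ZMod 2) ≃ₗ[ℕ] ((Fin ℓ → ZMod 2) →ₗ[ZMod 2] Wd n) :=
  (Pi.basisFun (ZMod 2) (Fin ℓ)).constr ℕ

lemma toLin_single {ℓ n : ℕ} (X : Fin ℓ → Fin n → ZMod 2) (i : Fin ℓ) :
    toLin X (Pi.single i 1) = X i := by
  unfold toLin
  have h := Basis.constr_basis (Pi.basisFun (ZMod 2) (Fin ℓ)) ℕ X i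
  rw [Pi.basisFun_apply] at h
  exact h

lemma range_toLin {ℓ n : ℕ} (X : Fin ℓ → Fin n → ZMod 2) :
    LinearMap.range (toLin X) = Submodule.span (ZMod 2) (Set.range X) :=
  Basis.constr_range (Pi.basisFun (ZMod 2) (Fin ℓ)) ℕ

/-- the character given by a tuple -/
def tupChar {ℓ n : ℕ} (Y : Fin ℓ → Fin n → ZMod 2) :
    AddChar ((Fin ℓ → ZMod 2) →ₗ[ZMod 2] Wd n) ℂ where
  toFun X := ((sgn (∑ i, ∑ j, Y i j * X (Pi.single i 1) j) : ℝ) : ℂ)
  map_zero_eq_one' := by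
    simp [sgn_zero]
  map_add_eq_mul' X X' := by
    rw [← Complex.ofReal_mul, ← sgn_add, ← sum_add_distrib]
    congr 2
    refine sum_congr rfl fun i _ => ?_
    rw [← sum_add_distrib]
    refine sum_congr rfl fun j _ => ?_
    rw [LinearMap.add_apply, Pi.add_apply, mul_add]

lemma sum_toLin {ℓ n : ℕ} (F : ((Fin ℓ → ZMod 2) →ₗ[ZMod 2] Wd n) → ℝ)
    (Y : Fin ℓ → Fin n → ZMod 2) :
    ∑ X, F (toLin X) * sgn (∑ i, ∑ j, Y i j * X i j) =
      (∑ X : (Fin ℓ → ZMod 2) →ₗ[ZMod 2] Wd n, (F X : ℂ) * tupChar Y X).re := by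
  rw [Complex.re_sum]
  refine Fintype.sum_equiv toLin.toEquiv _ _ fun X => ?_
  change _ = ((F (toLin X) : ℂ) * ((sgn (∑ i, ∑ j, Y i j * (toLin X) (Pi.single i 1) j) : ℝ) : ℂ)).re
  rw [← Complex.ofReal_mul, Complex.ofReal_re]
  simp only [toLin_single]

lemma finrankW (ℓ : ℕ) : finrank (ZMod 2) (Fin ℓ → ZMod 2) = ℓ := by
  rw [Module.finrank_fin_fun]

lemma cardW (ℓ : ℕ) : (Nat.card (Fin ℓ → ZMod 2) : ℝ) = 2 ^ ℓ := by
  rw [Nat.card_eq_fintype_card, Fintype.card_fun, ZMod.card, Fintype.card_fin]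
  push_cast
  rfl

/-- the feasible solution -/
theorem build {ℓ n d : ℕ} (hd : 1 ≤ d) (C : Submodule (ZMod 2) (Wd n))
    (hC : ∀ b ∈ ball n d, b ∈ C → b = 0)
    (D : Finset (Wd n × Wd n)) (hD : ∀ p, p ∈ D ↔ p ∈ pairs n d ∧ p.1 - p.2 ∈ C)
    {Vr M ρ Fb Qc : ℝ} (hV : ((ball n d).card : ℝ) ≤ Vr)
    (hF : ∀ ψ : AddChar (Wd n) ℂ, ψ ≠ 0 → (∀ x ∈ C, ψ x = 1) → ‖∑ b ∈ ball n d, ψ b‖ ≤ Fb)
    (hM : Fb + D.card ≤ M) (hM0 : 0 ≤ M)
    (hρ : 0 < ρ) (hρM : ρ * M ≤ 1) (hρV : 1 ≤ ρ * Vr)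
    (hQc : Qc * Nat.card C ≤ 2 ^ n) (hQc0 : 0 < Qc)
    (hVQ : 2 * 2 ^ ℓ * Vr ≤ Qc)
    (hE : ((2 : ℝ) ^ ℓ) ^ ℓ * (1 + 2 ^ ℓ) ^ ℓ *
      (ρ * M + 2 ^ ℓ * ((ρ * Vr) ^ ℓ * (Vr / Qc + M / Vr))) ≤ 1 / 2) :
    ∃ a, Feas ℓ n d a ∧ (ρ * 2 ^ n) ^ ℓ / 2 ≤ ∑ X, a X := by
  classical
  have : Fintype (Wd n ⧸ C) := Fintype.ofFinite _
  have : Fintype C := Fintype.ofFinite _
  obtain ⟨P, hP⟩ : ∃ P : Finset (Wd n ⧸ C), P = (ball n d).image C.mkQ := ⟨_, rfl⟩
  have hP0 : (0 : Wd n ⧸ C) ∈ P := by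
    rw [hP, mem_image]
    refine ⟨0, ?_, map_zero _⟩
    unfold ball
    rw [mem_filter]
    exact ⟨mem_univ _, by rw [hammingNorm_zero]; omega⟩
  have hVr : 0 < Vr := by
    by_contra h
    have : ρ * Vr ≤ 0 := mul_nonpos_of_nonneg_of_nonpos hρ.le (not_lt.1 h)
    linarith
  have hPV : (P.card : ℝ) ≤ Vr := by
    refine le_trans ?_ hV
    rw [hP]
    exact_mod_cast card_image_le
  have hMP : ∀ χ : AddChar (Wd n ⧸ C) ℂ, χ ≠ 0 → ‖SS P χ‖ ≤ M := by
    intro χ hχ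
    rw [hP]
    refine (SS_image C D hD χ).trans ?_
    let ψ : AddChar (Wd n) ℂ := χ.compAddMonoidHom C.mkQ.toAddMonoidHom
    have hψ1 : ∀ x, ψ x = χ (C.mkQ x) := fun x => rfl
    have hψ0 : ψ ≠ 0 := by
      intro h
      apply hχ
      rw [AddChar.eq_zero_iff]
      intro q
      obtain ⟨x, rfl⟩ := Submodule.mkQ_surjective C q
      rw [← hψ1, h]
      rfl
    have hψC : ∀ x ∈ C, ψ x = 1 := by
      intro x hx
      rw [hψ1, Submodule.mkQ_apply, (Submodule.Quotient.mk_eq_zero C).2 hx,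
        AddChar.map_zero_eq_one]
    have := hF ψ hψ0 hψC
    simp only [hψ1] at this
    linarith
  have hcardEq : (Fintype.card (Wd n ⧸ C) : ℝ) * Nat.card C = 2 ^ n := by
    have h1 := Submodule.card_eq_card_quotient_mul_card C
    have h2 : Nat.card (Wd n) = 2 ^ n := by
      rw [Nat.card_eq_fintype_card, Fintype.card_fun, ZMod.card, Fintype.card_fin]
    rw [h2] at h1
    rw [← Nat.card_eq_fintype_card]
    have h3 : ((2 ^ n : ℕ) : ℝ) = ((Nat.card C * Nat.card (Wd n ⧸ C) : ℕ) : ℝ) := by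
      rw [h1]
      try rw [mul_comm]
    push_cast at h3
    linarith
  have hCpos : (0 : ℝ) < Nat.card C := by
    exact_mod_cast Nat.card_pos
  have hQQ : Qc ≤ Fintype.card (Wd n ⧸ C) := by
    rw [← hcardEq] at hQc
    exact le_of_mul_le_mul_right hQc hCpos
  have hVQ' : 2 * Nat.card (Fin ℓ → ZMod 2) * Vr ≤ Fintype.card (Wd n ⧸ C) := by
    rw [cardW]
    exact hVQ.trans hQQ
  have hE' : (Nat.card (Fin ℓ → ZMod 2) : ℝ) ^ finrank (ZMod 2) (Fin ℓ → ZMod 2) *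
      (1 + Nat.card (Fin ℓ → ZMod 2)) ^ finrank (ZMod 2) (Fin ℓ → ZMod 2) *
      E0 (Fin ℓ → ZMod 2) (Wd n ⧸ C) Vr M ρ ≤ 1 / 2 := by
    unfold E0
    rw [finrankW, cardW]
    refine le_trans ?_ hE
    gcongr
  have hpos := pos_main (W := Fin ℓ → ZMod 2) P hP0 hPV hM0 hMP hρ hρM hρV hVQ' hE'
  have hmass := mass_main (W := Fin ℓ → ZMod 2) P hPV hρ hVQ' hP0
  obtain ⟨s, hs⟩ := C.mkQ.exists_rightInverse_of_surjective
    (LinearMap.range_eq_top.2 (Submodule.mkQ_surjective C))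
  refine ⟨fun X => ff P ρ (C.mkQ.comp (toLin X)), ?_, ?_⟩
  · refine ⟨?_, ?_, ?_, ?_, ?_⟩
    · -- zero
      rw [map_zero, LinearMap.comp_zero]
      unfold ff
      have h0 : ∀ w, (0 : (Fin ℓ → ZMod 2) →ₗ[ZMod 2] (Wd n ⧸ C)) w ∈ P →
        (0 : (Fin ℓ → ZMod 2) →ₗ[ZMod 2] (Wd n ⧸ C)) w = 0 := fun w _ => rfl
      rw [if_pos h0, LinearMap.range_zero, finrank_bot, pow_zero]
    · intro X
      unfold ff
      split_ifs
      · positivity
      · exact le_rfl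
    · intro X v hv hv0 hvd
      unfold ff
      rw [if_neg]
      intro h
      rw [← range_toLin] at hv
      obtain ⟨w, hw⟩ := hv
      have hvb : v ∈ ball n d := by
        unfold ball
        rw [mem_filter]
        exact ⟨mem_univ _, hvd⟩
      have h1 : (C.mkQ.comp (toLin X)) w ∈ P := by
        rw [LinearMap.comp_apply, hw, hP]
        exact mem_image_of_mem _ hvb
      have h2 := h w h1
      rw [LinearMap.comp_apply, hw, Submodule.mkQ_apply, Submodule.Quotient.mk_eq_zero] at h2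
      exact hv0 (hC v hvb h2)
    · intro X X' h
      rw [← range_toLin, ← range_toLin] at h
      unfold ff
      have h1 : (∀ w, (C.mkQ.comp (toLin X)) w ∈ P → (C.mkQ.comp (toLin X)) w = 0) ↔
          (∀ w, (C.mkQ.comp (toLin X')) w ∈ P → (C.mkQ.comp (toLin X')) w = 0) := by
        have h2 : ∀ Z : Fin ℓ → Fin n → ZMod 2,
            (∀ w, (C.mkQ.comp (toLin Z)) w ∈ P → (C.mkQ.comp (toLin Z)) w = 0) ↔
            ∀ v ∈ LinearMap.range (toLin Z), C.mkQ v ∈ P → C.mkQ v = 0 := by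
          intro Z
          constructor
          · rintro h v ⟨w, rfl⟩ hv
            exact h w hv
          · intro h w hw
            exact h _ ⟨w, rfl⟩ hw
        rw [h2, h2, h]
      have h3 : finrank (ZMod 2) (LinearMap.range (C.mkQ.comp (toLin X))) =
          finrank (ZMod 2) (LinearMap.range (C.mkQ.comp (toLin X'))) := by
        rw [LinearMap.range_comp, LinearMap.range_comp, h]
      by_cases h4 : ∀ w, (C.mkQ.comp (toLin X)) w ∈ P → (C.mkQ.comp (toLin X)) w = 0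
      · rw [if_pos h4, if_pos (h1.1 h4), h3]
      · rw [if_neg h4, if_neg (fun h5 => h4 (h1.2 h5))]
    · intro Y
      rw [sum_toLin (fun X => ff P ρ (C.mkQ.comp X)) Y, descent C s hs (fun X => ff P ρ X)]
      obtain ⟨c, hc0, hc⟩ : ∃ c : ℝ, 0 ≤ c ∧
          ∑ Z : (Fin ℓ → ZMod 2) →ₗ[ZMod 2] C, tupChar Y (C.subtype.comp Z) = (c : ℂ) := by
        let φ : AddChar ((Fin ℓ → ZMod 2) →ₗ[ZMod 2] C) ℂ :=
          { toFun := fun Z => tupChar Y (C.subtype.comp Z)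
            map_zero_eq_one' := by
              rw [LinearMap.comp_zero]; exact AddChar.map_zero_eq_one _
            map_add_eq_mul' := fun x y => by
              rw [LinearMap.comp_add, AddChar.map_add_eq_mul] }
        have h1 := AddChar.sum_eq_ite φ
        change ∑ Z, φ Z = _ at h1
        refine ⟨if φ = 0 then (Fintype.card ((Fin ℓ → ZMod 2) →ₗ[ZMod 2] C) : ℝ) else 0, ?_, ?_⟩
        · split_ifs
          · exact Nat.cast_nonneg _
          · exact le_rfl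
        · change ∑ Z, φ Z = _
          rw [h1]
          split_ifs <;> simp
      let Ψ : AddChar ((Fin ℓ → ZMod 2) →ₗ[ZMod 2] (Wd n ⧸ C)) ℂ :=
        { toFun := fun Z => tupChar Y (s.comp Z)
          map_zero_eq_one' := by
            rw [LinearMap.comp_zero]; exact AddChar.map_zero_eq_one _
          map_add_eq_mul' := fun x y => by
            rw [LinearMap.comp_add, AddChar.map_add_eq_mul] }
      rw [hc, Complex.re_ofReal_mul]
      exact mul_nonneg hc0 (hpos Ψ)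
  · have h1 : ∑ X : Fin ℓ → Fin n → ZMod 2, ff P ρ (C.mkQ.comp (toLin X)) =
        ∑ X : (Fin ℓ → ZMod 2) →ₗ[ZMod 2] Wd n, ff P ρ (C.mkQ.comp X) :=
      Fintype.sum_equiv toLin.toEquiv _ _ fun X => rfl
    have h2 := descent C s hs (fun X => ff P ρ X) (0 : AddChar ((Fin ℓ → ZMod 2) →ₗ[ZMod 2] Wd n) ℂ)
    simp only [AddChar.zero_apply, mul_one, sum_const, card_univ, nsmul_eq_mul] at h2
    have h3 : ∑ X : (Fin ℓ → ZMod 2) →ₗ[ZMod 2] Wd n, ff P ρ (C.mkQ.comp X) =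
        (Fintype.card ((Fin ℓ → ZMod 2) →ₗ[ZMod 2] C) : ℝ) *
          ∑ Y : (Fin ℓ → ZMod 2) →ₗ[ZMod 2] (Wd n ⧸ C), ff P ρ Y := by
      apply Complex.ofReal_injective
      push_cast
      exact h2
    rw [h1, h3, card_hom, finrankW]
    rw [finrankW] at hmass
    calc (ρ * 2 ^ n) ^ ℓ / 2
        = (Fintype.card C : ℝ) ^ ℓ * ((ρ * Fintype.card (Wd n ⧸ C)) ^ ℓ / 2) := by
          rw [← hcardEq, Nat.card_eq_fintype_card, mul_pow, mul_pow, mul_pow]
          ring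
      _ ≤ _ := by gcongr

end

end Run7.h779.LH
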