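import Mathlib

set_option autoImplicit false
set_option linter.unusedSectionVars false

open Finset Module

namespace Run7.h779.LH

noncomputable section

variable {V Q : Type*} [AddCommGroup V] [Module (ZMod 2) V]
  [AddCommGroup Q] [Module (ZMod 2) Q] [Fintype Q] [DecidableEq Q]

instance homFin [Finite V] : Fintype (V →ₗ[ZMod 2] Q) :=
  haveI : Finite (V →ₗ[ZMod 2] Q) := DFunLike.finite _
  Fintype.ofFinite _

/-- indicator -/
def ind (P : Finset Q) (q : Q) : ℝ := if q ∈ P then 1 else 0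

lemma ind_nonneg (P : Finset Q) (q : Q) : 0 ≤ ind P q := by
  unfold ind; split_ifs <;> norm_num

lemma ind_le_one (P : Finset Q) (q : Q) : ind P q ≤ 1 := by
  unfold ind; split_ifs <;> norm_num

lemma char_sum {A ι : Type*} [AddCommGroup A] (Ψ : AddChar A ℂ) (s : Finset ι) (f : ι → A) :
    Ψ (∑ i ∈ s, f i) = ∏ i ∈ s, Ψ (f i) := by
  classical
  induction s using Finset.induction_on with
  | empty => simp
  | insert a s ha ih => rw [sum_insert ha, prod_insert ha, AddChar.map_add_eq_mul, ih]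

/-- the character of `Q` obtained by restricting to one coordinate -/
def coordChar {ι : Type*} [DecidableEq ι] [Finite V] (B : Basis ι (ZMod 2) V)
    (Ψ : AddChar (V →ₗ[ZMod 2] Q) ℂ) (i : ι) : AddChar Q ℂ where
  toFun q := Ψ (B.constr ℕ (Pi.single i q))
  map_zero_eq_one' := by simp
  map_add_eq_mul' x y := by
    rw [Pi.single_add, map_add, AddChar.map_add_eq_mul]

lemma coordChar_apply {ι : Type*} [DecidableEq ι] [Finite V] (B : Basis ι (ZMod 2) V)
    (Ψ : AddChar (V →ₗ[ZMod 2] Q) ℂ) (i : ι) (q : Q) :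
    coordChar B Ψ i q = Ψ (B.constr ℕ (Pi.single i q)) := rfl

lemma prod_sum {ι : Type*} [DecidableEq ι] [Fintype ι] [Finite V] (B : Basis ι (ZMod 2) V)
    (g : ι → Q → ℂ) (Ψ : AddChar (V →ₗ[ZMod 2] Q) ℂ) :
    ∑ X : V →ₗ[ZMod 2] Q, (∏ i, g i (X (B i))) * Ψ X =
      ∏ i, ∑ q, g i q * coordChar B Ψ i q := by
  classical
  rw [Finset.prod_univ_sum, Fintype.piFinset_univ]
  symm
  apply Fintype.sum_equiv (B.constr ℕ).toEquiv
  intro x
  rw [prod_mul_distrib]
  congr 1
  · refine prod_congr rfl fun i _ => ?_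
    change _ = g i (B.constr ℕ x (B i))
    rw [Basis.constr_basis]
  · simp only [coordChar_apply]
    rw [← char_sum, ← map_sum]
    have h := Finset.univ_sum_single x
    exact congrArg (fun z => Ψ (B.constr ℕ z)) h

lemma exists_basis [Finite V] {t : ℕ} {b : Fin t → V} (hb : LinearIndependent (ZMod 2) b) :
    ∃ (κ : Type) (_ : Fintype κ) (B : Basis (Fin t ⊕ κ) (ZMod 2) V),
      ∀ i, B (Sum.inl i) = b i := by
  classical
  let e : (Basis.sumExtendIndex hb) ≃ Fin (Nat.card (Basis.sumExtendIndex hb)) :=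
    Finite.equivFin _
  refine ⟨Fin (Nat.card (Basis.sumExtendIndex hb)), inferInstance,
    (Basis.sumExtend hb).reindex (Equiv.sumCongr (Equiv.refl _) e), fun i => ?_⟩
  rw [Basis.reindex_apply]
  have h1 : (Equiv.sumCongr (Equiv.refl (Fin t)) e).symm (Sum.inl i) = Sum.inl i := rfl
  rw [h1]
  unfold Basis.sumExtend
  rw [Basis.reindex_apply]
  exact (Basis.extend_apply_self _ _).trans rfl

end

end Run7.h779.LH
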