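import Pool.Agent.Run7.h779.LH.Core

set_option autoImplicit false
set_option linter.unusedSectionVars false

open Finset Module

namespace Run7.h779.LH

noncomputable section

variable {V Q : Type*} [AddCommGroup V] [Module (ZMod 2) V]
  [AddCommGroup Q] [Module (ZMod 2) Q] [Fintype Q] [DecidableEq Q]

/-- exponential sum over `P` -/
def SS (P : Finset Q) (χ : AddChar Q ℂ) : ℂ := ∑ p ∈ P, χ p

lemma ind_cast (P : Finset Q) (q : Q) : (ind P q : ℂ) = if q ∈ P then 1 else 0 := by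
  unfold ind
  split_ifs <;> simp

lemma ind_sum (P : Finset Q) (χ : AddChar Q ℂ) : ∑ q, (ind P q : ℂ) * χ q = SS P χ := by
  unfold SS
  simp only [ind_cast, ite_mul, one_mul, zero_mul]
  rw [Finset.sum_ite_mem, Finset.univ_inter]

lemma SS_zero (P : Finset Q) : SS P 0 = P.card := by
  unfold SS
  simp

lemma norm_SS_le (P : Finset Q) (χ : AddChar Q ℂ) : ‖SS P χ‖ ≤ P.card := by
  unfold SS
  refine (norm_sum_le _ _).trans ?_
  simp [AddChar.norm_apply]

lemma sum_char_sub (x : Q) : ∑ χ : AddChar Q ℂ, χ x = if x = 0 then (Fintype.card Q : ℂ) else 0 :=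
  AddChar.sum_apply_eq_ite x

lemma parseval (P : Finset Q) : ∑ χ : AddChar Q ℂ, ‖SS P χ‖ ^ 2 = Fintype.card Q * P.card := by
  have h : ∀ χ : AddChar Q ℂ, ((‖SS P χ‖ ^ 2 : ℝ) : ℂ) = ∑ p ∈ P, ∑ p' ∈ P, χ (p - p') := by
    intro χ
    rw [← Complex.normSq_eq_norm_sq, ← Complex.mul_conj]
    unfold SS
    rw [map_sum, Finset.sum_mul_sum]
    refine sum_congr rfl fun p _ => sum_congr rfl fun p' _ => ?_
    rw [sub_eq_add_neg, AddChar.map_add_eq_mul, AddChar.map_neg_eq_conj]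
  have h2 : ((∑ χ : AddChar Q ℂ, ‖SS P χ‖ ^ 2 : ℝ) : ℂ) = Fintype.card Q * P.card := by
    rw [Complex.ofReal_sum]
    simp_rw [h]
    rw [sum_comm]
    simp_rw [sum_comm (s := (univ : Finset (AddChar Q ℂ))), sum_char_sub, sub_eq_zero]
    simp [mul_comm]
  exact_mod_cast h2

lemma ind_fourier (P : Finset Q) (x : Q) :
    (ind P x : ℂ) = (Fintype.card Q : ℂ)⁻¹ * ∑ χ : AddChar Q ℂ, SS P χ * χ (-x) := by
  have hc : (Fintype.card Q : ℂ) ≠ 0 := by
    have : Fintype.card Q ≠ 0 := Fintype.card_ne_zero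
    exact_mod_cast this
  rw [eq_inv_mul_iff_mul_eq₀ hc]
  unfold SS
  simp_rw [Finset.sum_mul, ← AddChar.map_add_eq_mul]
  rw [sum_comm]
  simp_rw [sum_char_sub, ← sub_eq_add_neg, sub_eq_zero]
  rw [Finset.sum_ite_eq' P x]
  unfold ind
  split_ifs <;> simp

lemma norm_SS_neg (P : Finset Q) (χ : AddChar Q ℂ) : ‖∑ p ∈ P, χ (-p)‖ = ‖SS P χ‖ := by
  have : ∑ p ∈ P, χ (-p) = (starRingEnd ℂ) (SS P χ) := by
    unfold SS
    rw [map_sum]
    exact sum_congr rfl fun p _ => AddChar.map_neg_eq_conj _ _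
  rw [this, RCLike.norm_conj]

variable [Finite V]

lemma sum_ind_mul {t : ℕ} {κ : Type} [DecidableEq κ] [Fintype κ] {b : Fin t → V}
    (B : Basis (Fin t ⊕ κ) (ZMod 2) V)
    (hB : ∀ i, B (Sum.inl i) = b i) (P : Finset Q) (Ψ : AddChar (V →ₗ[ZMod 2] Q) ℂ) :
    ∑ X : V →ₗ[ZMod 2] Q, ((∏ i, ind P (X (b i)) : ℝ) : ℂ) * Ψ X =
      (∏ i, SS P (coordChar B Ψ (Sum.inl i))) * ∏ k, ∑ q, coordChar B Ψ (Sum.inr k) q := by
  have h := prod_sum B (fun i q => Sum.elim (fun _ => (ind P q : ℂ)) (fun _ => (1 : ℂ)) i) Ψ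
  rw [Fintype.prod_sum_type] at h
  simp only [Sum.elim_inl, Sum.elim_inr, one_mul, ind_sum] at h
  rw [← h]
  refine sum_congr rfl fun X _ => ?_
  congr 1
  rw [Fintype.prod_sum_type]
  simp [hB]

/-- a dependent constraint -/
lemma bad_sum {t : ℕ} {κ : Type} [DecidableEq κ] [Fintype κ] {b : Fin t → V}
    (B : Basis (Fin t ⊕ κ) (ZMod 2) V)
    (hB : ∀ i, B (Sum.inl i) = b i) (P : Finset Q) {Vr M : ℝ} (hV : (P.card : ℝ) ≤ Vr)
    (hM0 : 0 ≤ M) (hM : ∀ χ : AddChar Q ℂ, χ ≠ 0 → ‖SS P χ‖ ≤ M)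
    {w : V} (hw : w ∈ Submodule.span (ZMod 2) (Set.range b)) (hw0 : w ≠ 0)
    (hwb : ∀ i, w ≠ b i) :
    ∑ X : V →ₗ[ZMod 2] Q, (∏ i, ind P (X (b i))) * ind P (X w) ≤
      (Fintype.card Q : ℝ) ^ Fintype.card κ *
        (Vr ^ (t + 1) / Fintype.card Q + M * Vr ^ (t - 1)) := by
  classical
  obtain ⟨c, hc⟩ := (Submodule.mem_span_range_iff_exists_fun (ZMod 2)).1 hw
  obtain ⟨I, hI⟩ : ∃ I : Finset (Fin t), I = univ.filter fun i => c i ≠ 0 := ⟨_, rfl⟩
  have hc1 : ∀ i ∈ I, c i = 1 := by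
    intro i hi
    rw [hI, mem_filter] at hi
    have : ∀ z : ZMod 2, z ≠ 0 → z = 1 := by decide
    exact this _ hi.2
  have hc0 : ∀ i, i ∉ I → c i = 0 := by
    intro i hi
    rw [hI, mem_filter] at hi
    by_contra h
    exact hi ⟨mem_univ _, h⟩
  have hwI : w = ∑ i ∈ I, b i := by
    rw [← hc, ← Finset.sum_subset (subset_univ I) (fun i _ hi => by rw [hc0 i hi, zero_smul])]
    exact sum_congr rfl fun i hi => by rw [hc1 i hi, one_smul]
  have hI2 : 2 ≤ I.card := by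
    by_contra hlt
    have h01 : I.card = 0 ∨ I.card = 1 := by omega
    rcases h01 with h | h
    · rw [Finset.card_eq_zero] at h
      rw [h, sum_empty] at hwI
      exact hw0 hwI
    · obtain ⟨i, hi⟩ := Finset.card_eq_one.1 h
      rw [hi, sum_singleton] at hwI
      exact hwb i hwI
  have ht : I.card ≤ t := by
    have := Finset.card_le_univ I
    simpa using this
  have hQ : (0 : ℝ) < Fintype.card Q := by exact_mod_cast Fintype.card_pos
  -- the Fourier expansion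
  have key : ((∑ X : V →ₗ[ZMod 2] Q, (∏ i, ind P (X (b i))) * ind P (X w) : ℝ) : ℂ) =
      (Fintype.card Q : ℂ)⁻¹ * ∑ χ : AddChar Q ℂ, SS P χ *
        ((∏ i : Fin t, if i ∈ I then ∑ p ∈ P, χ (-p) else (P.card : ℂ)) *
          (Fintype.card Q : ℂ) ^ Fintype.card κ) := by
    rw [Complex.ofReal_sum]
    have h1 : ∀ X : V →ₗ[ZMod 2] Q, (((∏ i, ind P (X (b i))) * ind P (X w) : ℝ) : ℂ) =
        (Fintype.card Q : ℂ)⁻¹ * ∑ χ : AddChar Q ℂ, SS P χ *
          ((∏ i, (ind P (X (b i)) : ℂ) * (if i ∈ I then χ (-(X (b i))) else 1))) := by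
      intro X
      rw [Complex.ofReal_mul, ind_fourier P (X w), mul_left_comm, Finset.mul_sum]
      congr 1
      refine sum_congr rfl fun χ _ => ?_
      rw [mul_left_comm]
      congr 1
      rw [prod_mul_distrib, Complex.ofReal_prod]
      congr 1
      rw [hwI, map_sum, ← Finset.sum_neg_distrib, char_sum, Finset.prod_ite_mem, univ_inter]
    simp_rw [h1]
    rw [← Finset.mul_sum, sum_comm]
    congr 1
    refine sum_congr rfl fun χ _ => ?_
    rw [← Finset.mul_sum]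
    congr 1
    have h2 := prod_sum B (fun i q => Sum.elim
      (fun j => (ind P q : ℂ) * (if j ∈ I then χ (-q) else 1)) (fun _ => (1 : ℂ)) i) 0
    rw [Fintype.prod_sum_type] at h2
    simp only [AddChar.zero_apply, mul_one, Sum.elim_inl, Sum.elim_inr] at h2
    have h3 : ∀ X : V →ₗ[ZMod 2] Q, (∏ i, Sum.elim (fun j => (ind P (X (B i)) : ℂ) *
        (if j ∈ I then χ (-(X (B i))) else 1)) (fun _ => (1 : ℂ)) i) =
        ∏ i, (ind P (X (b i)) : ℂ) * (if i ∈ I then χ (-(X (b i))) else 1) := by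
      intro X
      rw [Fintype.prod_sum_type]
      simp [hB]
    simp_rw [h3] at h2
    rw [h2]
    have h4 : ∀ (B : Basis (Fin t ⊕ κ) (ZMod 2) V) (i : Fin t ⊕ κ) (q : Q),
      coordChar B (0 : AddChar (V →ₗ[ZMod 2] Q) ℂ) i q = 1 := fun _ _ _ => rfl
    simp only [h4, mul_one]
    congr 1
    · refine prod_congr rfl fun i _ => ?_
      by_cases hi : i ∈ I
      · simp only [hi, if_true, ind_cast, ite_mul, one_mul, zero_mul]
        rw [Finset.sum_ite_mem, Finset.univ_inter]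
      · simp only [hi, if_false, mul_one, ind_cast]
        simp
    · simp
  -- estimates
  have hnn : 0 ≤ ∑ X : V →ₗ[ZMod 2] Q, (∏ i, ind P (X (b i))) * ind P (X w) :=
    Finset.sum_nonneg fun X _ => mul_nonneg (prod_nonneg fun i _ => ind_nonneg _ _)
      (ind_nonneg _ _)
  have hV0 : 0 ≤ Vr := le_trans (Nat.cast_nonneg _) hV
  have e1 : ∑ X : V →ₗ[ZMod 2] Q, (∏ i, ind P (X (b i))) * ind P (X w) ≤
      (Fintype.card Q : ℝ)⁻¹ * ∑ χ : AddChar Q ℂ, ‖SS P χ‖ *
        (‖SS P χ‖ ^ I.card * (P.card : ℝ) ^ (t - I.card) *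
          (Fintype.card Q : ℝ) ^ Fintype.card κ) := by
    have h5 : ∑ X : V →ₗ[ZMod 2] Q, (∏ i, ind P (X (b i))) * ind P (X w) =
        ‖((∑ X : V →ₗ[ZMod 2] Q, (∏ i, ind P (X (b i))) * ind P (X w) : ℝ) : ℂ)‖ := by
      rw [Complex.norm_real, Real.norm_of_nonneg hnn]
    rw [h5, key, norm_mul, norm_inv, Complex.norm_natCast]
    refine mul_le_mul_of_nonneg_left ?_ (by positivity)
    refine (norm_sum_le _ _).trans (le_of_eq ?_)
    refine sum_congr rfl fun χ _ => ?_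
    rw [norm_mul, norm_mul, norm_prod, norm_pow, Complex.norm_natCast]
    congr 2
    have h6 : ∀ i : Fin t, ‖(if i ∈ I then ∑ p ∈ P, χ (-p) else (P.card : ℂ))‖ =
        if i ∈ I then ‖SS P χ‖ else (P.card : ℝ) := by
      intro i
      split_ifs
      · rw [norm_SS_neg]
      · rw [Complex.norm_natCast]
    simp_rw [h6]
    rw [Finset.prod_ite, prod_const, prod_const]
    congr 2
    · congr 1
      ext i
      simp
    · have : (univ.filter fun i => i ∉ I) = Iᶜ := by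
        ext i
        simp
      rw [this, card_compl, Fintype.card_fin]
  refine e1.trans ?_
  have e2 : ∑ χ : AddChar Q ℂ, ‖SS P χ‖ * (‖SS P χ‖ ^ I.card * (P.card : ℝ) ^ (t - I.card) *
      (Fintype.card Q : ℝ) ^ Fintype.card κ) ≤
      (Vr ^ (t + 1) + M * Vr ^ (t - 1) * Fintype.card Q) *
        (Fintype.card Q : ℝ) ^ Fintype.card κ := by
    have h7 : ∀ χ : AddChar Q ℂ, ‖SS P χ‖ * (‖SS P χ‖ ^ I.card * (P.card : ℝ) ^ (t - I.card) *
        (Fintype.card Q : ℝ) ^ Fintype.card κ) ≤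
        ((if χ = 0 then Vr ^ (t + 1) else 0) + M * Vr ^ (t - 2) * ‖SS P χ‖ ^ 2) *
          (Fintype.card Q : ℝ) ^ Fintype.card κ := by
      intro χ
      rw [← mul_assoc]
      refine mul_le_mul_of_nonneg_right ?_ (by positivity)
      have hs : ‖SS P χ‖ ≤ Vr := (norm_SS_le P χ).trans hV
      have hs0 : 0 ≤ ‖SS P χ‖ := norm_nonneg _
      split_ifs with hχ
      · have : ‖SS P χ‖ * (‖SS P χ‖ ^ I.card * (P.card : ℝ) ^ (t - I.card)) ≤ Vr ^ (t + 1) := by
          calc ‖SS P χ‖ * (‖SS P χ‖ ^ I.card * (P.card : ℝ) ^ (t - I.card))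
              ≤ Vr * (Vr ^ I.card * Vr ^ (t - I.card)) := by gcongr
            _ = Vr ^ (t + 1) := by
              rw [← pow_add, Nat.add_sub_cancel' ht, ← pow_succ']
        have : 0 ≤ M * Vr ^ (t - 2) * ‖SS P χ‖ ^ 2 := by positivity
        linarith
      · rw [zero_add]
        have hMχ := hM χ hχ
        obtain ⟨j, hj⟩ : ∃ j, I.card = j + 2 := ⟨I.card - 2, by omega⟩
        rw [hj]
        calc ‖SS P χ‖ * (‖SS P χ‖ ^ (j + 2) * (P.card : ℝ) ^ (t - (j + 2)))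
            = ‖SS P χ‖ * (‖SS P χ‖ ^ j * (P.card : ℝ) ^ (t - (j + 2))) * ‖SS P χ‖ ^ 2 := by
              rw [pow_add]; ring
          _ ≤ M * (Vr ^ j * Vr ^ (t - (j + 2))) * ‖SS P χ‖ ^ 2 := by gcongr
          _ = M * Vr ^ (t - 2) * ‖SS P χ‖ ^ 2 := by
              rw [← pow_add]
              congr 3
              omega
    refine (sum_le_sum fun χ _ => h7 χ).trans ?_
    rw [← Finset.sum_mul]
    refine mul_le_mul_of_nonneg_right ?_ (by positivity)
    rw [sum_add_distrib, ← Finset.mul_sum, parseval, Finset.sum_ite_eq' univ (0 : AddChar Q ℂ)]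
    simp only [mem_univ, if_true]
    have : M * Vr ^ (t - 2) * (Fintype.card Q * P.card) ≤ M * Vr ^ (t - 1) * Fintype.card Q := by
      calc M * Vr ^ (t - 2) * (Fintype.card Q * P.card)
          ≤ M * Vr ^ (t - 2) * (Fintype.card Q * Vr) := by gcongr
        _ = M * Vr ^ (t - 1) * Fintype.card Q := by
          have : t - 1 = (t - 2) + 1 := by omega
          rw [this, pow_succ]
          ring
    linarith
  calc (Fintype.card Q : ℝ)⁻¹ * ∑ χ : AddChar Q ℂ, ‖SS P χ‖ *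
        (‖SS P χ‖ ^ I.card * (P.card : ℝ) ^ (t - I.card) *
          (Fintype.card Q : ℝ) ^ Fintype.card κ)
      ≤ (Fintype.card Q : ℝ)⁻¹ * ((Vr ^ (t + 1) + M * Vr ^ (t - 1) * Fintype.card Q) *
        (Fintype.card Q : ℝ) ^ Fintype.card κ) := by gcongr
    _ = (Fintype.card Q : ℝ) ^ Fintype.card κ *
        (Vr ^ (t + 1) / Fintype.card Q + M * Vr ^ (t - 1)) := by
      field_simp

end

end Run7.h779.LH
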