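import Pool.Agent.Run7.h779.LH.Core2

set_option autoImplicit false
set_option linter.unusedSectionVars false

open Finset Module

namespace Run7.h779.LH

noncomputable section

variable {V Q : Type*} [AddCommGroup V] [Module (ZMod 2) V]
  [AddCommGroup Q] [Module (ZMod 2) Q] [Fintype Q] [DecidableEq Q]

/-- the character is trivial on the homomorphisms which vanish on `S` -/
def TrivOn [Finite V] (Ψ : AddChar (V →ₗ[ZMod 2] Q) ℂ) (S : Submodule (ZMod 2) V) : Prop :=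
  ∀ X : V →ₗ[ZMod 2] Q, (∀ w ∈ S, X w = 0) → Ψ X = 1

variable [Finite V]

lemma char_constr {ι : Type*} [DecidableEq ι] [Fintype ι] (B : Basis ι (ZMod 2) V)
    (Ψ : AddChar (V →ₗ[ZMod 2] Q) ℂ) (x : ι → Q) :
    Ψ (B.constr ℕ x) = ∏ i, coordChar B Ψ i (x i) := by
  simp only [coordChar_apply]
  rw [← char_sum, ← map_sum]
  have h := Finset.univ_sum_single x
  exact (congrArg (fun z => Ψ (B.constr ℕ z)) h).symm

lemma char_eq {ι : Type*} [DecidableEq ι] [Fintype ι] (B : Basis ι (ZMod 2) V)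
    (Ψ : AddChar (V →ₗ[ZMod 2] Q) ℂ) (X : V →ₗ[ZMod 2] Q) :
    Ψ X = ∏ i, coordChar B Ψ i (X (B i)) := by
  rw [← char_constr]
  congr 1
  exact (Basis.constr_self B ℕ X).symm

/-- the number of homomorphisms -/
lemma card_hom : (Fintype.card (V →ₗ[ZMod 2] Q) : ℝ) =
    (Fintype.card Q : ℝ) ^ finrank (ZMod 2) V := by
  classical
  have hB := Module.finBasis (ZMod 2) V
  have := Fintype.card_congr (hB.constr ℕ (M' := Q)).toEquiv
  rw [← this, Fintype.card_fun, Fintype.card_fin]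
  push_cast
  rfl

lemma first_term {t : ℕ} {b : Fin t → V} (hb : LinearIndependent (ZMod 2) b) (P : Finset Q)
    {Vr M ρ Λ : ℝ} (hV : (P.card : ℝ) ≤ Vr)
    (hM0 : 0 ≤ M) (hM : ∀ χ : AddChar Q ℂ, χ ≠ 0 → ‖SS P χ‖ ≤ M)
    (hρ : 0 < ρ) (hρM : ρ * M ≤ 1) (hρV : 1 ≤ ρ * Vr) (hVQ : Vr ≤ Fintype.card Q)
    (Ψ : AddChar (V →ₗ[ZMod 2] Q) ℂ) (hΨ : Ψ ≠ 0)
    (hS : TrivOn Ψ (Submodule.span (ZMod 2) (Set.range b)))
    (Φ : (V →ₗ[ZMod 2] Q) → ℝ) (h0 : ∀ X, 0 ≤ Φ X) (h1 : ∀ X, Φ X ≤ ∏ i, ind P (X (b i)))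
    (h2 : ∀ X, (∀ w ∈ Submodule.span (ZMod 2) (Set.range b), w ≠ 0 → (∀ i, w ≠ b i) →
      X w ∉ P) → Φ X = ∏ i, ind P (X (b i)))
    (hΛ : ∀ S' : Submodule (ZMod 2) V, TrivOn Ψ S' →
      (ρ * Fintype.card Q) ^ (finrank (ZMod 2) V - finrank (ZMod 2) S') ≤ Λ) :
    ρ ^ (finrank (ZMod 2) V) * ‖∑ X, (Φ X : ℂ) * Ψ X‖ ≤
      Λ * (ρ * M + Nat.card V * ((ρ * Vr) ^ (finrank (ZMod 2) V) *
        (Vr / Fintype.card Q + M / Vr))) := by
  classical
  obtain ⟨κ, _, B, hB⟩ := exists_basis hb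
  have hQ : (0 : ℝ) < Fintype.card Q := by exact_mod_cast Fintype.card_pos
  have hr : finrank (ZMod 2) V = t + Fintype.card κ := by
    rw [finrank_eq_card_basis B]; simp
  have hVr : 0 < Vr := by
    by_contra h
    have : ρ * Vr ≤ 0 := mul_nonpos_of_nonneg_of_nonpos hρ.le (not_lt.1 h)
    linarith
  have hρQ : 1 ≤ ρ * Fintype.card Q := hρV.trans (by gcongr)
  have hκ : ∀ k : κ, coordChar B Ψ (Sum.inr k) = 0 := by
    intro k
    rw [AddChar.eq_zero_iff]
    intro q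
    rw [coordChar_apply]
    refine hS _ fun w hw => ?_
    induction hw using Submodule.span_induction with
    | mem x hx =>
      obtain ⟨i, rfl⟩ := hx
      rw [← hB, Basis.constr_basis]
      simp
    | zero => simp
    | add x y _ _ hx hy => rw [map_add, hx, hy, add_zero]
    | smul a x _ hx => rw [map_smul, hx, smul_zero]
  obtain ⟨J, hJ⟩ : ∃ J : Finset (Fin t), J = univ.filter fun i =>
    coordChar B Ψ (Sum.inl i) = 0 := ⟨_, rfl⟩
  have hJt : J.card ≤ t := by simpa using Finset.card_le_univ J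
  have hJlt : J.card < t := by
    refine lt_of_le_of_ne hJt fun h => hΨ ?_
    have hJu : J = univ := by
      rw [← Finset.card_eq_iff_eq_univ, h, Fintype.card_fin]
    rw [AddChar.eq_zero_iff]
    intro X
    rw [char_eq B]
    refine Finset.prod_eq_one fun i _ => ?_
    rcases i with i | k
    · have : i ∈ J := by rw [hJu]; exact mem_univ _
      rw [hJ, mem_filter] at this
      rw [this.2]; rfl
    · rw [hκ k]; rfl
  -- the main part
  have hmain : ‖∑ X : V →ₗ[ZMod 2] Q, ((∏ i, ind P (X (b i)) : ℝ) : ℂ) * Ψ X‖ ≤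
      Vr ^ J.card * M ^ (t - J.card) * (Fintype.card Q : ℝ) ^ Fintype.card κ := by
    rw [sum_ind_mul B hB, norm_mul, norm_prod]
    refine mul_le_mul ?_ (le_of_eq ?_) (norm_nonneg _) (by positivity)
    · have h3 : ∀ i : Fin t, ‖SS P (coordChar B Ψ (Sum.inl i))‖ ≤ if i ∈ J then Vr else M := by
        intro i
        split_ifs with hi
        · exact (norm_SS_le _ _).trans hV
        · refine hM _ fun h => hi ?_
          rw [hJ, mem_filter]
          exact ⟨mem_univ _, h⟩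
      refine (prod_le_prod (fun i _ => norm_nonneg _) fun i _ => h3 i).trans (le_of_eq ?_)
      rw [Finset.prod_ite, prod_const, prod_const]
      congr 2
      · congr 1
        ext i
        simp
      · have : (univ.filter fun i => i ∉ J) = Jᶜ := by
          ext i
          simp
        rw [this, card_compl, Fintype.card_fin]
    · rw [norm_prod]
      have : ∀ k : κ, ‖∑ q, coordChar B Ψ (Sum.inr k) q‖ = (Fintype.card Q : ℝ) := by
        intro k
        rw [hκ k]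
        simp
      simp_rw [this]
      simp
  -- the subspace
  have hS' : TrivOn Ψ (Submodule.span (ZMod 2)
      (Set.range fun i : {i : Fin t // i ∉ J} => b i.1)) := by
    intro X hX
    rw [char_eq B]
    refine Finset.prod_eq_one fun i _ => ?_
    rcases i with i | k
    · by_cases hi : i ∈ J
      · rw [hJ, mem_filter] at hi
        rw [hi.2]; rfl
      · rw [hB, hX _ (Submodule.subset_span ⟨⟨i, hi⟩, rfl⟩)]
        exact AddChar.map_zero_eq_one _
    · rw [hκ k]; rfl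
  have hfin : finrank (ZMod 2) (Submodule.span (ZMod 2)
      (Set.range fun i : {i : Fin t // i ∉ J} => b i.1)) = t - J.card := by
    have h4 : LinearIndependent (ZMod 2) (fun i : {i : Fin t // i ∉ J} => b i.1) :=
      hb.comp _ Subtype.val_injective
    rw [finrank_span_eq_card h4, Fintype.card_subtype_compl, Fintype.card_fin]
    simp
  have hL1 := hΛ _ hS'
  rw [hfin] at hL1
  have hcod : finrank (ZMod 2) V - (t - J.card) = Fintype.card κ + J.card := by omega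
  rw [hcod] at hL1
  have hb' : finrank (ZMod 2) (Submodule.span (ZMod 2) (Set.range b)) = t := by
    rw [finrank_span_eq_card hb, Fintype.card_fin]
  have hL2 := hΛ _ hS
  rw [hb'] at hL2
  have hcod2 : finrank (ZMod 2) V - t = Fintype.card κ := by omega
  rw [hcod2] at hL2
  have hΛ0 : 0 ≤ Λ := le_trans (by positivity) hL2
  have hmain2 : ρ ^ (finrank (ZMod 2) V) *
      ‖∑ X : V →ₗ[ZMod 2] Q, ((∏ i, ind P (X (b i)) : ℝ) : ℂ) * Ψ X‖ ≤ Λ * (ρ * M) := by
    calc ρ ^ (finrank (ZMod 2) V) *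
        ‖∑ X : V →ₗ[ZMod 2] Q, ((∏ i, ind P (X (b i)) : ℝ) : ℂ) * Ψ X‖
        ≤ ρ ^ (finrank (ZMod 2) V) *
          (Vr ^ J.card * M ^ (t - J.card) * (Fintype.card Q : ℝ) ^ Fintype.card κ) := by gcongr
      _ = (ρ * M) ^ (t - J.card) * ((ρ * Vr) ^ J.card *
          (ρ * Fintype.card Q) ^ Fintype.card κ) := by
          have : finrank (ZMod 2) V = (t - J.card) + (J.card + Fintype.card κ) := by omega
          rw [this, pow_add, pow_add, mul_pow, mul_pow, mul_pow]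
          ring
      _ ≤ (ρ * M) ^ 1 * ((ρ * Fintype.card Q) ^ J.card *
          (ρ * Fintype.card Q) ^ Fintype.card κ) := by
          have hx : (ρ * M) ^ (t - J.card) ≤ (ρ * M) ^ 1 :=
            pow_le_pow_of_le_one (by positivity) hρM (by omega)
          gcongr
      _ = (ρ * M) * (ρ * Fintype.card Q) ^ (Fintype.card κ + J.card) := by
          rw [pow_one, ← pow_add, add_comm J.card]
      _ ≤ (ρ * M) * Λ := by gcongr
      _ = Λ * (ρ * M) := mul_comm _ _
  -- the error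
  obtain ⟨Bd, hBd⟩ : ∃ Bd : Set V, Bd = {w | w ∈ Submodule.span (ZMod 2) (Set.range b) ∧
    w ≠ 0 ∧ ∀ i, w ≠ b i} := ⟨_, rfl⟩
  have : Fintype V := Fintype.ofFinite V
  have herr : ∀ X : V →ₗ[ZMod 2] Q, (∏ i, ind P (X (b i))) - Φ X ≤
      ∑ w ∈ univ.filter (· ∈ Bd), (∏ i, ind P (X (b i))) * ind P (X w) := by
    intro X
    have hnn : ∀ w ∈ univ.filter (· ∈ Bd), 0 ≤ (∏ i, ind P (X (b i))) * ind P (X w) :=
      fun w _ => mul_nonneg (prod_nonneg fun i _ => ind_nonneg _ _) (ind_nonneg _ _)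
    by_cases hX : ∀ w ∈ Submodule.span (ZMod 2) (Set.range b), w ≠ 0 → (∀ i, w ≠ b i) → X w ∉ P
    · rw [h2 X hX, sub_self]
      exact sum_nonneg hnn
    · push Not at hX
      obtain ⟨w, hw1, hw2, hw3, hw4⟩ := hX
      have hwm : w ∈ univ.filter (· ∈ Bd) := by
        rw [mem_filter, hBd]
        exact ⟨mem_univ _, hw1, hw2, hw3⟩
      refine le_trans ?_ (Finset.single_le_sum hnn hwm)
      have : ind P (X w) = 1 := by unfold ind; rw [if_pos hw4]
      rw [this, mul_one]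
      linarith [h0 X]
  have hbadw : ∀ w ∈ univ.filter (· ∈ Bd), ρ ^ (finrank (ZMod 2) V) *
      ∑ X : V →ₗ[ZMod 2] Q, (∏ i, ind P (X (b i))) * ind P (X w) ≤
      Λ * ((ρ * Vr) ^ (finrank (ZMod 2) V) * (Vr / Fintype.card Q + M / Vr)) := by
    intro w hw
    rw [mem_filter, hBd] at hw
    obtain ⟨-, hw1, hw2, hw3⟩ := hw
    have ht1 : 1 ≤ t := by
      rcases Nat.eq_zero_or_pos t with h | h
      · exfalso
        subst h
        rw [Set.range_eq_empty, Submodule.span_empty, Submodule.mem_bot] at hw1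
        exact hw2 hw1
      · exact h
    have h5 := bad_sum B hB P hV hM0 hM hw1 hw2 hw3
    calc ρ ^ (finrank (ZMod 2) V) *
        ∑ X : V →ₗ[ZMod 2] Q, (∏ i, ind P (X (b i))) * ind P (X w)
        ≤ ρ ^ (finrank (ZMod 2) V) * ((Fintype.card Q : ℝ) ^ Fintype.card κ *
        (Vr ^ (t + 1) / Fintype.card Q + M * Vr ^ (t - 1))) := by gcongr
      _ = (ρ * Fintype.card Q) ^ Fintype.card κ *
          ((ρ * Vr) ^ t * (Vr / Fintype.card Q + M / Vr)) := by
          obtain ⟨s, rfl⟩ : ∃ s, t = s + 1 := ⟨t - 1, by omega⟩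
          rw [hr, Nat.add_sub_cancel, pow_add, mul_pow, mul_pow]
          have hVr' := hVr.ne'
          field_simp
          ring
      _ ≤ Λ * ((ρ * Vr) ^ (finrank (ZMod 2) V) * (Vr / Fintype.card Q + M / Vr)) := by
          have hp : (ρ * Vr) ^ t ≤ (ρ * Vr) ^ (finrank (ZMod 2) V) :=
            pow_le_pow_right₀ hρV (by omega)
          gcongr
  have hE : ρ ^ (finrank (ZMod 2) V) *
      ∑ X : V →ₗ[ZMod 2] Q, ((∏ i, ind P (X (b i))) - Φ X) ≤
      Λ * (Nat.card V * ((ρ * Vr) ^ (finrank (ZMod 2) V) *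
        (Vr / Fintype.card Q + M / Vr))) := by
    calc ρ ^ (finrank (ZMod 2) V) *
      ∑ X : V →ₗ[ZMod 2] Q, ((∏ i, ind P (X (b i))) - Φ X)
        ≤ ρ ^ (finrank (ZMod 2) V) * ∑ X : V →ₗ[ZMod 2] Q,
          ∑ w ∈ univ.filter (· ∈ Bd), (∏ i, ind P (X (b i))) * ind P (X w) := by
          gcongr with X _
          exact herr X
      _ = ∑ w ∈ univ.filter (· ∈ Bd), ρ ^ (finrank (ZMod 2) V) *
          ∑ X : V →ₗ[ZMod 2] Q, (∏ i, ind P (X (b i))) * ind P (X w) := by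
          rw [sum_comm, Finset.mul_sum]
      _ ≤ ∑ w ∈ univ.filter (· ∈ Bd), Λ * ((ρ * Vr) ^ (finrank (ZMod 2) V) *
          (Vr / Fintype.card Q + M / Vr)) := sum_le_sum hbadw
      _ = ((univ.filter (· ∈ Bd)).card : ℝ) * (Λ * ((ρ * Vr) ^ (finrank (ZMod 2) V) *
          (Vr / Fintype.card Q + M / Vr))) := by rw [sum_const, nsmul_eq_mul]
      _ ≤ (Nat.card V : ℝ) * (Λ * ((ρ * Vr) ^ (finrank (ZMod 2) V) *
          (Vr / Fintype.card Q + M / Vr))) := by
          have hc : ((univ.filter (· ∈ Bd)).card : ℝ) ≤ Nat.card V := by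
            rw [Nat.card_eq_fintype_card]
            exact_mod_cast card_filter_le _ _
          gcongr
      _ = _ := by ring
  -- conclusion
  have hsplit : ‖∑ X, (Φ X : ℂ) * Ψ X‖ ≤
      ‖∑ X : V →ₗ[ZMod 2] Q, ((∏ i, ind P (X (b i)) : ℝ) : ℂ) * Ψ X‖ +
      ∑ X : V →ₗ[ZMod 2] Q, ((∏ i, ind P (X (b i))) - Φ X) := by
    have h6 : ∑ X, (Φ X : ℂ) * Ψ X =
        (∑ X : V →ₗ[ZMod 2] Q, ((∏ i, ind P (X (b i)) : ℝ) : ℂ) * Ψ X) -
        ∑ X : V →ₗ[ZMod 2] Q, (((∏ i, ind P (X (b i))) - Φ X : ℝ) : ℂ) * Ψ X := by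
      rw [← sum_sub_distrib]
      refine sum_congr rfl fun X _ => ?_
      push_cast
      ring
    rw [h6]
    refine (norm_sub_le _ _).trans ?_
    gcongr
    refine (norm_sum_le _ _).trans (le_of_eq ?_)
    refine sum_congr rfl fun X _ => ?_
    rw [norm_mul, AddChar.norm_apply, mul_one, Complex.norm_real, Real.norm_of_nonneg]
    linarith [h1 X]
  calc ρ ^ (finrank (ZMod 2) V) * ‖∑ X, (Φ X : ℂ) * Ψ X‖
      ≤ ρ ^ (finrank (ZMod 2) V) *
        (‖∑ X : V →ₗ[ZMod 2] Q, ((∏ i, ind P (X (b i)) : ℝ) : ℂ) * Ψ X‖ +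
      ∑ X : V →ₗ[ZMod 2] Q, ((∏ i, ind P (X (b i))) - Φ X)) := by gcongr
    _ ≤ Λ * (ρ * M) + Λ * (Nat.card V * ((ρ * Vr) ^ (finrank (ZMod 2) V) *
        (Vr / Fintype.card Q + M / Vr))) := by
        rw [mul_add]
        exact add_le_add hmain2 hE
    _ = _ := by ring

end

end Run7.h779.LH
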