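import Pool.Agent.Run7.h779.LH.Core3

set_option autoImplicit false
set_option linter.unusedSectionVars false

open Finset Module

namespace Run7.h779.LH

noncomputable section

variable {V Q : Type*} [AddCommGroup V] [Module (ZMod 2) V]
  [AddCommGroup Q] [Module (ZMod 2) Q] [Fintype Q] [DecidableEq Q]

variable [Finite V]

lemma sum_char_zero (Ψ : AddChar (V →ₗ[ZMod 2] Q) ℂ) (Φ : (V →ₗ[ZMod 2] Q) → ℝ)
    (Z : V →ₗ[ZMod 2] Q) (hZ : Ψ Z ≠ 1) (hΦ : ∀ X, Φ (X + Z) = Φ X) :
    ∑ X, (Φ X : ℂ) * Ψ X = 0 := by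
  have h1 : ∑ X, (Φ X : ℂ) * Ψ X = (∑ X, (Φ X : ℂ) * Ψ X) * Ψ Z := by
    rw [Finset.sum_mul]
    rw [← Equiv.sum_comp (Equiv.addRight Z)]
    refine sum_congr rfl fun X _ => ?_
    simp only [Equiv.coe_addRight, hΦ, AddChar.map_add_eq_mul]
    ring
  have h2 : (∑ X, (Φ X : ℂ) * Ψ X) * (Ψ Z - 1) = 0 := by
    rw [mul_sub, mul_one, ← h1, sub_self]
  rcases mul_eq_zero.1 h2 with h | h
  · exact h
  · exact absurd (sub_eq_zero.1 h) hZ

/-- the factor of the error terms -/
def E0 (V Q : Type*) [AddCommGroup V] [Module (ZMod 2) V] [Fintype Q] (Vr M ρ : ℝ) : ℝ :=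
  ρ * M + Nat.card V * ((ρ * Vr) ^ (finrank (ZMod 2) V) * (Vr / Fintype.card Q + M / Vr))

lemma step_bound (P : Finset Q)
    {Vr M ρ Λ : ℝ} (hV : (P.card : ℝ) ≤ Vr)
    (hM0 : 0 ≤ M) (hM : ∀ χ : AddChar Q ℂ, χ ≠ 0 → ‖SS P χ‖ ≤ M)
    (hρ : 0 < ρ) (hρM : ρ * M ≤ 1) (hρV : 1 ≤ ρ * Vr) (hVQ : Vr ≤ Fintype.card Q)
    (Ψ : AddChar (V →ₗ[ZMod 2] Q) ℂ) (hΨ : Ψ ≠ 0) (hΛ0 : 0 ≤ Λ)
    (hΛ : ∀ S' : Submodule (ZMod 2) V, TrivOn Ψ S' →
      (ρ * Fintype.card Q) ^ (finrank (ZMod 2) V - finrank (ZMod 2) S') ≤ Λ) :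
    ∀ (n t : ℕ) (b : Fin t → V), LinearIndependent (ZMod 2) b → finrank (ZMod 2) V = t + n →
    ∀ (Φ : (V →ₗ[ZMod 2] Q) → ℝ), (∀ X, 0 ≤ Φ X) → (∀ X, Φ X ≤ ∏ i, ind P (X (b i))) →
    (∀ X, (∀ w ∈ Submodule.span (ZMod 2) (Set.range b), w ≠ 0 → (∀ i, w ≠ b i) →
      X w ∉ P) → Φ X = ∏ i, ind P (X (b i))) →
    (∀ X Z : V →ₗ[ZMod 2] Q, (∀ w ∈ Submodule.span (ZMod 2) (Set.range b), Z w = 0) →
      Φ (X + Z) = Φ X) →
    ∀ U : Finset V, (∀ u ∈ U, u ∉ Submodule.span (ZMod 2) (Set.range b)) →
    ρ ^ (finrank (ZMod 2) V) * ‖∑ X, ((Φ X * ∏ u ∈ U, (1 - ind P (X u)) : ℝ) : ℂ) * Ψ X‖ ≤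
      Λ * E0 V Q Vr M ρ * (1 + Nat.card V) ^ n := by
  classical
  have hVr : 0 < Vr := by
    by_contra h
    have : ρ * Vr ≤ 0 := mul_nonpos_of_nonneg_of_nonpos hρ.le (not_lt.1 h)
    linarith
  have hE0 : 0 ≤ E0 V Q Vr M ρ := by unfold E0; positivity
  have : Fintype V := Fintype.ofFinite V
  -- the term without product
  have first : ∀ (t : ℕ) (b : Fin t → V), LinearIndependent (ZMod 2) b →
    ∀ (Φ : (V →ₗ[ZMod 2] Q) → ℝ), (∀ X, 0 ≤ Φ X) → (∀ X, Φ X ≤ ∏ i, ind P (X (b i))) →
    (∀ X, (∀ w ∈ Submodule.span (ZMod 2) (Set.range b), w ≠ 0 → (∀ i, w ≠ b i) →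
      X w ∉ P) → Φ X = ∏ i, ind P (X (b i))) →
    (∀ X Z : V →ₗ[ZMod 2] Q, (∀ w ∈ Submodule.span (ZMod 2) (Set.range b), Z w = 0) →
      Φ (X + Z) = Φ X) →
    ρ ^ (finrank (ZMod 2) V) * ‖∑ X, (Φ X : ℂ) * Ψ X‖ ≤ Λ * E0 V Q Vr M ρ := by
    intro t b hb Φ h0 h1 h2 h3
    by_cases hS : TrivOn Ψ (Submodule.span (ZMod 2) (Set.range b))
    · exact first_term hb P hV hM0 hM hρ hρM hρV hVQ Ψ hΨ hS Φ h0 h1 h2 hΛ
    · unfold TrivOn at hS
      push Not at hS
      obtain ⟨Z, hZ, hΨZ⟩ := hS
      rw [sum_char_zero Ψ Φ Z hΨZ (fun X => h3 X Z hZ), norm_zero, mul_zero]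
      positivity
  intro n
  induction n with
  | zero =>
    intro t b hb hn Φ h0 h1 h2 h3 U hU
    have htop : Submodule.span (ZMod 2) (Set.range b) = ⊤ := by
      apply Submodule.eq_top_of_finrank_eq
      rw [finrank_span_eq_card hb, Fintype.card_fin, hn, add_zero]
    have hUe : U = ∅ := by
      rw [Finset.eq_empty_iff_forall_notMem]
      intro u hu
      apply hU u hu
      rw [htop]
      trivial
    rw [hUe]
    simp only [prod_empty, mul_one, pow_zero]
    exact first t b hb Φ h0 h1 h2 h3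
  | succ n ih =>
    intro t b hb hn Φ h0 h1 h2 h3
    -- induction on `U`
    have hU' : ∀ U : Finset V, (∀ u ∈ U, u ∉ Submodule.span (ZMod 2) (Set.range b)) →
        ρ ^ (finrank (ZMod 2) V) *
          ‖∑ X, ((Φ X * ∏ u ∈ U, (1 - ind P (X u)) : ℝ) : ℂ) * Ψ X‖ ≤
        Λ * E0 V Q Vr M ρ * (1 + U.card * (1 + Nat.card V) ^ n) := by
      intro U
      induction U using Finset.induction_on with
      | empty =>
        intro _
        simp only [prod_empty, mul_one, card_empty, Nat.cast_zero, zero_mul, add_zero]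
        exact first t b hb Φ h0 h1 h2 h3
      | insert u0 U hu0 ihU =>
        intro hUU
        have hu0b : u0 ∉ Submodule.span (ZMod 2) (Set.range b) := hUU u0 (mem_insert_self _ _)
        have hUb : ∀ u ∈ U, u ∉ Submodule.span (ZMod 2) (Set.range b) :=
          fun u hu => hUU u (mem_insert_of_mem hu)
        have hcons : LinearIndependent (ZMod 2) (Fin.cons u0 b : Fin (t + 1) → V) :=
          linearIndependent_finCons.2 ⟨hb, hu0b⟩
        have hrange : Set.range (Fin.cons u0 b : Fin (t + 1) → V) = insert u0 (Set.range b) :=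
          Fin.range_cons u0 b
        have hsub : Submodule.span (ZMod 2) (Set.range b) ≤
            Submodule.span (ZMod 2) (Set.range (Fin.cons u0 b : Fin (t + 1) → V)) := by
          rw [hrange]
          exact Submodule.span_mono (Set.subset_insert _ _)
        have hu0m : u0 ∈ Submodule.span (ZMod 2) (Set.range (Fin.cons u0 b : Fin (t + 1) → V)) := by
          rw [hrange]
          exact Submodule.subset_span (Set.mem_insert _ _)
        obtain ⟨S, hSdef⟩ : ∃ S, S =
          Submodule.span (ZMod 2) (Set.range (Fin.cons u0 b : Fin (t + 1) → V)) := ⟨_, rfl⟩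
        -- the new function
        have hnew := ih (t + 1) (Fin.cons u0 b) hcons (by omega)
          (fun X => Φ X * ind P (X u0) * ∏ u ∈ U.filter (· ∈ S), (1 - ind P (X u)))
          (fun X => mul_nonneg (mul_nonneg (h0 X) (ind_nonneg _ _))
            (prod_nonneg fun u _ => by linarith [ind_le_one P (X u)]))
          (fun X => by
            rw [Fin.prod_univ_succ]
            simp only [Fin.cons_zero, Fin.cons_succ]
            have hle : ∏ u ∈ U.filter (· ∈ S), (1 - ind P (X u)) ≤ 1 :=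
              prod_le_one (fun u _ => by linarith [ind_le_one P (X u)])
                (fun u _ => by linarith [ind_nonneg P (X u)])
            have hge : 0 ≤ ∏ u ∈ U.filter (· ∈ S), (1 - ind P (X u)) :=
              prod_nonneg fun u _ => by linarith [ind_le_one P (X u)]
            calc Φ X * ind P (X u0) * ∏ u ∈ U.filter (· ∈ S), (1 - ind P (X u))
                ≤ Φ X * ind P (X u0) * 1 :=
                  mul_le_mul_of_nonneg_left hle (mul_nonneg (h0 X) (ind_nonneg _ _))
              _ = ind P (X u0) * Φ X := by ring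
              _ ≤ ind P (X u0) * ∏ i, ind P (X (b i)) :=
                  mul_le_mul_of_nonneg_left (h1 X) (ind_nonneg _ _))
          (fun X hX => by
            rw [Fin.prod_univ_succ]
            simp only [Fin.cons_zero, Fin.cons_succ]
            have hX1 : Φ X = ∏ i, ind P (X (b i)) := by
              refine h2 X fun w hw hw0 hwb => hX w (hsub hw) hw0 fun i => ?_
              refine Fin.cases ?_ (fun j => ?_) i
              · rw [Fin.cons_zero]
                rintro rfl
                exact hu0b hw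
              · rw [Fin.cons_succ]
                exact hwb j
            have hX2 : ∏ u ∈ U.filter (· ∈ S), (1 - ind P (X u)) = 1 := by
              refine prod_eq_one fun u hu => ?_
              rw [mem_filter, hSdef] at hu
              have : X u ∉ P := by
                refine hX u hu.2 ?_ fun i => ?_
                · rintro rfl
                  exact hUb 0 hu.1 (Submodule.zero_mem _)
                · refine Fin.cases ?_ (fun j => ?_) i
                  · rw [Fin.cons_zero]
                    rintro rfl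
                    exact hu0 hu.1
                  · rw [Fin.cons_succ]
                    rintro rfl
                    exact hUb _ hu.1 (Submodule.subset_span ⟨j, rfl⟩)
              unfold ind
              rw [if_neg this, sub_zero]
            rw [hX1, hX2]
            ring)
          (fun X Z hZ => by
            have e1 : Φ (X + Z) = Φ X := h3 X Z fun w hw => hZ w (hsub hw)
            have e2 : (X + Z) u0 = X u0 := by
              rw [LinearMap.add_apply, hZ u0 hu0m, add_zero]
            simp only [e1, e2]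
            congr 1
            refine prod_congr rfl fun u hu => ?_
            rw [mem_filter, hSdef] at hu
            rw [LinearMap.add_apply, hZ u hu.2, add_zero])
          (U.filter (· ∉ S))
          (fun u hu => by
            rw [mem_filter, hSdef] at hu
            exact hu.2)
        have hold := ihU hUb
        have hsplit : ∑ X, ((Φ X * ∏ u ∈ insert u0 U, (1 - ind P (X u)) : ℝ) : ℂ) * Ψ X =
            ∑ X, ((Φ X * ∏ u ∈ U, (1 - ind P (X u)) : ℝ) : ℂ) * Ψ X -
            ∑ X, (((Φ X * ind P (X u0) * ∏ u ∈ U.filter (· ∈ S), (1 - ind P (X u))) *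
              ∏ u ∈ U.filter (· ∉ S), (1 - ind P (X u)) : ℝ) : ℂ) * Ψ X := by
          rw [← sum_sub_distrib]
          refine sum_congr rfl fun X _ => ?_
          rw [← sub_mul, ← Complex.ofReal_sub]
          congr 2
          rw [prod_insert hu0]
          have h5 : ∏ u ∈ U, (1 - ind P (X u)) =
              (∏ u ∈ U.filter (· ∈ S), (1 - ind P (X u))) *
              ∏ u ∈ U.filter (· ∉ S), (1 - ind P (X u)) :=
            (prod_filter_mul_prod_filter_not U (· ∈ S) _).symm
          rw [h5]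
          ring
        rw [hsplit]
        calc ρ ^ (finrank (ZMod 2) V) *
              ‖∑ X, ((Φ X * ∏ u ∈ U, (1 - ind P (X u)) : ℝ) : ℂ) * Ψ X -
            ∑ X, (((Φ X * ind P (X u0) * ∏ u ∈ U.filter (· ∈ S), (1 - ind P (X u))) *
              ∏ u ∈ U.filter (· ∉ S), (1 - ind P (X u)) : ℝ) : ℂ) * Ψ X‖
            ≤ ρ ^ (finrank (ZMod 2) V) *
              (‖∑ X, ((Φ X * ∏ u ∈ U, (1 - ind P (X u)) : ℝ) : ℂ) * Ψ X‖ +
            ‖∑ X, (((Φ X * ind P (X u0) * ∏ u ∈ U.filter (· ∈ S), (1 - ind P (X u))) *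
              ∏ u ∈ U.filter (· ∉ S), (1 - ind P (X u)) : ℝ) : ℂ) * Ψ X‖) := by
              gcongr
              exact norm_sub_le _ _
          _ ≤ Λ * E0 V Q Vr M ρ * (1 + U.card * (1 + Nat.card V) ^ n) +
              Λ * E0 V Q Vr M ρ * (1 + Nat.card V) ^ n := by
              rw [mul_add]
              exact add_le_add hold hnew
          _ = Λ * E0 V Q Vr M ρ * (1 + (insert u0 U).card * (1 + Nat.card V) ^ n) := by
              rw [card_insert_of_notMem hu0]
              push_cast
              ring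
    intro U hU
    refine (hU' U hU).trans ?_
    have hc : (U.card : ℝ) ≤ Nat.card V := by
      rw [Nat.card_eq_fintype_card]
      exact_mod_cast Finset.card_le_univ U
    have hp : (1 : ℝ) ≤ (1 + Nat.card V) ^ n := one_le_pow₀ (by linarith [Nat.cast_nonneg (α := ℝ) (Nat.card V)])
    refine mul_le_mul_of_nonneg_left ?_ (by positivity)
    calc (1 : ℝ) + U.card * (1 + Nat.card V) ^ n
        ≤ (1 + Nat.card V) ^ n + Nat.card V * (1 + Nat.card V) ^ n := by gcongr
      _ = (1 + Nat.card V) ^ (n + 1) := by ring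

end

end Run7.h779.LH
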