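import Pool.Agent.Run7.h779.LH.Core4

set_option autoImplicit false
set_option linter.unusedSectionVars false

open Finset Module

namespace Run7.h779.LH

noncomputable section

variable {V W Q : Type*} [AddCommGroup V] [Module (ZMod 2) V] [AddCommGroup W] [Module (ZMod 2) W]
  [AddCommGroup Q] [Module (ZMod 2) Q] [Fintype Q] [DecidableEq Q]

/-- indicator of the homomorphisms whose nonzero values at nonzero points are outside `P` -/
def gd (P : Finset Q) (Y : V →ₗ[ZMod 2] Q) : ℝ :=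
  haveI := Classical.dec (∀ v : V, v ≠ 0 → Y v ∉ P)
  if ∀ v : V, v ≠ 0 → Y v ∉ P then 1 else 0

lemma gd_nonneg (P : Finset Q) (Y : V →ₗ[ZMod 2] Q) : 0 ≤ gd P Y := by
  unfold gd; split_ifs <;> norm_num

variable [Finite V] [Finite W]

lemma gd_bound (P : Finset Q)
    {Vr M ρ Λ : ℝ} (hV : (P.card : ℝ) ≤ Vr)
    (hM0 : 0 ≤ M) (hM : ∀ χ : AddChar Q ℂ, χ ≠ 0 → ‖SS P χ‖ ≤ M)
    (hρ : 0 < ρ) (hρM : ρ * M ≤ 1) (hρV : 1 ≤ ρ * Vr) (hVQ : Vr ≤ Fintype.card Q)
    (Ψ : AddChar (V →ₗ[ZMod 2] Q) ℂ) (hΨ : Ψ ≠ 0) (hΛ0 : 0 ≤ Λ)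
    (hΛ : ∀ S' : Submodule (ZMod 2) V, TrivOn Ψ S' →
      (ρ * Fintype.card Q) ^ (finrank (ZMod 2) V - finrank (ZMod 2) S') ≤ Λ) :
    ρ ^ (finrank (ZMod 2) V) * ‖∑ Y : V →ₗ[ZMod 2] Q, (gd P Y : ℂ) * Ψ Y‖ ≤
      Λ * E0 V Q Vr M ρ * (1 + Nat.card V) ^ (finrank (ZMod 2) V) := by
  classical
  have : Fintype V := Fintype.ofFinite V
  have h := step_bound P hV hM0 hM hρ hρM hρV hVQ Ψ hΨ hΛ0 hΛ (finrank (ZMod 2) V) 0
    (Fin.elim0 : Fin 0 → V) linearIndependent_empty_type (by omega) (fun _ => 1)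
    (fun _ => zero_le_one) (fun _ => by simp) (fun _ _ => by simp) (fun _ _ _ => rfl)
    (univ.erase 0) (fun u hu => by
      rw [Set.range_eq_empty, Submodule.span_empty, Submodule.mem_bot]
      exact (mem_erase.1 hu).1)
  refine le_trans (le_of_eq ?_) h
  congr 2
  refine sum_congr rfl fun X _ => ?_
  congr 2
  rw [one_mul]
  unfold gd
  split_ifs with hX
  · symm
    refine prod_eq_one fun u hu => ?_
    unfold ind
    rw [if_neg (hX u (mem_erase.1 hu).1), sub_zero]
  · push Not at hX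
    obtain ⟨v, hv, hvP⟩ := hX
    symm
    refine prod_eq_zero (mem_erase.2 ⟨hv, mem_univ v⟩) ?_
    unfold ind
    rw [if_pos hvP, sub_self]

/-- the number of good homomorphisms -/
lemma gd_count (P : Finset Q) :
    (Fintype.card Q : ℝ) ^ finrank (ZMod 2) V * (1 - Nat.card V * (P.card / Fintype.card Q)) ≤
      ∑ Y : V →ₗ[ZMod 2] Q, gd P Y := by
  classical
  have : Fintype V := Fintype.ofFinite V
  have hQ : (0 : ℝ) < Fintype.card Q := by exact_mod_cast Fintype.card_pos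
  have h1 : ∀ Y : V →ₗ[ZMod 2] Q, 1 - ∑ v ∈ univ.erase (0 : V), ind P (Y v) ≤ gd P Y := by
    intro Y
    unfold gd
    split_ifs with h
    · have : 0 ≤ ∑ v ∈ univ.erase (0 : V), ind P (Y v) := sum_nonneg fun v _ => ind_nonneg _ _
      linarith
    · push Not at h
      obtain ⟨v, hv, hvP⟩ := h
      have h2 : ind P (Y v) ≤ ∑ v ∈ univ.erase (0 : V), ind P (Y v) :=
        single_le_sum (f := fun v => ind P (Y v)) (fun v _ => ind_nonneg _ _)
          (mem_erase.2 ⟨hv, mem_univ v⟩)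
      have h3 : ind P (Y v) = 1 := by unfold ind; rw [if_pos hvP]
      linarith
  have h4 : ∀ v : V, v ≠ 0 → ∑ Y : V →ₗ[ZMod 2] Q, ind P (Y v) =
      (Fintype.card Q : ℝ) ^ finrank (ZMod 2) V * (P.card / Fintype.card Q) := by
    intro v hv
    have hli : LinearIndependent (ZMod 2) ((fun _ => v) : Fin 1 → V) := by
      rw [linearIndependent_unique_iff]
      exact hv
    obtain ⟨κ, _, B, hB⟩ := exists_basis hli
    have h5 := sum_ind_mul B hB P 0
    have hr : finrank (ZMod 2) V = 1 + Fintype.card κ := by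
      rw [finrank_eq_card_basis B]; simp
    have h6 : ∀ i, coordChar B (0 : AddChar (V →ₗ[ZMod 2] Q) ℂ) i = 0 := fun i => rfl
    simp only [h6, SS_zero, AddChar.zero_apply, mul_one, Finset.univ_unique,
      sum_const, card_univ, nsmul_eq_mul, prod_const] at h5
    have h7 : ((∑ Y : V →ₗ[ZMod 2] Q, ind P (Y v) : ℝ) : ℂ) =
        (((P.card : ℝ) * (Fintype.card Q : ℝ) ^ Fintype.card κ : ℝ) : ℂ) := by
      push_cast
      simpa using h5
    have h8 := Complex.ofReal_injective h7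
    rw [h8, hr, pow_add, pow_one]
    field_simp
  calc (Fintype.card Q : ℝ) ^ finrank (ZMod 2) V * (1 - Nat.card V * (P.card / Fintype.card Q))
      ≤ ∑ Y : V →ₗ[ZMod 2] Q, (1 - ∑ v ∈ univ.erase (0 : V), ind P (Y v)) := by
        rw [sum_sub_distrib, sum_comm, sum_congr rfl fun v hv => h4 v (mem_erase.1 hv).1,
          sum_const, sum_const, card_univ, nsmul_eq_mul, nsmul_eq_mul, card_hom, mul_one]
        have h9 : (((univ.erase (0 : V)).card : ℕ) : ℝ) ≤ Nat.card V := by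
          rw [Nat.card_eq_fintype_card]
          exact_mod_cast card_le_univ _
        have h10 : (((univ.erase (0 : V)).card : ℕ) : ℝ) *
            ((Fintype.card Q : ℝ) ^ finrank (ZMod 2) V * (P.card / Fintype.card Q)) ≤
            Nat.card V * ((Fintype.card Q : ℝ) ^ finrank (ZMod 2) V *
              (P.card / Fintype.card Q)) := by gcongr
        nlinarith [h10]
    _ ≤ _ := sum_le_sum fun Y _ => h1 Y

end

end Run7.h779.LH
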