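import Pool.Agent.Run7.h779.LH.Core5

set_option autoImplicit false
set_option linter.unusedSectionVars false

open Finset Module

namespace Run7.h779.LH

noncomputable section

variable {W Q : Type*} [AddCommGroup W] [Module (ZMod 2) W]
  [AddCommGroup Q] [Module (ZMod 2) Q] [Fintype Q] [DecidableEq Q]

open Classical in
/-- the pseudo-code on the quotient -/
def ff (P : Finset Q) (ρ : ℝ) (X : W →ₗ[ZMod 2] Q) : ℝ :=
  if ∀ w, X w ∈ P → X w = 0 then ρ ^ finrank (ZMod 2) (LinearMap.range X) else 0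

variable [Finite W]

instance subFin : Fintype (Submodule (ZMod 2) W) :=
  haveI : Finite (Submodule (ZMod 2) W) := Finite.of_injective (fun K => (K : Set W))
    SetLike.coe_injective
  Fintype.ofFinite _

instance quotFin (K : Submodule (ZMod 2) W) : Finite (W ⧸ K) :=
  Finite.of_surjective _ (Submodule.mkQ_surjective K)

open Classical in
/-- the part with kernel `K` -/
def part (P : Finset Q) (K : Submodule (ZMod 2) W) (X : W →ₗ[ZMod 2] Q) : ℝ :=
  if K ≤ LinearMap.ker X ∧ ∀ w, w ∉ K → X w ∉ P then 1 else 0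

lemma part_nonneg (P : Finset Q) (K : Submodule (ZMod 2) W) (X : W →ₗ[ZMod 2] Q) :
    0 ≤ part P K X := by
  unfold part; split_ifs <;> norm_num

lemma ff_eq {P : Finset Q} (h0 : (0 : Q) ∈ P) (ρ : ℝ) (X : W →ₗ[ZMod 2] Q) :
    ff P ρ X = ∑ K : Submodule (ZMod 2) W,
      ρ ^ (finrank (ZMod 2) W - finrank (ZMod 2) K) * part P K X := by
  classical
  have hker : ∀ K : Submodule (ZMod 2) W, (K ≤ LinearMap.ker X ∧ ∀ w, w ∉ K → X w ∉ P) →
      K = LinearMap.ker X := by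
    rintro K ⟨h1, h2⟩
    refine le_antisymm h1 fun w hw => ?_
    by_contra h
    exact h2 w h (by rw [LinearMap.mem_ker.1 hw]; exact h0)
  rw [Finset.sum_eq_single (LinearMap.ker X)]
  · unfold ff part
    have hr : finrank (ZMod 2) W - finrank (ZMod 2) (LinearMap.ker X) =
        finrank (ZMod 2) (LinearMap.range X) := by
      have := LinearMap.finrank_range_add_finrank_ker X
      omega
    rw [hr]
    by_cases h : ∀ w, X w ∈ P → X w = 0
    · rw [if_pos h, if_pos, mul_one]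
      exact ⟨le_rfl, fun w hw hP => hw (LinearMap.mem_ker.2 (h w hP))⟩
    · rw [if_neg h, if_neg, mul_zero]
      rintro ⟨-, h2⟩
      exact h fun w hP => by
        by_contra hw
        exact h2 w (fun h3 => hw (LinearMap.mem_ker.1 h3)) hP
  · intro K _ hK
    unfold part
    rw [if_neg fun h => hK (hker K h), mul_zero]
  · intro h
    exact absurd (mem_univ _) h

/-- the restricted character -/
def charQ (Ψ : AddChar (W →ₗ[ZMod 2] Q) ℂ) (K : Submodule (ZMod 2) W) :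
    AddChar ((W ⧸ K) →ₗ[ZMod 2] Q) ℂ where
  toFun Y := Ψ (Y.comp K.mkQ)
  map_zero_eq_one' := by
    rw [LinearMap.zero_comp]
    exact AddChar.map_zero_eq_one _
  map_add_eq_mul' x y := by
    rw [LinearMap.add_comp, AddChar.map_add_eq_mul]

lemma charQ_apply (Ψ : AddChar (W →ₗ[ZMod 2] Q) ℂ) (K : Submodule (ZMod 2) W)
    (Y : (W ⧸ K) →ₗ[ZMod 2] Q) : charQ Ψ K Y = Ψ (Y.comp K.mkQ) := rfl

lemma charQ_eq_zero {Ψ : AddChar (W →ₗ[ZMod 2] Q) ℂ} {K : Submodule (ZMod 2) W} :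
    charQ Ψ K = 0 ↔ TrivOn Ψ K := by
  constructor
  · intro h X hX
    have h1 := (AddChar.eq_zero_iff.1 h) (K.liftQ X fun w hw => LinearMap.mem_ker.2 (hX w hw))
    rw [charQ_apply, Submodule.liftQ_mkQ] at h1
    exact h1
  · intro h
    rw [AddChar.eq_zero_iff]
    intro Y
    rw [charQ_apply]
    refine h _ fun w hw => ?_
    rw [LinearMap.comp_apply, Submodule.mkQ_apply, (Submodule.Quotient.mk_eq_zero K).2 hw, map_zero]

lemma trivOn_comap {Ψ : AddChar (W →ₗ[ZMod 2] Q) ℂ} {K : Submodule (ZMod 2) W}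
    {S : Submodule (ZMod 2) (W ⧸ K)} (h : TrivOn (charQ Ψ K) S) :
    TrivOn Ψ (S.comap K.mkQ) := by
  intro X hX
  have hK : K ≤ LinearMap.ker X := fun w hw => LinearMap.mem_ker.2 (hX w (by
    rw [Submodule.mem_comap, Submodule.mkQ_apply, (Submodule.Quotient.mk_eq_zero K).2 hw]
    exact S.zero_mem))
  have h1 := h (K.liftQ X hK) (by
    intro v hv
    obtain ⟨w, rfl⟩ := Submodule.mkQ_surjective K v
    rw [Submodule.mkQ_apply, Submodule.liftQ_apply]
    exact hX w hv)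
  rw [charQ_apply, Submodule.liftQ_mkQ] at h1
  exact h1

lemma codim_comap {K : Submodule (ZMod 2) W} (S : Submodule (ZMod 2) (W ⧸ K)) :
    finrank (ZMod 2) (W ⧸ K) - finrank (ZMod 2) S =
      finrank (ZMod 2) W - finrank (ZMod 2) (S.comap K.mkQ) := by
  rw [← Submodule.finrank_quotient, ← Submodule.finrank_quotient]
  have hle : K ≤ S.comap K.mkQ := by
    intro w hw
    rw [Submodule.mem_comap, Submodule.mkQ_apply, (Submodule.Quotient.mk_eq_zero K).2 hw]
    exact S.zero_mem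
  have h := (Submodule.quotientQuotientEquivQuotient K (S.comap K.mkQ) hle).finrank_eq
  have h2 : (S.comap K.mkQ).map K.mkQ = S :=
    Submodule.map_comap_eq_of_surjective (Submodule.mkQ_surjective K) S
  rw [h2] at h
  exact h

lemma part_sum (P : Finset Q) (K : Submodule (ZMod 2) W) (Ψ : AddChar (W →ₗ[ZMod 2] Q) ℂ) :
    ∑ X : W →ₗ[ZMod 2] Q, (part P K X : ℂ) * Ψ X =
      ∑ Y : (W ⧸ K) →ₗ[ZMod 2] Q, (gd P Y : ℂ) * charQ Ψ K Y := by
  classical
  symm
  refine Fintype.sum_of_injective (fun Y : (W ⧸ K) →ₗ[ZMod 2] Q => Y.comp K.mkQ) ?_ _ _ ?_ ?_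
  · intro Y Y' h
    exact LinearMap.cancel_right (Submodule.mkQ_surjective K) |>.1 h
  · intro X hX
    have : part P K X = 0 := by
      unfold part
      rw [if_neg]
      rintro ⟨h1, -⟩
      exact hX ⟨K.liftQ X h1, Submodule.liftQ_mkQ K X h1⟩
    rw [this]
    simp
  · intro Y
    rw [charQ_apply]
    congr 2
    unfold gd part
    have hk : K ≤ LinearMap.ker (Y.comp K.mkQ) := by
      intro w hw
      rw [LinearMap.mem_ker, LinearMap.comp_apply, Submodule.mkQ_apply,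
        (Submodule.Quotient.mk_eq_zero K).2 hw, map_zero]
    by_cases h : ∀ v : W ⧸ K, v ≠ 0 → Y v ∉ P
    · rw [if_pos h, if_pos]
      refine ⟨hk, fun w hw => h _ fun h0 => hw ?_⟩
      exact (Submodule.Quotient.mk_eq_zero K).1 h0
    · rw [if_neg h, if_neg]
      rintro ⟨-, h2⟩
      apply h
      intro v hv
      obtain ⟨w, rfl⟩ := Submodule.mkQ_surjective K v
      exact h2 w fun hw => hv ((Submodule.Quotient.mk_eq_zero K).2 hw)

lemma card_sub : (Fintype.card (Submodule (ZMod 2) W) : ℝ) ≤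
    (Nat.card W : ℝ) ^ finrank (ZMod 2) W := by
  classical
  have : Fintype W := Fintype.ofFinite W
  have h : Function.Surjective
      (fun v : Fin (finrank (ZMod 2) W) → W => Submodule.span (ZMod 2) (Set.range v)) := by
    intro K
    -- a basis of `K`, padded by zeros
    obtain ⟨v, hv⟩ : ∃ v : Fin (finrank (ZMod 2) K) → W,
        Submodule.span (ZMod 2) (Set.range v) = K := by
      let B := Module.finBasis (ZMod 2) K
      refine ⟨fun i => (B i : W), ?_⟩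
      have : (Set.range fun i => (B i : W)) = K.subtype '' Set.range B := by
        rw [← Set.range_comp]
        rfl
      rw [this, Submodule.span_image, B.span_eq, Submodule.map_top, Submodule.range_subtype]
    have hle : finrank (ZMod 2) K ≤ finrank (ZMod 2) W := Submodule.finrank_le K
    refine ⟨fun i => if h : i.1 < finrank (ZMod 2) K then v ⟨i.1, h⟩ else 0, ?_⟩
    refine Eq.trans ?_ hv
    apply le_antisymm
    · rw [Submodule.span_le]
      rintro _ ⟨i, rfl⟩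
      dsimp only
      split_ifs with h
      · exact Submodule.subset_span ⟨_, rfl⟩
      · exact Submodule.zero_mem _
    · rw [Submodule.span_le]
      rintro _ ⟨i, rfl⟩
      refine Submodule.subset_span ⟨⟨i.1, i.2.trans_le hle⟩, ?_⟩
      dsimp only
      rw [dif_pos i.2]
  have h2 := Fintype.card_le_of_surjective _ h
  rw [Fintype.card_fun, Fintype.card_fin] at h2
  rw [Nat.card_eq_fintype_card]
  exact_mod_cast h2

/-- positivity of the Fourier transform -/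
theorem pos_main (P : Finset Q) (hP0 : (0 : Q) ∈ P)
    {Vr M ρ : ℝ} (hV : (P.card : ℝ) ≤ Vr)
    (hM0 : 0 ≤ M) (hM : ∀ χ : AddChar Q ℂ, χ ≠ 0 → ‖SS P χ‖ ≤ M)
    (hρ : 0 < ρ) (hρM : ρ * M ≤ 1) (hρV : 1 ≤ ρ * Vr) (hVQ : 2 * Nat.card W * Vr ≤ Fintype.card Q)
    (hE : (Nat.card W : ℝ) ^ finrank (ZMod 2) W * (1 + Nat.card W) ^ finrank (ZMod 2) W *
      E0 W Q Vr M ρ ≤ 1 / 2)
    (Ψ : AddChar (W →ₗ[ZMod 2] Q) ℂ) :
    0 ≤ (∑ X : W →ₗ[ZMod 2] Q, (ff P ρ X : ℂ) * Ψ X).re := by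
  classical
  have hW1 : (1 : ℝ) ≤ Nat.card W := by
    exact_mod_cast Nat.one_le_iff_ne_zero.2 (Nat.card_ne_zero.2 ⟨⟨0⟩, inferInstance⟩)
  have hVr : 0 < Vr := by
    by_contra h
    have : ρ * Vr ≤ 0 := mul_nonpos_of_nonneg_of_nonpos hρ.le (not_lt.1 h)
    linarith
  have hQ : (0 : ℝ) < Fintype.card Q := by exact_mod_cast Fintype.card_pos
  have hVQ1 : Vr ≤ Fintype.card Q := by nlinarith
  have hρQ : 1 ≤ ρ * Fintype.card Q := hρV.trans (by gcongr)
  obtain ⟨c, hc⟩ : ∃ c : Submodule (ZMod 2) W → ℝ, c = fun K : Submodule (ZMod 2) W =>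
    (ρ * Fintype.card Q) ^ (finrank (ZMod 2) W - finrank (ZMod 2) K) := ⟨_, rfl⟩
  have htop : TrivOn Ψ ⊤ := by
    intro X hX
    have : X = 0 := LinearMap.ext fun w => hX w trivial
    rw [this]
    exact AddChar.map_zero_eq_one _
  obtain ⟨K0, hK0, hmax⟩ := Finset.exists_max_image
    (univ.filter fun K : Submodule (ZMod 2) W => TrivOn Ψ K) c
    ⟨⊤, mem_filter.2 ⟨mem_univ _, htop⟩⟩
  rw [mem_filter] at hK0
  have hK0' := hK0.2
  obtain ⟨Λ, hΛ⟩ : ∃ Λ, Λ = c K0 := ⟨_, rfl⟩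
  have hΛ0 : 0 ≤ Λ := by rw [hΛ, hc]; positivity
  have hmax' : ∀ K, TrivOn Ψ K → c K ≤ Λ := by
    intro K hK
    rw [hΛ]
    exact hmax K (mem_filter.2 ⟨mem_univ _, hK⟩)
  -- the expansion
  have h1 : (∑ X : W →ₗ[ZMod 2] Q, (ff P ρ X : ℂ) * Ψ X).re =
      ∑ K : Submodule (ZMod 2) W, (ρ ^ (finrank (ZMod 2) W - finrank (ZMod 2) K) : ℝ) *
        (∑ Y : (W ⧸ K) →ₗ[ZMod 2] Q, (gd P Y : ℂ) * charQ Ψ K Y).re := by
    have h2 : ∑ X : W →ₗ[ZMod 2] Q, (ff P ρ X : ℂ) * Ψ X =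
        ∑ K : Submodule (ZMod 2) W, ((ρ ^ (finrank (ZMod 2) W - finrank (ZMod 2) K) : ℝ) : ℂ) *
        (∑ Y : (W ⧸ K) →ₗ[ZMod 2] Q, (gd P Y : ℂ) * charQ Ψ K Y) := by
      simp_rw [← part_sum, Finset.mul_sum]
      rw [sum_comm]
      refine sum_congr rfl fun X _ => ?_
      rw [ff_eq hP0, Complex.ofReal_sum, Finset.sum_mul]
      refine sum_congr rfl fun K _ => ?_
      rw [Complex.ofReal_mul]
      ring
    rw [h2, Complex.re_sum]
    refine sum_congr rfl fun K _ => ?_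
    rw [Complex.re_ofReal_mul]
  rw [h1]
  -- the terms
  have hbound : ∀ K : Submodule (ZMod 2) W, ¬ TrivOn Ψ K →
      -(Λ * E0 W Q Vr M ρ * (1 + Nat.card W) ^ (finrank (ZMod 2) W)) ≤
      (ρ ^ (finrank (ZMod 2) W - finrank (ZMod 2) K) : ℝ) *
        (∑ Y : (W ⧸ K) →ₗ[ZMod 2] Q, (gd P Y : ℂ) * charQ Ψ K Y).re := by
    intro K hK
    have hΨK : charQ Ψ K ≠ 0 := fun h => hK (charQ_eq_zero.1 h)
    have h3 := gd_bound (V := W ⧸ K) P hV hM0 hM hρ hρM hρV hVQ1 (charQ Ψ K) hΨK hΛ0 (by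
      intro S' hS'
      rw [codim_comap]
      have := hmax' _ (trivOn_comap hS')
      rw [hc] at this
      exact this)
    rw [Submodule.finrank_quotient] at h3
    have hcard : (Nat.card (W ⧸ K) : ℝ) ≤ Nat.card W := by
      exact_mod_cast Nat.card_le_card_of_surjective _ (Submodule.mkQ_surjective K)
    have hE0 : E0 (W ⧸ K) Q Vr M ρ ≤ E0 W Q Vr M ρ := by
      unfold E0
      have hp : (ρ * Vr) ^ (finrank (ZMod 2) (W ⧸ K)) ≤ (ρ * Vr) ^ (finrank (ZMod 2) W) :=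
        pow_le_pow_right₀ hρV (by rw [Submodule.finrank_quotient]; omega)
      gcongr
    have hE0n : 0 ≤ E0 W Q Vr M ρ := by unfold E0; positivity
    have h4 : -‖∑ Y : (W ⧸ K) →ₗ[ZMod 2] Q, (gd P Y : ℂ) * charQ Ψ K Y‖ ≤
        (∑ Y : (W ⧸ K) →ₗ[ZMod 2] Q, (gd P Y : ℂ) * charQ Ψ K Y).re :=
      (abs_le.1 (Complex.abs_re_le_norm _)).1
    have h5 : Λ * E0 (W ⧸ K) Q Vr M ρ * (1 + Nat.card (W ⧸ K)) ^
        (finrank (ZMod 2) W - finrank (ZMod 2) K) ≤
        Λ * E0 W Q Vr M ρ * (1 + Nat.card W) ^ (finrank (ZMod 2) W) := by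
      have hp : ((1 : ℝ) + Nat.card (W ⧸ K)) ^ (finrank (ZMod 2) W - finrank (ZMod 2) K) ≤
          (1 + Nat.card W) ^ (finrank (ZMod 2) W) := by
        calc ((1 : ℝ) + Nat.card (W ⧸ K)) ^ (finrank (ZMod 2) W - finrank (ZMod 2) K)
            ≤ (1 + Nat.card W) ^ (finrank (ZMod 2) W - finrank (ZMod 2) K) := by gcongr
          _ ≤ (1 + Nat.card W) ^ (finrank (ZMod 2) W) :=
            pow_le_pow_right₀ (by linarith) (by omega)
      gcongr
    have hρp : 0 ≤ (ρ ^ (finrank (ZMod 2) W - finrank (ZMod 2) K) : ℝ) := by positivity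
    calc -(Λ * E0 W Q Vr M ρ * (1 + Nat.card W) ^ (finrank (ZMod 2) W))
        ≤ -((ρ ^ (finrank (ZMod 2) W - finrank (ZMod 2) K) : ℝ) *
          ‖∑ Y : (W ⧸ K) →ₗ[ZMod 2] Q, (gd P Y : ℂ) * charQ Ψ K Y‖) :=
          neg_le_neg (h3.trans h5)
      _ = (ρ ^ (finrank (ZMod 2) W - finrank (ZMod 2) K) : ℝ) *
          (-‖∑ Y : (W ⧸ K) →ₗ[ZMod 2] Q, (gd P Y : ℂ) * charQ Ψ K Y‖) := by ring
      _ ≤ _ := mul_le_mul_of_nonneg_left h4 hρp
  have hpos : ∀ K : Submodule (ZMod 2) W, TrivOn Ψ K →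
      (∑ Y : (W ⧸ K) →ₗ[ZMod 2] Q, (gd P Y : ℂ) * charQ Ψ K Y).re =
        ∑ Y : (W ⧸ K) →ₗ[ZMod 2] Q, gd P Y := by
    intro K hK
    rw [charQ_eq_zero.2 hK]
    simp [Complex.re_sum]
  have hmainK : Λ / 2 ≤ (ρ ^ (finrank (ZMod 2) W - finrank (ZMod 2) K0) : ℝ) *
      (∑ Y : (W ⧸ K0) →ₗ[ZMod 2] Q, (gd P Y : ℂ) * charQ Ψ K0 Y).re := by
    rw [hpos K0 hK0']
    have h6 := gd_count (V := W ⧸ K0) P
    rw [Submodule.finrank_quotient] at h6
    have hcard : (Nat.card (W ⧸ K0) : ℝ) ≤ Nat.card W := by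
      exact_mod_cast Nat.card_le_card_of_surjective _ (Submodule.mkQ_surjective K0)
    have h7 : (Nat.card (W ⧸ K0) : ℝ) * (P.card / Fintype.card Q) ≤ 1 / 2 := by
      calc (Nat.card (W ⧸ K0) : ℝ) * (P.card / Fintype.card Q)
          ≤ Nat.card W * (Vr / Fintype.card Q) := by gcongr
        _ = (2 * Nat.card W * Vr) / (2 * Fintype.card Q) := by field_simp
        _ ≤ Fintype.card Q / (2 * Fintype.card Q) := by gcongr
        _ = 1 / 2 := by field_simp
    have h8 : (Fintype.card Q : ℝ) ^ (finrank (ZMod 2) W - finrank (ZMod 2) K0) / 2 ≤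
        ∑ Y : (W ⧸ K0) →ₗ[ZMod 2] Q, gd P Y := by
      refine le_trans ?_ h6
      have : 0 ≤ (Fintype.card Q : ℝ) ^ (finrank (ZMod 2) W - finrank (ZMod 2) K0) := by
        positivity
      nlinarith
    calc Λ / 2 = (ρ ^ (finrank (ZMod 2) W - finrank (ZMod 2) K0) : ℝ) *
          ((Fintype.card Q : ℝ) ^ (finrank (ZMod 2) W - finrank (ZMod 2) K0) / 2) := by
          rw [hΛ, hc]
          simp only [mul_pow]
          ring
      _ ≤ _ := by gcongr
  -- conclusion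
  rw [← Finset.add_sum_erase univ _ (mem_univ K0)]
  have hrest : -((Fintype.card (Submodule (ZMod 2) W) : ℝ) *
      (Λ * E0 W Q Vr M ρ * (1 + Nat.card W) ^ (finrank (ZMod 2) W))) ≤
      ∑ K ∈ univ.erase K0, (ρ ^ (finrank (ZMod 2) W - finrank (ZMod 2) K) : ℝ) *
        (∑ Y : (W ⧸ K) →ₗ[ZMod 2] Q, (gd P Y : ℂ) * charQ Ψ K Y).re := by
    have hE0n : 0 ≤ E0 W Q Vr M ρ := by unfold E0; positivity
    have hnn : 0 ≤ Λ * E0 W Q Vr M ρ * (1 + Nat.card W) ^ (finrank (ZMod 2) W) := by positivity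
    calc -((Fintype.card (Submodule (ZMod 2) W) : ℝ) *
      (Λ * E0 W Q Vr M ρ * (1 + Nat.card W) ^ (finrank (ZMod 2) W)))
        ≤ -(((univ.erase K0).card : ℝ) *
          (Λ * E0 W Q Vr M ρ * (1 + Nat.card W) ^ (finrank (ZMod 2) W))) := by
          have : ((univ.erase K0).card : ℝ) ≤ Fintype.card (Submodule (ZMod 2) W) := by
            exact_mod_cast card_le_univ _
          exact neg_le_neg (by gcongr)
      _ = ∑ K ∈ univ.erase K0,
          -(Λ * E0 W Q Vr M ρ * (1 + Nat.card W) ^ (finrank (ZMod 2) W)) := by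
          rw [sum_const, nsmul_eq_mul]
          ring
      _ ≤ _ := by
          refine sum_le_sum fun K _ => ?_
          by_cases hK : TrivOn Ψ K
          · rw [hpos K hK]
            have : 0 ≤ (ρ ^ (finrank (ZMod 2) W - finrank (ZMod 2) K) : ℝ) *
                ∑ Y : (W ⧸ K) →ₗ[ZMod 2] Q, gd P Y :=
              mul_nonneg (by positivity) (sum_nonneg fun Y _ => gd_nonneg P Y)
            linarith
          · exact hbound K hK
  have hfinal : (Fintype.card (Submodule (ZMod 2) W) : ℝ) *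
      (Λ * E0 W Q Vr M ρ * (1 + Nat.card W) ^ (finrank (ZMod 2) W)) ≤ Λ / 2 := by
    have hE0n : 0 ≤ E0 W Q Vr M ρ := by unfold E0; positivity
    calc (Fintype.card (Submodule (ZMod 2) W) : ℝ) *
      (Λ * E0 W Q Vr M ρ * (1 + Nat.card W) ^ (finrank (ZMod 2) W))
        ≤ (Nat.card W : ℝ) ^ finrank (ZMod 2) W *
          (Λ * E0 W Q Vr M ρ * (1 + Nat.card W) ^ (finrank (ZMod 2) W)) := by
          have := card_sub (W := W)
          gcongr
      _ = Λ * ((Nat.card W : ℝ) ^ finrank (ZMod 2) W * (1 + Nat.card W) ^ finrank (ZMod 2) W *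
          E0 W Q Vr M ρ) := by ring
      _ ≤ Λ * (1 / 2) := by gcongr
      _ = Λ / 2 := by ring
  linarith

/-- the total mass -/
theorem mass_main (P : Finset Q) {Vr ρ : ℝ} (hV : (P.card : ℝ) ≤ Vr) (hρ : 0 < ρ)
    (hVQ : 2 * Nat.card W * Vr ≤ Fintype.card Q) (hP0 : (0 : Q) ∈ P) :
    (ρ * Fintype.card Q) ^ finrank (ZMod 2) W / 2 ≤ ∑ X : W →ₗ[ZMod 2] Q, ff P ρ X := by
  classical
  have hQ : (0 : ℝ) < Fintype.card Q := by exact_mod_cast Fintype.card_pos
  have h6 := gd_count (V := W) P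
  have h7 : (Nat.card W : ℝ) * (P.card / Fintype.card Q) ≤ 1 / 2 := by
    calc (Nat.card W : ℝ) * (P.card / Fintype.card Q)
        ≤ Nat.card W * (Vr / Fintype.card Q) := by gcongr
      _ = (2 * Nat.card W * Vr) / (2 * Fintype.card Q) := by field_simp
      _ ≤ Fintype.card Q / (2 * Fintype.card Q) := by gcongr
      _ = 1 / 2 := by field_simp
  have h8 : (Fintype.card Q : ℝ) ^ (finrank (ZMod 2) W) / 2 ≤
      ∑ Y : W →ₗ[ZMod 2] Q, gd P Y := by
    refine le_trans ?_ h6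
    have : 0 ≤ (Fintype.card Q : ℝ) ^ (finrank (ZMod 2) W) := by
      positivity
    nlinarith
  have h9 : ∀ X : W →ₗ[ZMod 2] Q, ρ ^ finrank (ZMod 2) W * gd P X ≤ ff P ρ X := by
    intro X
    unfold gd ff
    split_ifs with h1 h2 h2
    · have hker : LinearMap.ker X = ⊥ := by
        rw [Submodule.eq_bot_iff]
        intro w hw
        by_contra hw0
        exact h1 w hw0 (by rw [LinearMap.mem_ker.1 hw]; exact hP0)
      have := LinearMap.finrank_range_add_finrank_ker X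
      rw [hker, finrank_bot, add_zero] at this
      rw [this, mul_one]
    · exfalso
      apply h2
      intro w hw
      by_contra hw0
      exact h1 w (fun h => hw0 (by rw [h, map_zero])) hw
    · rw [mul_zero]; positivity
    · rw [mul_zero]
  calc (ρ * Fintype.card Q) ^ finrank (ZMod 2) W / 2
      = ρ ^ finrank (ZMod 2) W * ((Fintype.card Q : ℝ) ^ (finrank (ZMod 2) W) / 2) := by
        rw [mul_pow]; ring
    _ ≤ ρ ^ finrank (ZMod 2) W * ∑ Y : W →ₗ[ZMod 2] Q, gd P Y := by gcongr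
    _ = ∑ Y : W →ₗ[ZMod 2] Q, ρ ^ finrank (ZMod 2) W * gd P Y := by rw [Finset.mul_sum]
    _ ≤ _ := sum_le_sum fun X _ => h9 X

end

end Run7.h779.LH
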