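import Pool.Agent.Run7.h779.LH.Build

set_option autoImplicit false
set_option linter.unusedSectionVars false

open Finset Module

namespace Run7.h779.LH

noncomputable section

/-- value of level `ℓ` -/
def LPv (ℓ n d : ℕ) : ℝ :=
  sSup {v : ℝ | ∃ a, Feas ℓ n d a ∧ v = ∑ X, a X}

/-- inner product of tuples -/
def ip {ℓ n : ℕ} (Y X : Fin ℓ → Fin n → ZMod 2) : ZMod 2 := ∑ i, ∑ j, Y i j * X i j

lemma ip_add_left {ℓ n : ℕ} (Y Y' X : Fin ℓ → Fin n → ZMod 2) :
    ip (Y + Y') X = ip Y X + ip Y' X := by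
  unfold ip
  rw [← sum_add_distrib]
  refine sum_congr rfl fun i _ => ?_
  rw [← sum_add_distrib]
  refine sum_congr rfl fun j _ => ?_
  rw [Pi.add_apply, Pi.add_apply, add_mul]

lemma ip_add_right {ℓ n : ℕ} (Y X X' : Fin ℓ → Fin n → ZMod 2) :
    ip Y (X + X') = ip Y X + ip Y X' := by
  unfold ip
  rw [← sum_add_distrib]
  refine sum_congr rfl fun i _ => ?_
  rw [← sum_add_distrib]
  refine sum_congr rfl fun j _ => ?_
  rw [Pi.add_apply, Pi.add_apply, mul_add]

lemma ip_zero_left {ℓ n : ℕ} (X : Fin ℓ → Fin n → ZMod 2) : ip 0 X = 0 := by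
  unfold ip; simp

lemma ip_zero_right {ℓ n : ℕ} (X : Fin ℓ → Fin n → ZMod 2) : ip X 0 = 0 := by
  unfold ip; simp

lemma sgn_le_one (z : ZMod 2) : sgn z ≤ 1 := by
  unfold sgn; split_ifs <;> norm_num

/-- the sum over a subgroup of characters -/
lemma sum_sgn_nonneg {G : Type*} [AddCommGroup G] [Fintype G] (f : G → ZMod 2)
    (h0 : f 0 = 0) (hf : ∀ x y, f (x + y) = f x + f y) : 0 ≤ ∑ x, sgn (f x) := by
  classical
  let φ : AddChar G ℝ :=
    { toFun := fun x => sgn (f x)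
      map_zero_eq_one' := by rw [h0, sgn_zero]
      map_add_eq_mul' := fun x y => by rw [hf, sgn_add] }
  have h := AddChar.sum_eq_ite φ
  change ∑ x, φ x = _ at h
  change 0 ≤ ∑ x, φ x
  rw [h]
  split_ifs
  · exact Nat.cast_nonneg _
  · exact le_rfl

lemma orth {ℓ n : ℕ} (X : Fin ℓ → Fin n → ZMod 2) :
    ∑ Y : Fin ℓ → Fin n → ZMod 2, sgn (ip Y X) =
      if X = 0 then (Fintype.card (Fin ℓ → Fin n → ZMod 2) : ℝ) else 0 := by
  classical
  let φ : AddChar (Fin ℓ → Fin n → ZMod 2) ℝ :=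
    { toFun := fun Y => sgn (ip Y X)
      map_zero_eq_one' := by rw [ip_zero_left, sgn_zero]
      map_add_eq_mul' := fun x y => by rw [ip_add_left, sgn_add] }
  have h := AddChar.sum_eq_ite φ
  change ∑ Y, φ Y = _
  rw [h]
  congr 1
  rw [eq_iff_iff]
  constructor
  · intro h1
    funext i j
    by_contra hij
    have h2 : φ (Pi.single i (Pi.single j 1)) = 1 := by rw [h1]; rfl
    have h3 : ip (Pi.single i (Pi.single j 1)) X = X i j := by
      unfold ip
      rw [Finset.sum_eq_single i, Finset.sum_eq_single j]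
      · simp
      · intro j' _ hj'
        rw [Pi.single_eq_same, Pi.single_eq_of_ne hj', zero_mul]
      · intro h; exact absurd (mem_univ _) h
      · intro i' _ hi'
        refine sum_eq_zero fun j' _ => ?_
        rw [Pi.single_eq_of_ne hi']
        simp
      · intro h; exact absurd (mem_univ _) h
    change sgn (ip (Pi.single i (Pi.single j 1)) X) = 1 at h2
    rw [h3] at h2
    unfold sgn at h2
    have h4 : X i j ≠ 0 := hij
    rw [if_neg h4] at h2
    norm_num at h2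
  · rintro rfl
    rw [AddChar.eq_zero_iff]
    intro Y
    change sgn (ip Y 0) = 1
    rw [ip_zero_right, sgn_zero]

lemma Feas.four {ℓ n d : ℕ} {a : (Fin ℓ → Fin n → ZMod 2) → ℝ} (h : Feas ℓ n d a)
    (Y : Fin ℓ → Fin n → ZMod 2) : 0 ≤ ∑ X, a X * sgn (ip Y X) := h.fourier Y

lemma Feas.le_one {ℓ n d : ℕ} {a : (Fin ℓ → Fin n → ZMod 2) → ℝ} (h : Feas ℓ n d a)
    (X : Fin ℓ → Fin n → ZMod 2) : a X ≤ 1 := by
  classical
  have h1 : 0 ≤ ∑ Y : Fin ℓ → Fin n → ZMod 2,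
      (∑ Z, a Z * sgn (ip Y Z)) * (1 - sgn (ip Y X)) :=
    sum_nonneg fun Y _ => mul_nonneg (h.four Y) (by linarith [sgn_le_one (ip Y X)])
  have h2 : ∑ Y : Fin ℓ → Fin n → ZMod 2, (∑ Z, a Z * sgn (ip Y Z)) * (1 - sgn (ip Y X)) =
      (Fintype.card (Fin ℓ → Fin n → ZMod 2) : ℝ) * (a 0 - a X) := by
    have h3 : ∀ Y : Fin ℓ → Fin n → ZMod 2, (∑ Z, a Z * sgn (ip Y Z)) * (1 - sgn (ip Y X)) =
        ∑ Z, a Z * (sgn (ip Y Z) - sgn (ip Y (Z + X))) := by
      intro Y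
      rw [Finset.sum_mul]
      refine sum_congr rfl fun Z _ => ?_
      rw [ip_add_right, sgn_add]
      ring
    simp_rw [h3]
    rw [sum_comm]
    simp_rw [← Finset.mul_sum, sum_sub_distrib, orth]
    have hxx : ∀ Z : Fin ℓ → Fin n → ZMod 2, Z + X = 0 ↔ Z = X := by
      intro Z
      have hX : -X = X := by
        funext i j
        change -(X i j) = X i j
        exact ZMod.neg_eq_self_mod_two _
      rw [← sub_eq_zero (a := Z), sub_eq_add_neg, hX]
    simp_rw [hxx, mul_sub]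
    rw [sum_sub_distrib]
    simp only [mul_ite, mul_zero, sum_ite_eq', mem_univ, if_true]
    ring
  rw [h2] at h1
  have hN : (0 : ℝ) < Fintype.card (Fin ℓ → Fin n → ZMod 2) := by exact_mod_cast Fintype.card_pos
  have h4 : 0 ≤ a 0 - a X := nonneg_of_mul_nonneg_right h1 hN
  rw [h.zero] at h4
  linarith

lemma LP_bdd (ℓ n d : ℕ) : BddAbove {v : ℝ | ∃ a, Feas ℓ n d a ∧ v = ∑ X, a X} := by
  refine ⟨(Fintype.card (Fin ℓ → Fin n → ZMod 2) : ℝ), ?_⟩
  rintro v ⟨a, ha, rfl⟩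
  calc ∑ X, a X ≤ ∑ _X : Fin ℓ → Fin n → ZMod 2, (1 : ℝ) := sum_le_sum fun X _ => ha.le_one X
    _ = _ := by rw [sum_const, nsmul_eq_mul, mul_one, card_univ]

lemma le_LPv {ℓ n d : ℕ} {a : (Fin ℓ → Fin n → ZMod 2) → ℝ} (h : Feas ℓ n d a) :
    ∑ X, a X ≤ LPv ℓ n d := le_csSup (LP_bdd ℓ n d) ⟨a, h, rfl⟩

/-- the solution given by a linear code -/
lemma code_feas {ℓ n d : ℕ} (C : Submodule (ZMod 2) (Fin n → ZMod 2))
    (hC : ∀ x ∈ C, x ≠ 0 → d ≤ hammingNorm x)
    [DecidablePred fun X : Fin ℓ → Fin n → ZMod 2 => ∀ i, X i ∈ C] :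
    Feas ℓ n d (fun X => if ∀ i, X i ∈ C then 1 else 0) ∧
      ∑ X : Fin ℓ → Fin n → ZMod 2, (if ∀ i, X i ∈ C then (1 : ℝ) else 0) =
        (Nat.card C : ℝ) ^ ℓ := by
  classical
  have : Fintype C := Fintype.ofFinite _
  have hle : ∀ X : Fin ℓ → Fin n → ZMod 2, (∀ i, X i ∈ C) ↔
      Submodule.span (ZMod 2) (Set.range X) ≤ C := by
    intro X
    rw [Submodule.span_le]
    constructor
    · rintro h _ ⟨i, rfl⟩
      exact h i
    · intro h i
      exact h ⟨i, rfl⟩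
  have hsum : ∀ g : (Fin ℓ → Fin n → ZMod 2) → ℝ,
      ∑ X : Fin ℓ → Fin n → ZMod 2, (if ∀ i, X i ∈ C then (1 : ℝ) else 0) * g X =
      ∑ Z : Fin ℓ → C, g (fun i => (Z i : Fin n → ZMod 2)) := by
    intro g
    symm
    refine Fintype.sum_of_injective (fun (Z : Fin ℓ → C) i => (Z i : Fin n → ZMod 2)) ?_ _ _ ?_ ?_
    · intro Z Z' h
      funext i
      exact Subtype.ext (congrFun h i)
    · intro X hX
      rw [if_neg, zero_mul]
      intro h
      exact hX ⟨fun i => ⟨X i, h i⟩, rfl⟩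
    · intro Z
      rw [if_pos (fun i => (Z i).2), one_mul]
  refine ⟨⟨?_, ?_, ?_, ?_, ?_⟩, ?_⟩
  · have h0 : ∀ i : Fin ℓ, (0 : Fin ℓ → Fin n → ZMod 2) i ∈ C := fun i => C.zero_mem
    rw [if_pos h0]
  · intro X
    split_ifs <;> norm_num
  · intro X v hv hv0 hvd
    rw [if_neg]
    intro h
    have := hC v ((hle X).1 h hv) hv0
    omega
  · intro X X' h
    by_cases h1 : ∀ i, X i ∈ C
    · have h2 : ∀ i, X' i ∈ C := by
        rw [hle, ← h, ← hle]
        exact h1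
      rw [if_pos h1, if_pos h2]
    · have h2 : ¬ ∀ i, X' i ∈ C := by
        rw [hle, ← h, ← hle]
        exact h1
      rw [if_neg h1, if_neg h2]
  · intro Y
    have h1 := hsum (fun X => sgn (ip Y X))
    have h2 : ∑ X : Fin ℓ → Fin n → ZMod 2, (if ∀ i, X i ∈ C then (1 : ℝ) else 0) *
        sgn (∑ i, ∑ j, Y i j * X i j) =
        ∑ X : Fin ℓ → Fin n → ZMod 2, (if ∀ i, X i ∈ C then (1 : ℝ) else 0) * sgn (ip Y X) := rfl
    rw [h2, h1]
    refine sum_sgn_nonneg (fun Z : Fin ℓ → C => ip Y (fun i => (Z i : Fin n → ZMod 2))) ?_ ?_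
    · exact ip_zero_right Y
    · intro Z Z'
      rw [← ip_add_right]
      rfl
  · have h1 := hsum (fun _ => 1)
    simp only [mul_one, sum_const, card_univ, nsmul_eq_mul] at h1
    rw [h1, Fintype.card_fun, Fintype.card_fin, Nat.card_eq_fintype_card]
    push_cast
    rfl

lemma nonempty_set (ℓ n d : ℕ) : {v : ℝ | ∃ a, Feas ℓ n d a ∧ v = ∑ X, a X}.Nonempty := by
  classical
  have h := code_feas (ℓ := ℓ) (n := n) (d := d) ⊥ (fun x hx hx0 => absurd
    ((Submodule.mem_bot (ZMod 2)).1 hx) hx0)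
  exact ⟨_, _, h.1, rfl⟩

lemma LPv_nonneg (ℓ n d : ℕ) : 0 ≤ LPv ℓ n d := by
  obtain ⟨v, a, ha, hv⟩ := nonempty_set ℓ n d
  exact le_trans (sum_nonneg fun X _ => ha.nonneg X) (le_LPv ha)

/-- valid bound -/
theorem code_le (ℓ n d : ℕ) (C : Submodule (ZMod 2) (Fin n → ZMod 2))
    (hC : ∀ x ∈ C, x ≠ 0 → d ≤ hammingNorm x) : (Nat.card C : ℝ) ^ ℓ ≤ LPv ℓ n d := by
  classical
  have h := code_feas (ℓ := ℓ) C hC
  rw [← h.2]
  exact le_LPv h.1

lemma ip_append {ℓ m n : ℕ} (Y X : Fin ℓ → Fin n → ZMod 2) (Y' X' : Fin m → Fin n → ZMod 2) :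
    ip (Fin.append Y Y') (Fin.append X X') = ip Y X + ip Y' X' := by
  unfold ip
  rw [Fin.sum_univ_add]
  simp only [Fin.append_left, Fin.append_right]

lemma sum_append {ℓ m n : ℕ} (f : (Fin (ℓ + m) → Fin n → ZMod 2) → ℝ) :
    ∑ X, f X = ∑ X'' : Fin m → Fin n → ZMod 2, ∑ X' : Fin ℓ → Fin n → ZMod 2,
      f (Fin.append X' X'') := by
  rw [← Equiv.sum_comp (Fin.appendEquiv ℓ m), Fintype.sum_prod_type, sum_comm]
  rfl

lemma span_append {ℓ m n : ℕ} (X : Fin ℓ → Fin n → ZMod 2) (X' : Fin m → Fin n → ZMod 2) :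
    Submodule.span (ZMod 2) (Set.range (Fin.append X X')) =
      Submodule.span (ZMod 2) (Set.range X) ⊔ Submodule.span (ZMod 2) (Set.range X') := by
  rw [← Submodule.span_union]
  congr 1
  ext x
  constructor
  · rintro ⟨i, rfl⟩
    refine Fin.addCases (fun j => ?_) (fun j => ?_) i
    · rw [Fin.append_left]; exact Or.inl ⟨j, rfl⟩
    · rw [Fin.append_right]; exact Or.inr ⟨j, rfl⟩
  · rintro (⟨j, rfl⟩ | ⟨j, rfl⟩)
    · exact ⟨Fin.castAdd m j, Fin.append_left _ _ _⟩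
    · exact ⟨Fin.natAdd ℓ j, Fin.append_right _ _ _⟩

lemma append_zero {ℓ m n : ℕ} :
    Fin.append (0 : Fin ℓ → Fin n → ZMod 2) (0 : Fin m → Fin n → ZMod 2) = 0 := by
  funext i
  refine Fin.addCases (fun j => ?_) (fun j => ?_) i
  · rw [Fin.append_left]; rfl
  · rw [Fin.append_right]; rfl

lemma span_zero {m n : ℕ} :
    Submodule.span (ZMod 2) (Set.range (0 : Fin m → Fin n → ZMod 2)) = ⊥ := by
  rw [Submodule.span_eq_bot]
  rintro _ ⟨i, rfl⟩
  rfl

/-- the first part -/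
lemma feas_left {ℓ m n d : ℕ} {a : (Fin (ℓ + m) → Fin n → ZMod 2) → ℝ} (h : Feas (ℓ + m) n d a) :
    Feas ℓ n d (fun X' => a (Fin.append X' 0)) := by
  classical
  refine ⟨?_, fun X => h.nonneg _, ?_, ?_, ?_⟩
  · rw [append_zero]; exact h.zero
  · intro X v hv
    refine h.dist _ v ?_
    rw [span_append]
    exact Submodule.mem_sup_left hv
  · intro X X' hX
    refine h.span _ _ ?_
    rw [span_append, span_append, hX]
  · intro Y
    change 0 ≤ ∑ X, a (Fin.append X 0) * sgn (ip Y X)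
    have h1 : 0 ≤ ∑ Y'' : Fin m → Fin n → ZMod 2, ∑ X, a X * sgn (ip (Fin.append Y Y'') X) :=
      sum_nonneg fun Y'' _ => h.four _
    have h2 : ∑ Y'' : Fin m → Fin n → ZMod 2, ∑ X, a X * sgn (ip (Fin.append Y Y'') X) =
        (Fintype.card (Fin m → Fin n → ZMod 2) : ℝ) *
          ∑ X, a (Fin.append X 0) * sgn (ip Y X) := by
      simp_rw [sum_append (ℓ := ℓ) (m := m), ip_append, sgn_add]
      rw [sum_comm]
      have h3 : ∀ X'' : Fin m → Fin n → ZMod 2, ∑ Y'' : Fin m → Fin n → ZMod 2,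
          ∑ X' : Fin ℓ → Fin n → ZMod 2,
            a (Fin.append X' X'') * (sgn (ip Y X') * sgn (ip Y'' X'')) =
          (if X'' = 0 then (Fintype.card (Fin m → Fin n → ZMod 2) : ℝ) else 0) *
            ∑ X' : Fin ℓ → Fin n → ZMod 2, a (Fin.append X' X'') * sgn (ip Y X') := by
        intro X''
        rw [← orth, Finset.sum_mul_sum]
        refine sum_congr rfl fun Y'' _ => sum_congr rfl fun X' _ => ?_
        ring
      simp_rw [h3, ite_mul, zero_mul]
      rw [Finset.sum_ite_eq' univ (0 : Fin m → Fin n → ZMod 2)]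
      simp
    rw [h2] at h1
    have hN : (0 : ℝ) < Fintype.card (Fin m → Fin n → ZMod 2) := by
      exact_mod_cast Fintype.card_pos
    exact nonneg_of_mul_nonneg_right h1 hN

/-- submultiplicativity -/
theorem LPv_mul (ℓ m n d : ℕ) : LPv (ℓ + m) n d ≤ LPv ℓ n d * LPv m n d := by
  classical
  refine csSup_le (nonempty_set _ _ _) ?_
  rintro v ⟨a, ha, rfl⟩
  obtain ⟨h, hh⟩ : ∃ h : (Fin m → Fin n → ZMod 2) → ℝ, h = fun X'' =>
    ∑ X' : Fin ℓ → Fin n → ZMod 2, a (Fin.append X' X'') := ⟨_, rfl⟩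
  have h0 : h 0 ≤ LPv ℓ n d := by
    rw [hh]
    exact le_LPv (feas_left ha)
  have h1 : 1 ≤ h 0 := by
    rw [hh]
    have : a (Fin.append 0 0) ≤ ∑ X' : Fin ℓ → Fin n → ZMod 2, a (Fin.append X' 0) :=
      single_le_sum (f := fun X' : Fin ℓ → Fin n → ZMod 2 => a (Fin.append X' 0))
        (fun X _ => ha.nonneg _) (mem_univ 0)
    rwa [append_zero, ha.zero] at this
  have h2 : Feas m n d (fun X => h X / h 0) := by
    refine ⟨div_self (by linarith), ?_, ?_, ?_, ?_⟩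
    · intro X
      refine div_nonneg ?_ (by linarith)
      rw [hh]
      exact sum_nonneg fun X' _ => ha.nonneg _
    · intro X v hv hv0 hvd
      have : h X = 0 := by
        rw [hh]
        refine sum_eq_zero fun X' _ => ha.dist _ v ?_ hv0 hvd
        rw [span_append]
        exact Submodule.mem_sup_right hv
      rw [this, zero_div]
    · intro X X' hX
      have : h X = h X' := by
        rw [hh]
        refine sum_congr rfl fun Z _ => ha.span _ _ ?_
        rw [span_append, span_append, hX]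
      rw [this]
    · intro Y
      change 0 ≤ ∑ X, h X / h 0 * sgn (ip Y X)
      have h3 := ha.four (Fin.append 0 Y)
      rw [sum_append (ℓ := ℓ) (m := m)] at h3
      simp_rw [ip_append, ip_zero_left, zero_add, ← Finset.sum_mul] at h3
      have h4 : ∑ X, h X / h 0 * sgn (ip Y X) = (∑ X, h X * sgn (ip Y X)) / h 0 := by
        rw [Finset.sum_div]
        exact sum_congr rfl fun X _ => by ring
      rw [h4]
      refine div_nonneg ?_ (by linarith)
      rw [hh]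
      exact h3
  have h3 := le_LPv h2
  rw [← Finset.sum_div, div_le_iff₀ (by linarith)] at h3
  have h4 : ∑ X, a X = ∑ X, h X := by
    rw [sum_append (ℓ := ℓ) (m := m), hh]
  rw [h4]
  calc ∑ X, h X ≤ LPv m n d * h 0 := h3
    _ ≤ LPv m n d * LPv ℓ n d := mul_le_mul_of_nonneg_left h0 (LPv_nonneg _ _ _)
    _ = _ := mul_comm _ _

end

end Run7.h779.LH
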