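import Pool.Agent.Run7.h779.LH.LPv

set_option autoImplicit false
set_option linter.unusedSectionVars false

open Finset Module Filter Topology

namespace Run7.h779.LH

noncomputable section

/-- The binary entropy function. -/
def H (x : ℝ) : ℝ := -x * Real.logb 2 x - (1 - x) * Real.logb 2 (1 - x)

/-- the gain -/
def gain (δ ω : ℝ) : ℝ :=
  min (1 - H δ - H ω) (-ω * Real.logb 2 (1 - 2 * δ * (1 - δ)))

lemma pow2 {x : ℝ} (hx : 0 < x) : x = (2 : ℝ) ^ Real.logb 2 x :=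
  (Real.rpow_logb (by norm_num) (by norm_num) hx).symm

lemma entro {x : ℝ} (hx0 : 0 < x) (hx1 : x ≤ 1 / 2) {e n : ℕ} (he : (e : ℝ) ≤ x * n) :
    (x / (1 - x))⁻¹ ^ e * (1 + x / (1 - x)) ^ n ≤ (2 : ℝ) ^ (H x * n) := by
  have h1x : 0 < 1 - x := by linarith
  have hr : 1 ≤ (x / (1 - x))⁻¹ := by
    rw [inv_div, le_div_iff₀ hx0]; linarith
  have h1r : 1 + x / (1 - x) = 1 / (1 - x) := by field_simp; ring
  have e1 : (x / (1 - x))⁻¹ ^ e ≤ (x / (1 - x))⁻¹ ^ (x * n : ℝ) := by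
    rw [← Real.rpow_natCast]
    exact Real.rpow_le_rpow_of_exponent_le hr he
  have hpos : 0 < (x / (1 - x))⁻¹ := by positivity
  have hl1 : Real.logb 2 ((x / (1 - x))⁻¹) = Real.logb 2 (1 - x) - Real.logb 2 x := by
    rw [inv_div, Real.logb_div h1x.ne' hx0.ne']
  have hl2 : Real.logb 2 (1 / (1 - x)) = - Real.logb 2 (1 - x) := by
    rw [one_div, Real.logb_inv]
  calc (x / (1 - x))⁻¹ ^ e * (1 + x / (1 - x)) ^ n
      ≤ (x / (1 - x))⁻¹ ^ (x * n : ℝ) * (1 / (1 - x)) ^ (n : ℝ) := by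
        rw [h1r, Real.rpow_natCast]
        gcongr
    _ = (2 : ℝ) ^ (H x * n) := by
        rw [pow2 hpos, pow2 (by positivity : (0 : ℝ) < 1 / (1 - x)), hl1, hl2,
          ← Real.rpow_mul (by norm_num), ← Real.rpow_mul (by norm_num),
          ← Real.rpow_add (by norm_num)]
        congr 1
        unfold H
        ring

lemma qpow {δ ω : ℝ} (h0 : 0 < δ) (h1 : δ < 1 / 2) {m n : ℕ} (hm : ω * n ≤ m) (h2m : 2 * m ≤ n) :
    (1 + (δ / (1 - δ)) ^ 2) ^ m * (1 + δ / (1 - δ)) ^ (n - 2 * m) ≤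
      (1 + δ / (1 - δ)) ^ n * (2 : ℝ) ^ (-(-ω * Real.logb 2 (1 - 2 * δ * (1 - δ))) * n) := by
  have h1x : 0 < 1 - δ := by linarith
  have hq0 : 0 < 1 - 2 * δ * (1 - δ) := by nlinarith
  have hq1 : 1 - 2 * δ * (1 - δ) ≤ 1 := by nlinarith
  obtain ⟨s, hs⟩ : ∃ s, n = 2 * m + s := ⟨n - 2 * m, by omega⟩
  have hns : n - 2 * m = s := by omega
  have hq : 1 + (δ / (1 - δ)) ^ 2 = (1 + δ / (1 - δ)) ^ 2 * (1 - 2 * δ * (1 - δ)) := by
    field_simp; ring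
  have hle : (1 - 2 * δ * (1 - δ)) ^ m ≤
      (2 : ℝ) ^ (-(-ω * Real.logb 2 (1 - 2 * δ * (1 - δ))) * n) := by
    have e1 : (1 - 2 * δ * (1 - δ)) ^ m ≤ (1 - 2 * δ * (1 - δ)) ^ (ω * n : ℝ) := by
      rw [← Real.rpow_natCast]
      exact Real.rpow_le_rpow_of_exponent_ge hq0 hq1 hm
    refine e1.trans (le_of_eq ?_)
    rw [pow2 hq0, ← Real.rpow_mul (by norm_num), ← pow2 hq0]
    congr 1
    ring
  rw [hns, hq, mul_pow, ← pow_mul]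
  calc (1 + δ / (1 - δ)) ^ (2 * m) * (1 - 2 * δ * (1 - δ)) ^ m * (1 + δ / (1 - δ)) ^ s
      = (1 + δ / (1 - δ)) ^ n * (1 - 2 * δ * (1 - δ)) ^ m := by
        rw [hs, pow_add]; ring
    _ ≤ _ := by gcongr

lemma H_nonneg {x : ℝ} (h0 : 0 < x) (h1 : x < 1) : 0 ≤ H x := by
  unfold H
  have e1 : Real.logb 2 x ≤ 0 := Real.logb_nonpos (by norm_num) h0.le h1.le
  have e2 : Real.logb 2 (1 - x) ≤ 0 := Real.logb_nonpos (by norm_num) (by linarith) (by linarith)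
  nlinarith

lemma growth {κ : ℝ} (hκ : 0 < κ) : ∃ n₀ : ℕ, ∀ n ≥ n₀, 256 * ((n : ℝ) + 66) ≤ (2 : ℝ) ^ (κ * n) := by
  have h1 : (1 : ℝ) < (2 : ℝ) ^ κ := Real.one_lt_rpow (by norm_num) hκ
  have t1 := tendsto_pow_const_div_const_pow_of_one_lt 1 h1
  have t0 := tendsto_pow_const_div_const_pow_of_one_lt 0 h1
  have t2 : Tendsto (fun n : ℕ => 256 * ((n : ℝ) ^ 1 / ((2 : ℝ) ^ κ) ^ n) +
      16896 * ((n : ℝ) ^ 0 / ((2 : ℝ) ^ κ) ^ n)) atTop (𝓝 (256 * 0 + 16896 * 0)) :=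
    (t1.const_mul _).add (t0.const_mul _)
  have h2 : ∀ᶠ n : ℕ in atTop, 256 * ((n : ℝ) ^ 1 / ((2 : ℝ) ^ κ) ^ n) +
      16896 * ((n : ℝ) ^ 0 / ((2 : ℝ) ^ κ) ^ n) < 1 :=
    (tendsto_order.1 t2).2 1 (by norm_num)
  obtain ⟨n₀, hn₀⟩ := eventually_atTop.1 h2
  refine ⟨n₀, fun n hn => ?_⟩
  have h3 := hn₀ n hn
  have h4 : (0 : ℝ) < ((2 : ℝ) ^ κ) ^ n := by positivity
  have h5 : 256 * ((n : ℝ) ^ 1 / ((2 : ℝ) ^ κ) ^ n) + 16896 * ((n : ℝ) ^ 0 / ((2 : ℝ) ^ κ) ^ n) =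
      (256 * ((n : ℝ) + 66)) / ((2 : ℝ) ^ κ) ^ n := by
    field_simp
    ring
  rw [h5, div_lt_one h4] at h3
  rw [Real.rpow_mul (by norm_num), Real.rpow_natCast]
  exact h3.le

theorem lower {δ ω c : ℝ} (h0 : 0 < δ) (h1 : δ < 1 / 2) (hω0 : 0 < ω) (hω1 : ω < 1 / 2)
    (hc0 : 0 < c) (hc : c < gain δ ω) :
    ∃ ε : ℝ, 0 < ε ∧ ∃ n₀ : ℕ, ∀ n ≥ n₀, ∀ ℓ : ℕ, 1 ≤ ℓ → (ℓ : ℝ) ≤ ε * √n →
      (2 : ℝ) ^ ((ℓ * (1 - H δ) + c) * n) ≤ LPv ℓ n ⌈δ * n⌉₊ := by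
  obtain ⟨g, hg⟩ : ∃ g, g = gain δ ω := ⟨_, rfl⟩
  rw [← hg] at hc
  have hg1 : g ≤ 1 - H δ - H ω := by rw [hg]; exact min_le_left _ _
  have hg2 : g ≤ -ω * Real.logb 2 (1 - 2 * δ * (1 - δ)) := by rw [hg]; exact min_le_right _ _
  obtain ⟨κ, hκ⟩ : ∃ κ, κ = (g - c) / 3 := ⟨_, rfl⟩
  have hκ0 : 0 < κ := by rw [hκ]; linarith
  obtain ⟨c1, hc1⟩ : ∃ c1, c1 = c + κ := ⟨_, rfl⟩
  obtain ⟨c2, hc2⟩ : ∃ c2, c2 = c + 2 * κ := ⟨_, rfl⟩
  have hgc2 : g = c2 + κ := by rw [hc2, hκ]; ring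
  obtain ⟨n₀, hn₀⟩ := growth hκ0
  refine ⟨√(κ / 7), Real.sqrt_pos.2 (by positivity), max n₀ 1, fun n hn ℓ hℓ1 hℓ => ?_⟩
  have hn1 : 1 ≤ n := le_trans (le_max_right _ _) hn
  have hgr := hn₀ n (le_trans (le_max_left _ _) hn)
  have hnR : (1 : ℝ) ≤ n := by exact_mod_cast hn1
  have hn0 : (0 : ℝ) < n := by linarith
  have hℓR : (1 : ℝ) ≤ ℓ := by exact_mod_cast hℓ1
  have hℓ7 : 7 * (ℓ : ℝ) ^ 2 ≤ κ * n := by
    have e1 : (ℓ : ℝ) ^ 2 ≤ (√(κ / 7) * √n) ^ 2 := pow_le_pow_left₀ (by linarith) hℓ 2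
    rw [mul_pow, Real.sq_sqrt (by positivity), Real.sq_sqrt (by positivity)] at e1
    linarith
  have hℓsq : (ℓ : ℝ) ≤ ℓ ^ 2 := by
    rw [sq]
    exact le_mul_of_one_le_left (by linarith) hℓR
  have hκc2 : κ * n ≤ c2 * n := by
    apply mul_le_mul_of_nonneg_right _ hn0.le
    rw [hc2]
    linarith
  -- abbreviations for powers of 2
  have padd : ∀ a b : ℝ, (2 : ℝ) ^ (a + b) = 2 ^ a * 2 ^ b := fun a b =>
    Real.rpow_add (by norm_num) a b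
  have pmono : ∀ a b : ℝ, a ≤ b → (2 : ℝ) ^ a ≤ 2 ^ b := fun a b h =>
    Real.rpow_le_rpow_of_exponent_le (by norm_num) h
  have ppos : ∀ a : ℝ, (0 : ℝ) < 2 ^ a := fun a => Real.rpow_pos_of_pos (by norm_num) a
  obtain ⟨d, hd⟩ : ∃ d, d = ⌈δ * n⌉₊ := ⟨_, rfl⟩
  rw [← hd]
  have hd1 : 1 ≤ d := by
    rw [hd]
    exact Nat.one_le_iff_ne_zero.2 (Nat.ceil_pos.2 (by positivity)).ne'
  have hdl : ((d - 1 : ℕ) : ℝ) ≤ δ * n := by
    rw [Nat.cast_sub hd1, hd]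
    have := Nat.ceil_lt_add_one (a := δ * n) (by positivity)
    push_cast
    linarith
  obtain ⟨m, hm⟩ : ∃ m, m = ⌈ω * n⌉₊ := ⟨_, rfl⟩
  have hm1 : 1 ≤ m := by
    rw [hm]
    exact Nat.one_le_iff_ne_zero.2 (Nat.ceil_pos.2 (by positivity)).ne'
  have hml : ((m - 1 : ℕ) : ℝ) ≤ ω * n := by
    rw [Nat.cast_sub hm1, hm]
    have := Nat.ceil_lt_add_one (a := ω * n) (by positivity)
    push_cast
    linarith
  have hmu : ω * n ≤ m := by rw [hm]; exact Nat.le_ceil _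
  have hHω : 0 ≤ H ω := H_nonneg hω0 (by linarith)
  have hHδ : 0 ≤ H δ := H_nonneg h0 (by linarith)
  obtain ⟨k, hk⟩ : ∃ k, k = ⌈H ω * n⌉₊ + 4 := ⟨_, rfl⟩
  have hk1 : H ω * n + 4 ≤ k := by
    rw [hk]
    push_cast
    linarith [Nat.le_ceil (H ω * n)]
  have hk2 : (k : ℝ) ≤ H ω * n + 5 := by
    rw [hk]
    push_cast
    linarith [Nat.ceil_lt_add_one (a := H ω * n) (by positivity)]
  have hr0 : 0 < δ / (1 - δ) := by
    have : 0 < 1 - δ := by linarith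
    positivity
  have hr1 : δ / (1 - δ) ≤ 1 := by
    rw [div_le_one (by linarith)]; linarith
  have hs0 : 0 < ω / (1 - ω) := by
    have : 0 < 1 - ω := by linarith
    positivity
  have hs1 : ω / (1 - ω) ≤ 1 := by
    rw [div_le_one (by linarith)]; linarith
  -- numbers
  have p32 : (2 : ℝ) ^ (5 : ℝ) = 32 := by
    rw [show (5 : ℝ) = ((5 : ℕ) : ℝ) by norm_num, Real.rpow_natCast]; norm_num
  have p16 : (2 : ℝ) ^ (4 : ℝ) = 16 := by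
    rw [show (4 : ℝ) = ((4 : ℕ) : ℝ) by norm_num, Real.rpow_natCast]; norm_num
  have p2k1 : 16 * (2 : ℝ) ^ (H ω * n) ≤ 2 ^ k := by
    rw [← Real.rpow_natCast, ← p16, ← padd]
    exact pmono _ _ (by linarith)
  have p2k2 : (2 : ℝ) ^ k ≤ 32 * 2 ^ (H ω * n) := by
    rw [← Real.rpow_natCast, ← p32, ← padd]
    exact pmono _ _ (by linarith)
  have hball : ((ball n d).card : ℝ) ≤ 2 ^ (H δ * n) :=
    (ball_card_le hr0 hr1).trans (entro h0 h1.le hdl)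
  have hbad : ((badChar n m).card : ℝ) ≤ 2 * 2 ^ (H ω * n) := by
    refine (badChar_card hs0 hs1).trans ?_
    have := entro hω0 hω1.le hml
    linarith
  -- `Vr 2^k / 2^n`
  have hgn : (2 : ℝ) ^ (-(g * n)) ≤ 2 ^ (-(c2 * n)) / (256 * (n + 66)) := by
    rw [le_div_iff₀ (by positivity)]
    calc (2 : ℝ) ^ (-(g * n)) * (256 * (n + 66)) ≤ 2 ^ (-(g * n)) * 2 ^ (κ * n) := by gcongr
      _ = 2 ^ (-(c2 * n)) := by
        rw [← padd]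
        congr 1
        rw [hgc2]
        ring
  have hVk : (2 : ℝ) ^ (H δ * n) * 2 ^ k / 2 ^ n ≤ 32 * 2 ^ (-(g * n)) := by
    rw [div_le_iff₀ (by positivity)]
    calc (2 : ℝ) ^ (H δ * n) * 2 ^ k ≤ 2 ^ (H δ * n) * (32 * 2 ^ (H ω * n)) := by gcongr
      _ = 32 * 2 ^ (H δ * n + H ω * n) := by rw [padd]; ring
      _ ≤ 32 * 2 ^ (-(g * n) + n) := by
        have h20 := mul_le_mul_of_nonneg_right hg1 hn0.le
        have : H δ * n + H ω * n ≤ -(g * n) + n := by linarith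
        have := pmono _ _ this
        linarith
      _ = 32 * 2 ^ (-(g * n)) * 2 ^ n := by
        rw [padd, Real.rpow_natCast]; ring
  have hc2n : (2 : ℝ) ^ (-(c2 * n)) ≤ 1 := by
    rw [← Real.rpow_zero 2]
    apply pmono
    have : 0 ≤ c2 * n := by rw [hc2]; positivity
    linarith
  have hgsmall : 32 * (2 : ℝ) ^ (-(g * n)) < 1 / 4 := by
    have e1 : (2 : ℝ) ^ (-(g * n)) ≤ 1 / (256 * (n + 66)) :=
      hgn.trans (by gcongr)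
    have e2 : (1 : ℝ) / (256 * (n + 66)) ≤ 1 / (256 * 66) := by
      apply one_div_le_one_div_of_le (by norm_num)
      linarith
    have e3 : 32 * ((1 : ℝ) / (256 * 66)) < 1 / 4 := by norm_num
    linarith
  have h32c2 : 32 * (2 : ℝ) ^ (-(g * n)) ≤ 2 ^ (-(c2 * n)) := by
    have e1 : 32 * (2 ^ (-(c2 * n)) / (256 * (n + 66))) ≤ (2 : ℝ) ^ (-(c2 * n)) := by
      rw [mul_div_assoc', div_le_iff₀ (by positivity), mul_comm]
      exact mul_le_mul_of_nonneg_left (by linarith) (ppos (-(c2 * n))).le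
    linarith
  obtain ⟨C, hCcard, hCψ, hCB, D, hD, hDcard⟩ := exists_code (n := n) (d := d) (k := k) (m := m)
    hd1 (by
      rw [div_lt_iff₀ (by positivity)]
      have := ppos (H ω * n)
      linarith) (by
      refine lt_of_le_of_lt ?_ (lt_of_le_of_lt hVk hgsmall)
      gcongr)
  -- parameters
  obtain ⟨Vr, hVr⟩ : ∃ Vr : ℝ, Vr = 2 ^ (H δ * n) := ⟨_, rfl⟩
  have hVr0 : 0 < Vr := by rw [hVr]; exact ppos _
  obtain ⟨M, hM⟩ : ∃ M : ℝ, M = Vr * 2 ^ (-(c2 * n)) := ⟨_, rfl⟩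
  have hM0 : 0 ≤ M := by rw [hM]; positivity
  obtain ⟨ρ, hρ⟩ : ∃ ρ : ℝ, ρ = 2 ^ (c1 * n / ℓ) / Vr := ⟨_, rfl⟩
  have hρ0 : 0 < ρ := by rw [hρ]; positivity
  obtain ⟨Qc, hQc⟩ : ∃ Qc : ℝ, Qc = 2 ^ n / 2 ^ k := ⟨_, rfl⟩
  have hQc0 : 0 < Qc := by rw [hQc]; positivity
  have hρV : ρ * Vr = 2 ^ (c1 * n / ℓ) := by rw [hρ]; field_simp
  have hc1n : c1 * n / ℓ ≤ c1 * n := by
    apply div_le_self _ hℓR
    rw [hc1]; positivity
  have hρM : ρ * M ≤ 2 ^ (-(κ * n)) := by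
    have : ρ * M = 2 ^ (c1 * n / ℓ) * 2 ^ (-(c2 * n)) := by
      rw [hM, ← mul_assoc, hρV]
    rw [this, ← padd]
    apply pmono
    have : c1 * n - c2 * n = -(κ * n) := by rw [hc1, hc2]; ring
    linarith
  have hMV : M / Vr = 2 ^ (-(c2 * n)) := by rw [hM]; field_simp
  have hVQc : Vr / Qc ≤ 2 ^ (-(c2 * n)) := by
    have : Vr / Qc = 2 ^ (H δ * n) * 2 ^ k / 2 ^ n := by
      rw [hVr, hQc]
      field_simp
    rw [this]
    exact hVk.trans h32c2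
  have hρVℓ : (ρ * Vr) ^ ℓ = 2 ^ (c1 * n) := by
    rw [hρV, ← Real.rpow_natCast, ← Real.rpow_mul (by norm_num)]
    congr 1
    have : (ℓ : ℝ) ≠ 0 := by linarith
    field_simp
  have hκn1 : (2 : ℝ) ^ (-(κ * n)) ≤ 1 := by
    rw [← Real.rpow_zero 2]
    apply pmono
    have : 0 ≤ κ * n := by positivity
    linarith
  obtain ⟨a, ha, hmass⟩ := build (ℓ := ℓ) hd1 C hCB D hD (Vr := Vr) (M := M) (ρ := ρ)
    (Fb := (n + 1) * (2 ^ (H δ * n) * 2 ^ (-(g * n)))) (Qc := Qc) (by rw [hVr]; exact hball)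
    (by
      intro ψ hψ0 hψC
      obtain ⟨q1, q2⟩ := hCψ ψ hψ0 hψC
      have h2m : 2 * m ≤ n := by omega
      refine (norm_ball_le ψ hr0 hr1 q1 q2).trans ?_
      have hq := qpow h0 h1 hmu h2m
      have hen := entro h0 h1.le hdl
      have hexp : (2 : ℝ) ^ (-(-ω * Real.logb 2 (1 - 2 * δ * (1 - δ))) * n) ≤ 2 ^ (-(g * n)) := by
        apply pmono
        have h20 := mul_le_mul_of_nonneg_right hg2 hn0.le
        linarith
      refine mul_le_mul_of_nonneg_left ?_ (by positivity)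
      have hrp : 0 < (δ / (1 - δ))⁻¹ ^ (d - 1) := by positivity
      calc (δ / (1 - δ))⁻¹ ^ (d - 1) *
          ((1 + (δ / (1 - δ)) ^ 2) ^ m * (1 + δ / (1 - δ)) ^ (n - 2 * m))
          ≤ (δ / (1 - δ))⁻¹ ^ (d - 1) * ((1 + δ / (1 - δ)) ^ n *
            (2 : ℝ) ^ (-(-ω * Real.logb 2 (1 - 2 * δ * (1 - δ))) * n)) := by gcongr
        _ = ((δ / (1 - δ))⁻¹ ^ (d - 1) * (1 + δ / (1 - δ)) ^ n) *
            (2 : ℝ) ^ (-(-ω * Real.logb 2 (1 - 2 * δ * (1 - δ))) * n) := by ring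
        _ ≤ 2 ^ (H δ * n) * 2 ^ (-(g * n)) := by gcongr)
    (by
      -- `Fb + |D| ≤ M`
      have e1 : (D.card : ℝ) ≤ 64 * (Vr * 2 ^ (-(g * n))) := by
        calc (D.card : ℝ) ≤ 2 * ((ball n d).card : ℝ) ^ 2 * 2 ^ k / 2 ^ n := hDcard
          _ ≤ 2 * Vr ^ 2 * 2 ^ k / 2 ^ n := by
            have h5 : ((ball n d).card : ℝ) ≤ Vr := by rw [hVr]; exact hball
            have h6 : ((ball n d).card : ℝ) ^ 2 ≤ Vr ^ 2 :=
              pow_le_pow_left₀ (Nat.cast_nonneg _) h5 2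
            exact div_le_div_of_nonneg_right (mul_le_mul_of_nonneg_right
              (mul_le_mul_of_nonneg_left h6 (by norm_num)) (by positivity)) (by positivity)
          _ = 2 * Vr * (2 ^ (H δ * n) * 2 ^ k / 2 ^ n) := by rw [← hVr]; ring
          _ ≤ 2 * Vr * (32 * 2 ^ (-(g * n))) := by gcongr
          _ = _ := by ring
      have e2 : (n + 1) * (2 ^ (H δ * n) * 2 ^ (-(g * n))) + 64 * (Vr * 2 ^ (-(g * n))) =
          (n + 65) * (Vr * (2 : ℝ) ^ (-(g * n))) := by rw [← hVr]; ring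
      have e3 : (n + 65) * (Vr * (2 : ℝ) ^ (-(g * n))) ≤ M := by
        rw [hM]
        calc (n + 65) * (Vr * (2 : ℝ) ^ (-(g * n)))
            ≤ (n + 65) * (Vr * (2 ^ (-(c2 * n)) / (256 * (n + 66)))) := by gcongr
          _ = Vr * 2 ^ (-(c2 * n)) * ((n + 65) / (256 * (n + 66))) := by ring
          _ ≤ Vr * 2 ^ (-(c2 * n)) * 1 := by
            have : ((n : ℝ) + 65) / (256 * (n + 66)) ≤ 1 := by
              rw [div_le_one (by positivity)]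
              linarith
            gcongr
          _ = Vr * 2 ^ (-(c2 * n)) := mul_one _
      linarith)
    hM0 hρ0 (hρM.trans hκn1) (by
      rw [hρV, ← Real.rpow_zero 2]
      apply pmono
      rw [hc1]
      positivity)
    (by
      rw [hQc]
      have : (Nat.card C : ℝ) ≤ 2 ^ k := by exact_mod_cast hCcard
      calc (2 : ℝ) ^ n / 2 ^ k * Nat.card C ≤ 2 ^ n / 2 ^ k * 2 ^ k := by gcongr
        _ = 2 ^ n := by field_simp)
    hQc0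
    (by
      have e1 : 2 * 2 ^ ℓ * Vr ≤ Qc ↔ 2 * 2 ^ ℓ * (Vr / Qc) ≤ 1 := by
        rw [mul_div_assoc', div_le_one hQc0]
      rw [e1]
      calc 2 * 2 ^ ℓ * (Vr / Qc) ≤ 2 * 2 ^ ℓ * 2 ^ (-(c2 * n)) := by gcongr
        _ = 2 ^ (1 + (ℓ : ℝ) + (-(c2 * n))) := by
          rw [padd, padd, Real.rpow_one, Real.rpow_natCast]
        _ ≤ 2 ^ (0 : ℝ) := by
          apply pmono
          linarith
        _ = 1 := Real.rpow_zero 2)
    (by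
      rw [hρVℓ, hMV]
      have e1 : (1 + (2 : ℝ) ^ ℓ) ^ ℓ ≤ (2 ^ (ℓ + 1)) ^ ℓ := by
        have : (1 : ℝ) ≤ 2 ^ ℓ := one_le_pow₀ (by norm_num)
        have : 1 + (2 : ℝ) ^ ℓ ≤ 2 ^ (ℓ + 1) := by rw [pow_succ]; linarith
        gcongr
      have e2 : ρ * M + 2 ^ ℓ * (2 ^ (c1 * n) * (Vr / Qc + 2 ^ (-(c2 * n)))) ≤
          2 ^ (-(κ * n)) * 2 ^ (ℓ + 2) := by
        have e3 : (2 : ℝ) ^ (c1 * n) * 2 ^ (-(c2 * n)) = 2 ^ (-(κ * n)) := by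
          rw [← padd]
          congr 1
          rw [hc1, hc2]
          ring
        calc ρ * M + 2 ^ ℓ * (2 ^ (c1 * n) * (Vr / Qc + 2 ^ (-(c2 * n))))
            ≤ 2 ^ (-(κ * n)) + 2 ^ ℓ * (2 ^ (c1 * n) * (2 ^ (-(c2 * n)) + 2 ^ (-(c2 * n)))) := by
              gcongr
          _ = 2 ^ (-(κ * n)) + 2 ^ ℓ * (2 * (2 ^ (c1 * n) * 2 ^ (-(c2 * n)))) := by ring
          _ = 2 ^ (-(κ * n)) * (1 + 2 * 2 ^ ℓ) := by rw [e3]; ring
          _ ≤ 2 ^ (-(κ * n)) * 2 ^ (ℓ + 2) := by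
            have : (1 : ℝ) ≤ 2 ^ ℓ := one_le_pow₀ (by norm_num)
            have : 1 + 2 * (2 : ℝ) ^ ℓ ≤ 2 ^ (ℓ + 2) := by rw [pow_add]; linarith
            gcongr
      have hin0 : 0 ≤ ρ * M + 2 ^ ℓ * (2 ^ (c1 * n) * (Vr / Qc + 2 ^ (-(c2 * n)))) := by
        positivity
      calc ((2 : ℝ) ^ ℓ) ^ ℓ * (1 + 2 ^ ℓ) ^ ℓ *
            (ρ * M + 2 ^ ℓ * (2 ^ (c1 * n) * (Vr / Qc + 2 ^ (-(c2 * n)))))
          ≤ ((2 : ℝ) ^ ℓ) ^ ℓ * (2 ^ (ℓ + 1)) ^ ℓ * (2 ^ (-(κ * n)) * 2 ^ (ℓ + 2)) := by gcongr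
        _ = 2 ^ (((ℓ * ℓ + (ℓ + 1) * ℓ + (ℓ + 2) : ℕ) : ℝ) + (-(κ * n))) := by
          rw [padd, Real.rpow_natCast, ← pow_mul, ← pow_mul, pow_add, pow_add]
          ring
        _ ≤ 2 ^ (-1 : ℝ) := by
          apply pmono
          have h9 : ((ℓ * ℓ + (ℓ + 1) * ℓ + (ℓ + 2) : ℕ) : ℝ) = 2 * (ℓ : ℝ) ^ 2 + 2 * ℓ + 2 := by
            push_cast
            ring
          rw [h9]
          linarith
        _ = 1 / 2 := by rw [Real.rpow_neg (by norm_num), Real.rpow_one]; norm_num)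
  refine le_trans ?_ (le_LPv ha)
  refine le_trans ?_ hmass
  have hfin : (ρ * 2 ^ n) ^ ℓ = 2 ^ (c1 * n + ℓ * ((1 - H δ) * n)) := by
    have e1 : ρ * 2 ^ n = 2 ^ (c1 * n / ℓ + (1 - H δ) * n) := by
      rw [hρ, hVr, padd, sub_mul, one_mul, sub_eq_add_neg, padd, Real.rpow_natCast,
        Real.rpow_neg (by norm_num)]
      field_simp
    rw [e1, ← Real.rpow_natCast, ← Real.rpow_mul (by norm_num)]
    congr 1
    have : (ℓ : ℝ) ≠ 0 := by linarith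
    field_simp
  rw [hfin, le_div_iff₀ (by norm_num)]
  calc (2 : ℝ) ^ ((ℓ * (1 - H δ) + c) * n) * 2
      ≤ 2 ^ ((ℓ * (1 - H δ) + c) * n) * 2 ^ (κ * n) := by
        have : (2 : ℝ) ≤ 2 ^ (κ * n) := le_trans (by linarith) hgr
        gcongr
    _ = 2 ^ (c1 * n + ℓ * ((1 - H δ) * n)) := by
        rw [← padd]
        congr 1
        rw [hc1]
        ring

end

end Run7.h779.LH
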